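import Mathlib
import Pool.Agent.H410R2.ACIface

/-!
AC1: the local sum.
-/

set_option autoImplicit false

open Finset

namespace Pool.Agent.H415R2.ACLocal

open Pool.Agent.H410R2.AC

/-! ### abstract injection bound -/

lemma exp_prod (P : Finset ℕ) (D O : ℕ → ℝ) (hD : ∀ p ∈ P, 1 ≤ D p) (hO : ∀ p ∈ P, 0 ≤ O p) :
    ∏ p ∈ P, (D p + O p) - ∏ p ∈ P, D p ≤ (∏ p ∈ P, D p) * (Real.exp (∑ p ∈ P, O p) - 1) := by
  have h1 : ∏ p ∈ P, (D p + O p) ≤ ∏ p ∈ P, (D p * Real.exp (O p)) := by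
    apply Finset.prod_le_prod
    · intro p hp
      have := hD p hp
      have := hO p hp
      linarith
    · intro p hp
      have a := hD p hp
      have b := hO p hp
      have c := Real.add_one_le_exp (O p)
      nlinarith [mul_nonneg (by linarith : (0 : ℝ) ≤ D p) (by linarith : (0 : ℝ) ≤ Real.exp (O p) - (O p + 1)),
        mul_nonneg (by linarith : (0 : ℝ) ≤ D p - 1) b]
  rw [Finset.prod_mul_distrib, ← Real.exp_sum] at h1
  rw [mul_sub, mul_one]
  linarith

lemma inj_bound {α ι : Type} [DecidableEq ι] (P : Finset ℕ) (Ω : Finset α)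
    (c : α → ℕ → Finset ι) (J G : Finset (Finset ι))
    (hinj : ∀ x ∈ Ω, ∀ y ∈ Ω, (∀ p ∈ P, c x p = c y p) → x = y)
    (hJ : ∀ x ∈ Ω, ∀ p ∈ P, c x p ∈ J) (f : ℕ → Finset ι → ℝ) (hf : ∀ p ∈ P, ∀ s, 0 ≤ f p s)
    (hD : ∀ p ∈ P, 1 ≤ ∑ s ∈ J.filter (· ∈ G), f p s) :
    ∑ x ∈ Ω.filter (fun x => ¬ ∀ p ∈ P, c x p ∈ G), ∏ p ∈ P, f p (c x p) ≤
      (∏ p ∈ P, ∑ s ∈ J.filter (· ∈ G), f p s) *
        (Real.exp (∑ p ∈ P, ∑ s ∈ J.filter (· ∉ G), f p s) - 1) := by
  classical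
  refine le_trans ?_ (exp_prod P _ _ hD (fun p hp => Finset.sum_nonneg (fun s _ => hf p hp s)))
  have e1 : ∀ p ∈ P, ∑ s ∈ J.filter (· ∈ G), f p s + ∑ s ∈ J.filter (· ∉ G), f p s =
      ∑ s ∈ J, f p s := fun p _ => Finset.sum_filter_add_sum_filter_not J (· ∈ G) (f p)
  rw [Finset.prod_congr rfl e1]
  have e2 : ∀ g : ℕ → ℝ, ∏ p ∈ P, g p = ∏ p : P, g p.1 := fun g => (Finset.prod_coe_sort P g).symm
  rw [e2 (fun p => ∑ s ∈ J, f p s), e2 (fun p => ∑ s ∈ J.filter (· ∈ G), f p s)]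
  rw [Finset.prod_univ_sum, Finset.prod_univ_sum]
  have hsub : Fintype.piFinset (fun _ : P => J.filter (· ∈ G)) ⊆ Fintype.piFinset (fun _ : P => J) := by
    intro y hy
    rw [Fintype.mem_piFinset] at hy ⊢
    intro p
    exact (Finset.mem_filter.1 (hy p)).1
  rw [← Finset.sum_sdiff hsub, add_sub_cancel_right]
  let Φ : α → (P → Finset ι) := fun x p => c x p.1
  have hΦ : ∀ x ∈ Ω.filter (fun x => ¬ ∀ p ∈ P, c x p ∈ G), ∀ y ∈ Ω.filter (fun x => ¬ ∀ p ∈ P, c x p ∈ G),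
      Φ x = Φ y → x = y := by
    intro x hx y hy hxy
    apply hinj x (Finset.mem_filter.1 hx).1 y (Finset.mem_filter.1 hy).1
    intro p hp
    exact congrFun hxy ⟨p, hp⟩
  have e3 : ∑ x ∈ Ω.filter (fun x => ¬ ∀ p ∈ P, c x p ∈ G), ∏ p ∈ P, f p (c x p) =
      ∑ y ∈ (Ω.filter (fun x => ¬ ∀ p ∈ P, c x p ∈ G)).image Φ, ∏ p : P, f p.1 (y p) := by
    rw [Finset.sum_image hΦ]
    apply Finset.sum_congr rfl
    intro x _
    exact e2 (fun p => f p (c x p))
  rw [e3]
  apply Finset.sum_le_sum_of_subset_of_nonneg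
  · intro y hy
    rw [Finset.mem_image] at hy
    obtain ⟨x, hx, rfl⟩ := hy
    rw [Finset.mem_filter] at hx
    rw [Finset.mem_sdiff, Fintype.mem_piFinset, Fintype.mem_piFinset]
    refine ⟨fun p => hJ x hx.1 p.1 p.2, fun h => hx.2 ?_⟩
    intro p hp
    exact (Finset.mem_filter.1 (h ⟨p, hp⟩)).2
  · intro y _ _
    exact Finset.prod_nonneg (fun p _ => hf p.1 p.2 _)

/-! ### local values -/

/-- the contribution of a residue used by m copies -/
noncomputable def gm (p m : ℕ) : ℝ := ((1 - (p : ℝ)) ^ m - 1) / p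

lemma gm_abs (p k : ℕ) (hp : 2 ≤ p) : |gm p (k + 1)| ≤ ((p : ℝ) - 1) ^ k := by
  have hp' : (2 : ℝ) ≤ p := by exact_mod_cast hp
  unfold gm
  rw [abs_div, abs_of_pos (by linarith : (0 : ℝ) < p), div_le_iff₀ (by linarith)]
  have h1 : |(1 - (p : ℝ)) ^ (k + 1)| = ((p : ℝ) - 1) ^ (k + 1) := by
    rw [abs_pow, abs_sub_comm, abs_of_pos (by linarith)]
  have h2 : (1 : ℝ) ≤ ((p : ℝ) - 1) ^ k := one_le_pow₀ (by linarith)
  calc |(1 - (p : ℝ)) ^ (k + 1) - 1| ≤ |(1 - (p : ℝ)) ^ (k + 1)| + |(1 : ℝ)| := abs_sub _ _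
    _ = ((p : ℝ) - 1) ^ k * ((p : ℝ) - 1) + 1 := by rw [h1, abs_one, pow_succ]
    _ ≤ ((p : ℝ) - 1) ^ k * p := by nlinarith

lemma gm_one (p : ℕ) (hp : 2 ≤ p) : gm p 1 = -1 := by
  have hp' : (2 : ℝ) ≤ p := by exact_mod_cast hp
  unfold gm
  rw [pow_one]
  field_simp
  ring

lemma gm_two (p : ℕ) (hp : 2 ≤ p) : gm p 2 = (p : ℝ) - 2 := by
  have hp' : (2 : ℝ) ≤ p := by exact_mod_cast hp
  unfold gm
  field_simp
  ring

section Local

variable {ι : Type} [DecidableEq ι]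

/-- the local expectation for a set of copies -/
noncomputable def El (ρ : ℕ → ℕ → ℕ) (loc : ι → Option ℕ) (p : ℕ) (c : Finset ι) : ℝ :=
  (∑ x ∈ range p, ∏ i ∈ c, psi ρ p (loc i) x) / p

/-- the local weight of a set of copies -/
noncomputable def el (ρ : ℕ → ℕ → ℕ) (loc : ι → Option ℕ) (p : ℕ) (c : Finset ι) : ℝ :=
  (1 / ((p : ℝ) - 1)) ^ c.card * El ρ loc p c

/-- residue class of a copy -/
def rs (ρ : ℕ → ℕ → ℕ) (loc : ι → Option ℕ) (p : ℕ) (i : ι) : ℕ := ρ p ((loc i).getD 0)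

lemma El_eq (ρ : ℕ → ℕ → ℕ) (loc : ι → Option ℕ) (p : ℕ) (hp : 2 ≤ p) (c : Finset ι)
    (hc : ∀ i ∈ c, loc i ≠ none) (hr : ∀ i ∈ c, rs ρ loc p i < p) :
    El ρ loc p c = 1 + ∑ x ∈ c.image (rs ρ loc p),
      gm p ((c.filter (fun i => rs ρ loc p i = x)).card) := by
  have hp' : (2 : ℝ) ≤ p := by exact_mod_cast hp
  have h1 : ∀ x ∈ range p, ∏ i ∈ c, psi ρ p (loc i) x =
      1 + ((1 - (p : ℝ)) ^ (c.filter (fun i => rs ρ loc p i = x)).card - 1) := by
    intro x hx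
    rw [Finset.mem_range] at hx
    have h2 : ∏ i ∈ c, psi ρ p (loc i) x = ∏ i ∈ c, (if rs ρ loc p i = x then 1 - (p : ℝ) else 1) := by
      apply Finset.prod_congr rfl
      intro i hi
      obtain ⟨a, ha⟩ := Option.ne_none_iff_exists'.1 (hc i hi)
      unfold rs psi
      rw [ha]
      simp only [Option.getD_some, Nat.mod_eq_of_lt hx]
      by_cases h3 : x = ρ p a
      · rw [if_pos h3, if_pos h3.symm]
      · rw [if_neg h3, if_neg (fun h => h3 h.symm)]
    rw [h2, Finset.prod_ite, Finset.prod_const, Finset.prod_const_one, mul_one]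
    ring
  unfold El
  rw [Finset.sum_congr rfl h1, Finset.sum_add_distrib, Finset.sum_const, Finset.card_range,
    nsmul_eq_mul, mul_one, add_div, div_self (by linarith)]
  congr 1
  have h4 : ∑ x ∈ range p, ((1 - (p : ℝ)) ^ (c.filter (fun i => rs ρ loc p i = x)).card - 1) =
      ∑ x ∈ c.image (rs ρ loc p), ((1 - (p : ℝ)) ^ (c.filter (fun i => rs ρ loc p i = x)).card - 1) := by
    symm
    apply Finset.sum_subset
    · intro x hx
      rw [Finset.mem_image] at hx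
      obtain ⟨i, hi, rfl⟩ := hx
      rw [Finset.mem_range]
      exact hr i hi
    · intro x _ hx
      have : c.filter (fun i => rs ρ loc p i = x) = ∅ := by
        rw [Finset.filter_eq_empty_iff]
        intro i hi h
        exact hx (Finset.mem_image.2 ⟨i, hi, h⟩)
      rw [this, Finset.card_empty, pow_zero, sub_self]
  rw [h4, Finset.sum_div]
  rfl

lemma el_empty (ρ : ℕ → ℕ → ℕ) (loc : ι → Option ℕ) (p : ℕ) (hp : 2 ≤ p) :
    el ρ loc p ∅ = 1 := by
  have hp' : (2 : ℝ) ≤ p := by exact_mod_cast hp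
  unfold el El
  simp
  omega

lemma card_fib_pos (ρ : ℕ → ℕ → ℕ) (loc : ι → Option ℕ) (p : ℕ) (c : Finset ι) (x : ℕ)
    (hx : x ∈ c.image (rs ρ loc p)) : 1 ≤ (c.filter (fun i => rs ρ loc p i = x)).card := by
  rw [Finset.mem_image] at hx
  obtain ⟨i, hi, h⟩ := hx
  exact Finset.card_pos.2 ⟨i, Finset.mem_filter.2 ⟨hi, h⟩⟩

/-- bound for arbitrary (colliding) primes -/
lemma el_coll (ρ : ℕ → ℕ → ℕ) (loc : ι → Option ℕ) (p : ℕ) (hp : 2 ≤ p) (c : Finset ι)
    (hc : ∀ i ∈ c, loc i ≠ none) (hr : ∀ i ∈ c, rs ρ loc p i < p) (hne : c.Nonempty) :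
    |el ρ loc p c| ≤ (1 + c.card) / ((p : ℝ) - 1) := by
  have hp' : (2 : ℝ) ≤ p := by exact_mod_cast hp
  have hq : (1 : ℝ) ≤ (p : ℝ) - 1 := by linarith
  have hq0 : (0 : ℝ) < (p : ℝ) - 1 := by linarith
  obtain ⟨k, hk⟩ : ∃ k, c.card = k + 1 := ⟨c.card - 1, by have := Finset.card_pos.2 hne; omega⟩
  have h1 : |El ρ loc p c| ≤ (1 + c.card) * ((p : ℝ) - 1) ^ k := by
    rw [El_eq ρ loc p hp c hc hr]
    have h2 : |∑ x ∈ c.image (rs ρ loc p), gm p ((c.filter (fun i => rs ρ loc p i = x)).card)| ≤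
        c.card * ((p : ℝ) - 1) ^ k := by
      calc _ ≤ ∑ x ∈ c.image (rs ρ loc p), |gm p ((c.filter (fun i => rs ρ loc p i = x)).card)| :=
            Finset.abs_sum_le_sum_abs _ _
        _ ≤ ∑ x ∈ c.image (rs ρ loc p), ((p : ℝ) - 1) ^ k := by
            apply Finset.sum_le_sum
            intro x hx
            have h3 := card_fib_pos ρ loc p c x hx
            have h4 : (c.filter (fun i => rs ρ loc p i = x)).card ≤ k + 1 := by
              rw [← hk]; exact Finset.card_filter_le _ _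
            obtain ⟨j, hj⟩ : ∃ j, (c.filter (fun i => rs ρ loc p i = x)).card = j + 1 :=
              ⟨(c.filter (fun i => rs ρ loc p i = x)).card - 1, by omega⟩
            rw [hj]
            exact (gm_abs p j hp).trans (pow_le_pow_right₀ hq (by omega))
        _ = ((c.image (rs ρ loc p)).card : ℝ) * ((p : ℝ) - 1) ^ k := by
            rw [Finset.sum_const, nsmul_eq_mul]
        _ ≤ c.card * ((p : ℝ) - 1) ^ k := by
            have : ((c.image (rs ρ loc p)).card : ℝ) ≤ c.card := by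
              exact_mod_cast Finset.card_image_le
            gcongr
    have h5 : (1 : ℝ) ≤ ((p : ℝ) - 1) ^ k := one_le_pow₀ hq
    calc _ ≤ |(1 : ℝ)| + |∑ x ∈ c.image (rs ρ loc p),
          gm p ((c.filter (fun i => rs ρ loc p i = x)).card)| := abs_add_le _ _
      _ ≤ (1 + c.card) * ((p : ℝ) - 1) ^ k := by rw [abs_one]; linarith
  unfold el
  rw [abs_mul, abs_of_nonneg (by positivity), one_div, inv_pow, hk]
  rw [hk] at h1
  calc (((p : ℝ) - 1) ^ (k + 1))⁻¹ * |El ρ loc p c| ≤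
      (((p : ℝ) - 1) ^ (k + 1))⁻¹ * ((1 + ((k + 1 : ℕ) : ℝ)) * ((p : ℝ) - 1) ^ k) := by gcongr
    _ = (1 + ((k + 1 : ℕ) : ℝ)) / ((p : ℝ) - 1) := by
      rw [pow_succ]; field_simp

/-- bound for injective residues -/
lemma el_inj (ρ : ℕ → ℕ → ℕ) (loc : ι → Option ℕ) (p : ℕ) (hp : 2 ≤ p) (c : Finset ι)
    (hc : ∀ i ∈ c, loc i ≠ none) (hr : ∀ i ∈ c, rs ρ loc p i < p) (hne : c.Nonempty)
    (hinj : ∀ i ∈ c, ∀ j ∈ c, rs ρ loc p i = rs ρ loc p j → i = j) :
    |el ρ loc p c| ≤ (1 + c.card) / ((p : ℝ) - 1) ^ 2 := by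
  have hp' : (2 : ℝ) ≤ p := by exact_mod_cast hp
  have hq : (1 : ℝ) ≤ (p : ℝ) - 1 := by linarith
  have hq0 : (0 : ℝ) < (p : ℝ) - 1 := by linarith
  have h1 : El ρ loc p c = 1 - c.card := by
    rw [El_eq ρ loc p hp c hc hr]
    have h2 : ∀ x ∈ c.image (rs ρ loc p), gm p ((c.filter (fun i => rs ρ loc p i = x)).card) = -1 := by
      intro x hx
      have : (c.filter (fun i => rs ρ loc p i = x)).card = 1 := by
        rw [Finset.mem_image] at hx
        obtain ⟨i, hi, h⟩ := hx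
        rw [Finset.card_eq_one]
        refine ⟨i, ?_⟩
        ext j
        rw [Finset.mem_filter, Finset.mem_singleton]
        constructor
        · rintro ⟨hj, hj2⟩
          exact hinj j hj i hi (by rw [hj2, h])
        · rintro rfl
          exact ⟨hi, h⟩
      rw [this, gm_one p hp]
    rw [Finset.sum_congr rfl h2, Finset.sum_const, Finset.card_image_of_injOn hinj, nsmul_eq_mul]
    ring
  unfold el
  rw [h1]
  have hcard := Finset.card_pos.2 hne
  obtain h | h : c.card = 1 ∨ 2 ≤ c.card := by omega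
  · rw [h]
    simp
    positivity
  · have h3 : ((p : ℝ) - 1) ^ 2 ≤ ((p : ℝ) - 1) ^ c.card := pow_le_pow_right₀ hq h
    have h4 : (0 : ℝ) ≤ c.card := by positivity
    have h5 : |(1 : ℝ) - c.card| ≤ 1 + c.card := by
      rw [abs_le]; constructor <;> linarith
    rw [abs_mul, abs_of_nonneg (by positivity), one_div, inv_pow]
    calc (((p : ℝ) - 1) ^ c.card)⁻¹ * |(1 : ℝ) - c.card| ≤ (((p : ℝ) - 1) ^ 2)⁻¹ * (1 + c.card) := by
          gcongr
      _ = (1 + c.card) / ((p : ℝ) - 1) ^ 2 := by rw [div_eq_inv_mul]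

/-- bound when all fibres have at most two elements -/
lemma el_two (ρ : ℕ → ℕ → ℕ) (loc : ι → Option ℕ) (p : ℕ) (hp : 2 ≤ p) (c : Finset ι)
    (hc : ∀ i ∈ c, loc i ≠ none) (hr : ∀ i ∈ c, rs ρ loc p i < p) (h3 : 3 ≤ c.card)
    (hfib : ∀ x, (c.filter (fun i => rs ρ loc p i = x)).card ≤ 2) :
    |el ρ loc p c| ≤ (1 + c.card) / ((p : ℝ) - 1) ^ 2 := by
  have hp' : (2 : ℝ) ≤ p := by exact_mod_cast hp
  have hq : (1 : ℝ) ≤ (p : ℝ) - 1 := by linarith
  have hq0 : (0 : ℝ) < (p : ℝ) - 1 := by linarith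
  have h1 : |El ρ loc p c| ≤ (1 + c.card) * ((p : ℝ) - 1) := by
    rw [El_eq ρ loc p hp c hc hr]
    have h2 : |∑ x ∈ c.image (rs ρ loc p), gm p ((c.filter (fun i => rs ρ loc p i = x)).card)| ≤
        c.card * ((p : ℝ) - 1) := by
      calc _ ≤ ∑ x ∈ c.image (rs ρ loc p), |gm p ((c.filter (fun i => rs ρ loc p i = x)).card)| :=
            Finset.abs_sum_le_sum_abs _ _
        _ ≤ ∑ x ∈ c.image (rs ρ loc p), ((p : ℝ) - 1) := by
            apply Finset.sum_le_sum
            intro x hx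
            have h3 := card_fib_pos ρ loc p c x hx
            have h4 := hfib x
            obtain ⟨j, hj⟩ : ∃ j, (c.filter (fun i => rs ρ loc p i = x)).card = j + 1 :=
              ⟨(c.filter (fun i => rs ρ loc p i = x)).card - 1, by omega⟩
            rw [hj] at h4 ⊢
            refine (gm_abs p j hp).trans ?_
            calc ((p : ℝ) - 1) ^ j ≤ ((p : ℝ) - 1) ^ 1 := pow_le_pow_right₀ hq (by omega)
              _ = (p : ℝ) - 1 := pow_one _
        _ = ((c.image (rs ρ loc p)).card : ℝ) * ((p : ℝ) - 1) := by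
            rw [Finset.sum_const, nsmul_eq_mul]
        _ ≤ c.card * ((p : ℝ) - 1) := by
            have : ((c.image (rs ρ loc p)).card : ℝ) ≤ c.card := by
              exact_mod_cast Finset.card_image_le
            gcongr
    calc _ ≤ |(1 : ℝ)| + |∑ x ∈ c.image (rs ρ loc p),
          gm p ((c.filter (fun i => rs ρ loc p i = x)).card)| := abs_add_le _ _
      _ ≤ (1 + c.card) * ((p : ℝ) - 1) := by rw [abs_one]; linarith
  unfold el
  have h5 : ((p : ℝ) - 1) ^ 3 ≤ ((p : ℝ) - 1) ^ c.card := pow_le_pow_right₀ hq h3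
  rw [abs_mul, abs_of_nonneg (by positivity), one_div, inv_pow]
  calc (((p : ℝ) - 1) ^ c.card)⁻¹ * |El ρ loc p c| ≤
      (((p : ℝ) - 1) ^ 3)⁻¹ * ((1 + c.card) * ((p : ℝ) - 1)) := by gcongr
    _ = (1 + c.card) / ((p : ℝ) - 1) ^ 2 := by
      field_simp

/-- value for a pair of copies of the same position -/
lemma el_pair (ρ : ℕ → ℕ → ℕ) (loc : ι → Option ℕ) (p : ℕ) (hp : 2 ≤ p) (c : Finset ι) (a : ℕ)
    (hc : ∀ i ∈ c, loc i = some a) (hr : ρ p a < p) (h2 : c.card = 2) :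
    el ρ loc p c = 1 / ((p : ℝ) - 1) := by
  have hp' : (2 : ℝ) ≤ p := by exact_mod_cast hp
  have hq0 : (0 : ℝ) < (p : ℝ) - 1 := by linarith
  have hrs : ∀ i ∈ c, rs ρ loc p i = ρ p a := by
    intro i hi
    unfold rs
    rw [hc i hi, Option.getD_some]
  have hne : c.Nonempty := Finset.card_pos.1 (by omega)
  have him : c.image (rs ρ loc p) = {ρ p a} := by
    ext x
    rw [Finset.mem_image, Finset.mem_singleton]
    constructor
    · rintro ⟨i, hi, rfl⟩
      exact hrs i hi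
    · rintro rfl
      obtain ⟨i, hi⟩ := hne
      exact ⟨i, hi, hrs i hi⟩
  have hfil : c.filter (fun i => rs ρ loc p i = ρ p a) = c := Finset.filter_true_of_mem hrs
  unfold el
  rw [El_eq ρ loc p hp c (fun i hi => by rw [hc i hi]; simp) (fun i hi => by rw [hrs i hi]; exact hr),
    him, Finset.sum_singleton, hfil, h2, gm_two p hp]
  field_simp
  ring

end Local

/-- product of the weights -/
lemma prod_wt {ι : Type} [Fintype ι] (P : Finset ℕ) (RR : ι → Finset ℕ)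
    (h : ∀ i, RR i ⊆ P) :
    ∏ i, wt (RR i) = ∏ p ∈ P, (1 / ((p : ℝ) - 1)) ^ (univ.filter (fun i => p ∈ RR i)).card := by
  have h1 : ∀ i, wt (RR i) = ∏ p ∈ P, (if p ∈ RR i then 1 / ((p : ℝ) - 1) else 1) := by
    intro i
    unfold wt
    rw [← Finset.prod_filter]
    congr 1
    ext p
    rw [Finset.mem_filter]
    exact ⟨fun hp => ⟨h i hp, hp⟩, fun hp => hp.2⟩
  rw [Finset.prod_congr rfl (fun i _ => h1 i), Finset.prod_comm]
  apply Finset.prod_congr rfl
  intro p _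
  rw [Finset.prod_ite, Finset.prod_const, Finset.prod_const_one, mul_one]

/-! ### two configurations -/

section Pair

variable {T : Type} [Fintype T] [DecidableEq T]

/-- positions of both configurations -/
def lc (σ σ' : T → Option ℕ) : T ⊕ T → Option ℕ := Sum.elim σ σ'

/-- the copies of a position -/
def AA (σ σ' : T → Option ℕ) (a : ℕ) : Finset (T ⊕ T) := univ.filter (fun i => lc σ σ' i = some a)

/-- diagonal sets of copies -/
def GD (σ σ' : T → Option ℕ) : Finset (Finset (T ⊕ T)) :=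
  insert ∅ ((pos σ ∩ pos σ').image (AA σ σ'))

/-- the present copies -/
def JJ (σ σ' : T → Option ℕ) : Finset (Finset (T ⊕ T)) :=
  (univ.filter (fun i => lc σ σ' i ≠ none)).powerset

omit [DecidableEq T] in
lemma mem_pos {σ : T → Option ℕ} {a : ℕ} : a ∈ pos σ ↔ ∃ τ, σ τ = some a := by
  unfold pos
  rw [Finset.mem_eraseNone, Finset.mem_image]
  simp

omit [Fintype T] [DecidableEq T] in
lemma fib_two {σ σ' : T → Option ℕ} (hσ : Inj σ) (hσ' : Inj σ') (s : Finset (T ⊕ T)) (a : ℕ)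
    (hs : ∀ i ∈ s, lc σ σ' i = some a) : s.card ≤ 2 := by
  have : s.card ≤ (univ : Finset Bool).card := by
    apply Finset.card_le_card_of_injOn (fun i => i.isLeft) (fun _ _ => Finset.mem_coe.2 (Finset.mem_univ _))
    intro i hi j hj hij
    have h1 := hs i hi
    have h2 := hs j hj
    cases i with
    | inl τ =>
      cases j with
      | inl τ' => rw [hσ τ τ' a h1 h2]
      | inr τ' => simp at hij
    | inr τ =>
      cases j with
      | inl τ' => simp at hij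
      | inr τ' => rw [hσ' τ τ' a h1 h2]
  simpa using this

lemma AA_eq {σ σ' : T → Option ℕ} (hσ : Inj σ) (hσ' : Inj σ') {a : ℕ} {τ τ' : T}
    (h1 : σ τ = some a) (h2 : σ' τ' = some a) : AA σ σ' a = {Sum.inl τ, Sum.inr τ'} := by
  ext i
  unfold AA
  rw [Finset.mem_filter, Finset.mem_insert, Finset.mem_singleton]
  constructor
  · rintro ⟨_, h⟩
    cases i with
    | inl τ2 => left; rw [hσ τ2 τ a h h1]
    | inr τ2 => right; rw [hσ' τ2 τ' a h h2]
  · rintro (rfl | rfl)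
    · exact ⟨Finset.mem_univ _, h1⟩
    · exact ⟨Finset.mem_univ _, h2⟩

lemma AA_card {σ σ' : T → Option ℕ} (hσ : Inj σ) (hσ' : Inj σ') {a : ℕ} (ha : a ∈ pos σ ∩ pos σ') :
    (AA σ σ' a).card = 2 := by
  rw [Finset.mem_inter, mem_pos, mem_pos] at ha
  obtain ⟨⟨τ, h1⟩, τ', h2⟩ := ha
  rw [AA_eq hσ hσ' h1 h2, Finset.card_pair (by simp)]

/-- a pair of different copies of one position is diagonal -/
lemma pair_mem {σ σ' : T → Option ℕ} (hσ : Inj σ) (hσ' : Inj σ') {a : ℕ} (c : Finset (T ⊕ T))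
    (h2 : c.card = 2) (hc : ∀ i ∈ c, lc σ σ' i = some a) : c ∈ GD σ σ' := by
  have hboth : a ∈ pos σ ∩ pos σ' := by
    obtain ⟨i, j, hij, hcij⟩ := Finset.card_eq_two.1 h2
    have hi := hc i (by rw [hcij]; simp)
    have hj := hc j (by rw [hcij]; simp)
    rw [Finset.mem_inter, mem_pos, mem_pos]
    cases i with
    | inl τ =>
      cases j with
      | inl τ' => exact absurd (congrArg Sum.inl (hσ τ τ' a hi hj)) hij
      | inr τ' => exact ⟨⟨τ, hi⟩, τ', hj⟩
    | inr τ =>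
      cases j with
      | inl τ' => exact ⟨⟨τ', hj⟩, τ, hi⟩
      | inr τ' => exact absurd (congrArg Sum.inr (hσ' τ τ' a hi hj)) hij
  have hsub : c ⊆ AA σ σ' a := by
    intro i hi
    exact Finset.mem_filter.2 ⟨Finset.mem_univ _, hc i hi⟩
  have heq : c = AA σ σ' a := Finset.eq_of_subset_of_card_le hsub (by rw [AA_card hσ hσ' hboth, h2])
  unfold GD
  rw [Finset.mem_insert, Finset.mem_image]
  exact Or.inr ⟨a, hboth, heq.symm⟩

omit [DecidableEq T] in
lemma lc_pos {σ σ' : T → Option ℕ} {i : T ⊕ T} {a : ℕ} (h : lc σ σ' i = some a) :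
    a ∈ pos σ ∪ pos σ' := by
  rw [Finset.mem_union, mem_pos, mem_pos]
  cases i with
  | inl τ => exact Or.inl ⟨τ, h⟩
  | inr τ => exact Or.inr ⟨τ, h⟩

omit [DecidableEq T] in
lemma rs_lt {ρ : ℕ → ℕ → ℕ} {σ σ' : T → Option ℕ} {p : ℕ}
    (hr : ∀ a ∈ pos σ ∪ pos σ', ρ p a < p) {i : T ⊕ T} (h : lc σ σ' i ≠ none) :
    rs ρ (lc σ σ') p i < p := by
  obtain ⟨a, ha⟩ := Option.ne_none_iff_exists'.1 h
  unfold rs
  rw [ha, Option.getD_some]
  exact hr a (lc_pos ha)

lemma el_nc {ρ : ℕ → ℕ → ℕ} {σ σ' : T → Option ℕ} (hσ : Inj σ) (hσ' : Inj σ') {p : ℕ} (hp : 2 ≤ p)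
    (hr : ∀ a ∈ pos σ ∪ pos σ', ρ p a < p)
    (hnc : ∀ a ∈ pos σ ∪ pos σ', ∀ b ∈ pos σ ∪ pos σ', ρ p a = ρ p b → a = b)
    (c : Finset (T ⊕ T)) (hc : ∀ i ∈ c, lc σ σ' i ≠ none) (hG : c ∉ GD σ σ') :
    |el ρ (lc σ σ') p c| ≤ (1 + c.card) / ((p : ℝ) - 1) ^ 2 := by
  have hne : c.Nonempty := by
    rw [Finset.nonempty_iff_ne_empty]
    rintro rfl
    exact hG (Finset.mem_insert_self _ _)
  have hrc : ∀ i ∈ c, rs ρ (lc σ σ') p i < p := fun i hi => rs_lt hr (hc i hi)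
  -- equal residues give equal positions
  have hpos : ∀ i ∈ c, ∀ j ∈ c, rs ρ (lc σ σ') p i = rs ρ (lc σ σ') p j → lc σ σ' i = lc σ σ' j := by
    intro i hi j hj h
    obtain ⟨a, ha⟩ := Option.ne_none_iff_exists'.1 (hc i hi)
    obtain ⟨b, hb⟩ := Option.ne_none_iff_exists'.1 (hc j hj)
    unfold rs at h
    rw [ha, hb, Option.getD_some, Option.getD_some] at h
    rw [ha, hb, hnc a (lc_pos ha) b (lc_pos hb) h]
  have hcard := Finset.card_pos.2 hne
  obtain h | h | h : c.card = 1 ∨ c.card = 2 ∨ 3 ≤ c.card := by omega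
  · apply el_inj ρ _ p hp c hc hrc hne
    intro i hi j hj _
    obtain ⟨k, hk⟩ := Finset.card_eq_one.1 h
    rw [hk, Finset.mem_singleton] at hi hj
    rw [hi, hj]
  · apply el_inj ρ _ p hp c hc hrc hne
    intro i hi j hj hij
    by_contra hne2
    apply hG
    have h3 := hpos i hi j hj hij
    obtain ⟨a, ha⟩ := Option.ne_none_iff_exists'.1 (hc i hi)
    have hcij : c = {i, j} := by
      symm
      apply Finset.eq_of_subset_of_card_le
      · intro k hk
        rw [Finset.mem_insert, Finset.mem_singleton] at hk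
        rcases hk with rfl | rfl
        · exact hi
        · exact hj
      · rw [h, Finset.card_pair hne2]
    apply pair_mem hσ hσ' (a := a) c h
    intro k hk
    rw [hcij, Finset.mem_insert, Finset.mem_singleton] at hk
    rcases hk with rfl | rfl
    · exact ha
    · rw [← h3]; exact ha
  · apply el_two ρ _ p hp c hc hrc h
    intro x
    by_cases hx : (c.filter (fun i => rs ρ (lc σ σ') p i = x)).Nonempty
    · obtain ⟨i, hi⟩ := hx
      rw [Finset.mem_filter] at hi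
      obtain ⟨a, ha⟩ := Option.ne_none_iff_exists'.1 (hc i hi.1)
      apply fib_two hσ hσ' _ a
      intro j hj
      rw [Finset.mem_filter] at hj
      rw [← ha]
      exact hpos j hj.1 i hi.1 (by rw [hj.2, hi.2])
    · rw [Finset.not_nonempty_iff_eq_empty] at hx
      rw [hx, Finset.card_empty]
      omega

/-- diagonal sum at a prime -/
lemma diag_sum {ρ : ℕ → ℕ → ℕ} {σ σ' : T → Option ℕ} (hσ : Inj σ) (hσ' : Inj σ') {p : ℕ} (hp : 2 ≤ p)
    (hr : ∀ a ∈ pos σ ∪ pos σ', ρ p a < p) :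
    ∑ s ∈ (JJ σ σ').filter (· ∈ GD σ σ'), |el ρ (lc σ σ') p s| ≤
      (1 + 1 / ((p : ℝ) - 1)) ^ (pos σ ∩ pos σ').card := by
  have hp' : (2 : ℝ) ≤ p := by exact_mod_cast hp
  have hq0 : (0 : ℝ) < (p : ℝ) - 1 := by linarith
  have hnot : ∅ ∉ (pos σ ∩ pos σ').image (AA σ σ') := by
    rw [Finset.mem_image]
    rintro ⟨a, ha, h⟩
    have := AA_card hσ hσ' ha
    rw [h] at this
    simp at this
  calc ∑ s ∈ (JJ σ σ').filter (· ∈ GD σ σ'), |el ρ (lc σ σ') p s|
      ≤ ∑ s ∈ GD σ σ', |el ρ (lc σ σ') p s| := by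
        apply Finset.sum_le_sum_of_subset_of_nonneg
        · intro s hs
          exact (Finset.mem_filter.1 hs).2
        · intro s _ _
          exact abs_nonneg _
    _ = 1 + ∑ s ∈ (pos σ ∩ pos σ').image (AA σ σ'), |el ρ (lc σ σ') p s| := by
        unfold GD
        rw [Finset.sum_insert hnot, el_empty ρ _ p hp, abs_one]
    _ = 1 + ∑ s ∈ (pos σ ∩ pos σ').image (AA σ σ'), 1 / ((p : ℝ) - 1) := by
        congr 1
        apply Finset.sum_congr rfl
        intro s hs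
        rw [Finset.mem_image] at hs
        obtain ⟨a, ha, rfl⟩ := hs
        rw [el_pair ρ _ p hp (AA σ σ' a) a (fun i hi => (Finset.mem_filter.1 hi).2)
          (hr a (Finset.mem_union_left _ (Finset.mem_inter.1 ha).1)) (AA_card hσ hσ' ha)]
        rw [abs_of_pos (by positivity)]
    _ = 1 + (((pos σ ∩ pos σ').image (AA σ σ')).card : ℝ) * (1 / ((p : ℝ) - 1)) := by
        rw [Finset.sum_const, nsmul_eq_mul]
    _ ≤ 1 + ((pos σ ∩ pos σ').card : ℝ) * (1 / ((p : ℝ) - 1)) := by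
        have : (((pos σ ∩ pos σ').image (AA σ σ')).card : ℝ) ≤ ((pos σ ∩ pos σ').card : ℝ) := by
          exact_mod_cast Finset.card_image_le
        gcongr
    _ ≤ (1 + 1 / ((p : ℝ) - 1)) ^ (pos σ ∩ pos σ').card := by
        have h0 : (0 : ℝ) ≤ 1 / ((p : ℝ) - 1) := by positivity
        exact one_add_mul_le_pow (by linarith) _

lemma diag_one {ρ : ℕ → ℕ → ℕ} {σ σ' : T → Option ℕ} {p : ℕ} (hp : 2 ≤ p) :
    1 ≤ ∑ s ∈ (JJ σ σ').filter (· ∈ GD σ σ'), |el ρ (lc σ σ') p s| := by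
  have h1 : (∅ : Finset (T ⊕ T)) ∈ (JJ σ σ').filter (· ∈ GD σ σ') := by
    rw [Finset.mem_filter]
    exact ⟨Finset.empty_mem_powerset _, Finset.mem_insert_self _ _⟩
  calc (1 : ℝ) = |el ρ (lc σ σ') p ∅| := by rw [el_empty ρ _ p hp, abs_one]
    _ ≤ _ := Finset.single_le_sum (f := fun s => |el ρ (lc σ σ') p s|) (fun s _ => abs_nonneg _) h1

/-- collision predicate -/
def Coll (ρ : ℕ → ℕ → ℕ) (U : Finset ℕ) (p : ℕ) : Prop := ∃ a ∈ U, ∃ b ∈ U, a ≠ b ∧ ρ p a = ρ p b

open Classical in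
/-- nondiagonal sum at a prime -/
lemma off_sum {n : ℕ} (hn : Fintype.card T ≤ n) {ρ : ℕ → ℕ → ℕ} {σ σ' : T → Option ℕ}
    (hσ : Inj σ) (hσ' : Inj σ') {p : ℕ} (hp : 2 ≤ p) (hr : ∀ a ∈ pos σ ∪ pos σ', ρ p a < p) :
    ∑ s ∈ (JJ σ σ').filter (· ∉ GD σ σ'), |el ρ (lc σ σ') p s| ≤
      (4 ^ n * (1 + 2 * n)) * (1 / ((p : ℝ) - 1) ^ 2 +
        (if Coll ρ (pos σ ∪ pos σ') p then 1 / ((p : ℝ) - 1) else 0)) := by
  have hp' : (2 : ℝ) ≤ p := by exact_mod_cast hp
  have hq0 : (0 : ℝ) < (p : ℝ) - 1 := by linarith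
  have hcT : Fintype.card (T ⊕ T) ≤ 2 * n := by
    rw [Fintype.card_sum]; omega
  have hone : ∀ s ∈ (JJ σ σ').filter (· ∉ GD σ σ'), |el ρ (lc σ σ') p s| ≤
      (1 + 2 * n) * (1 / ((p : ℝ) - 1) ^ 2 +
        (if Coll ρ (pos σ ∪ pos σ') p then 1 / ((p : ℝ) - 1) else 0)) := by
    intro s hs
    rw [Finset.mem_filter] at hs
    obtain ⟨hsJ, hsG⟩ := hs
    have hc : ∀ i ∈ s, lc σ σ' i ≠ none := by
      intro i hi
      unfold JJ at hsJ
      rw [Finset.mem_powerset] at hsJ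
      exact (Finset.mem_filter.1 (hsJ hi)).2
    have hcard : (s.card : ℝ) ≤ 2 * n := by
      have : s.card ≤ 2 * n := (Finset.card_le_univ s).trans hcT
      exact_mod_cast this
    by_cases hcoll : Coll ρ (pos σ ∪ pos σ') p
    · rw [if_pos hcoll]
      have hne : s.Nonempty := by
        rw [Finset.nonempty_iff_ne_empty]
        rintro rfl
        exact hsG (Finset.mem_insert_self _ _)
      calc |el ρ (lc σ σ') p s| ≤ (1 + s.card) / ((p : ℝ) - 1) :=
            el_coll ρ _ p hp s hc (fun i hi => rs_lt hr (hc i hi)) hne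
        _ ≤ (1 + 2 * n) / ((p : ℝ) - 1) := by gcongr
        _ = (1 + 2 * n) * (0 + 1 / ((p : ℝ) - 1)) := by ring
        _ ≤ _ := by
          gcongr
          positivity
    · rw [if_neg hcoll, add_zero]
      have hnc : ∀ a ∈ pos σ ∪ pos σ', ∀ b ∈ pos σ ∪ pos σ', ρ p a = ρ p b → a = b := by
        intro a ha b hb h
        by_contra hab
        exact hcoll ⟨a, ha, b, hb, hab, h⟩
      calc |el ρ (lc σ σ') p s| ≤ (1 + s.card) / ((p : ℝ) - 1) ^ 2 :=
            el_nc hσ hσ' hp hr hnc s hc hsG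
        _ ≤ (1 + 2 * n) / ((p : ℝ) - 1) ^ 2 := by gcongr
        _ = (1 + 2 * n) * (1 / ((p : ℝ) - 1) ^ 2) := by ring
  have hcnt : (((JJ σ σ').filter (· ∉ GD σ σ')).card : ℝ) ≤ 4 ^ n := by
    have h1 : ((JJ σ σ').filter (· ∉ GD σ σ')).card ≤ 4 ^ n := by
      calc ((JJ σ σ').filter (· ∉ GD σ σ')).card ≤ Fintype.card (Finset (T ⊕ T)) :=
            Finset.card_le_univ _
        _ = 2 ^ Fintype.card (T ⊕ T) := Fintype.card_finset
        _ ≤ 2 ^ (2 * n) := Nat.pow_le_pow_right (by norm_num) hcT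
        _ = 4 ^ n := by rw [pow_mul]; norm_num
    exact_mod_cast h1
  have h0 : (0 : ℝ) ≤ (1 + 2 * n) * (1 / ((p : ℝ) - 1) ^ 2 +
        (if Coll ρ (pos σ ∪ pos σ') p then 1 / ((p : ℝ) - 1) else 0)) := by
    have : (0 : ℝ) ≤ (if Coll ρ (pos σ ∪ pos σ') p then 1 / ((p : ℝ) - 1) else 0) := by
      split_ifs
      · positivity
      · exact le_rfl
    positivity
  calc _ ≤ (((JJ σ σ').filter (· ∉ GD σ σ')).card : ℝ) * ((1 + 2 * n) * (1 / ((p : ℝ) - 1) ^ 2 +
        (if Coll ρ (pos σ ∪ pos σ') p then 1 / ((p : ℝ) - 1) else 0))) := by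
        rw [← nsmul_eq_mul]
        exact Finset.sum_le_card_nsmul _ _ _ hone
    _ ≤ 4 ^ n * ((1 + 2 * n) * (1 / ((p : ℝ) - 1) ^ 2 +
        (if Coll ρ (pos σ ∪ pos σ') p then 1 / ((p : ℝ) - 1) else 0))) := by gcongr
    _ = _ := by ring

/-- copies containing a prime -/
def cc (x : (T → Finset ℕ) × (T → Finset ℕ)) (p : ℕ) : Finset (T ⊕ T) :=
  univ.filter (fun i => p ∈ Sum.elim x.1 x.2 i)

omit [DecidableEq T] in
lemma mem_cc_inl {x : (T → Finset ℕ) × (T → Finset ℕ)} {p : ℕ} {τ : T} :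
    Sum.inl τ ∈ cc x p ↔ p ∈ x.1 τ := by
  unfold cc; simp

omit [DecidableEq T] in
lemma mem_cc_inr {x : (T → Finset ℕ) × (T → Finset ℕ)} {p : ℕ} {τ : T} :
    Sum.inr τ ∈ cc x p ↔ p ∈ x.2 τ := by
  unfold cc; simp

omit [DecidableEq T] in
/-- the term of a choice of divisors -/
lemma term_eq (ρ : ℕ → ℕ → ℕ) (P : Finset ℕ) (σ σ' : T → Option ℕ)
    (x : (T → Finset ℕ) × (T → Finset ℕ)) (h1 : ∀ τ, x.1 τ ⊆ P) (h2 : ∀ τ, x.2 τ ⊆ P) :
    (∏ τ, wt (x.1 τ)) * (∏ τ, wt (x.2 τ)) * ∏ p ∈ P, Ep ρ σ σ' x.1 x.2 p =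
      ∏ p ∈ P, el ρ (lc σ σ') p (cc x p) := by
  have e1 : (∏ τ, wt (x.1 τ)) * (∏ τ, wt (x.2 τ)) = ∏ i : T ⊕ T, wt (Sum.elim x.1 x.2 i) := by
    rw [Fintype.prod_sum_type]
    rfl
  rw [e1, prod_wt P (Sum.elim x.1 x.2) (by
    intro i
    cases i with
    | inl τ => exact h1 τ
    | inr τ => exact h2 τ), ← Finset.prod_mul_distrib]
  apply Finset.prod_congr rfl
  intro p _
  unfold el
  congr 1
  unfold Ep El
  congr 1
  apply Finset.sum_congr rfl
  intro y _
  unfold cc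
  rw [Finset.prod_filter, Finset.prod_filter, Finset.prod_filter, Fintype.prod_sum_type]
  rfl

lemma LS_eq (ρ : ℕ → ℕ → ℕ) (P : Finset ℕ) (S S' : T → Finset (Finset ℕ)) (σ σ' : T → Option ℕ)
    (h1 : ∀ τ, ∀ R ∈ S τ, R ⊆ P) (h2 : ∀ τ, ∀ R ∈ S' τ, R ⊆ P) :
    LS ρ P S S' σ σ' = ∑ x ∈ Fintype.piFinset S ×ˢ Fintype.piFinset S',
      ∏ p ∈ P, el ρ (lc σ σ') p (cc x p) := by
  unfold LS
  rw [Finset.sum_product]
  apply Finset.sum_congr rfl
  intro R hR
  apply Finset.sum_congr rfl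
  intro R' hR'
  rw [Fintype.mem_piFinset] at hR hR'
  exact term_eq ρ P σ σ' (R, R') (fun τ => h1 τ _ (hR τ)) (fun τ => h2 τ _ (hR' τ))

lemma del_eq (ρ : ℕ → ℕ → ℕ) (P U : Finset ℕ) [DecidablePred (Coll ρ U)] :
    del ρ P U = ∑ p ∈ P, (1 / ((p : ℝ) - 1) ^ 2 + (if Coll ρ U p then 1 / ((p : ℝ) - 1) else 0)) := by
  unfold del
  rw [Finset.sum_add_distrib, Finset.sum_filter]
  congr 1
  apply Finset.sum_congr rfl
  intro p _
  unfold Coll
  congr 1

/-- the bad part -/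
lemma bad_bound {n : ℕ} (hn : Fintype.card T ≤ n) (ρ : ℕ → ℕ → ℕ) (P : Finset ℕ)
    (S S' : T → Finset (Finset ℕ)) (σ σ' : T → Option ℕ) (hP : ∀ p ∈ P, p.Prime)
    (hs : Std ρ P S σ) (hs' : Std ρ P S' σ') :
    ∑ x ∈ (Fintype.piFinset S ×ˢ Fintype.piFinset S').filter (fun x => ¬ ∀ p ∈ P, cc x p ∈ GD σ σ'),
      ∏ p ∈ P, |el ρ (lc σ σ') p (cc x p)| ≤
      Pi1 P ^ (pos σ ∩ pos σ').card *
        (Real.exp ((4 ^ n * (1 + 2 * n)) * del ρ P (pos σ ∪ pos σ')) - 1) := by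
  classical
  obtain ⟨hσ, hnone, hSP, hρ⟩ := hs
  obtain ⟨hσ', hnone', hSP', hρ'⟩ := hs'
  have hr : ∀ p ∈ P, ∀ a ∈ pos σ ∪ pos σ', ρ p a < p := by
    intro p hp a ha
    rw [Finset.mem_union] at ha
    rcases ha with ha | ha
    · exact hρ p hp a ha
    · exact hρ' p hp a ha
  have key := inj_bound P (Fintype.piFinset S ×ˢ Fintype.piFinset S') cc (JJ σ σ') (GD σ σ') (by
      intro x hx y hy h
      rw [Finset.mem_product, Fintype.mem_piFinset, Fintype.mem_piFinset] at hx hy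
      apply Prod.ext
      · funext τ
        ext p
        constructor
        · intro hp
          have hpP : p ∈ P := hSP τ _ (hx.1 τ) hp
          rw [← mem_cc_inl, ← h p hpP, mem_cc_inl]
          exact hp
        · intro hp
          have hpP : p ∈ P := hSP τ _ (hy.1 τ) hp
          rw [← mem_cc_inl, h p hpP, mem_cc_inl]
          exact hp
      · funext τ
        ext p
        constructor
        · intro hp
          have hpP : p ∈ P := hSP' τ _ (hx.2 τ) hp
          rw [← mem_cc_inr, ← h p hpP, mem_cc_inr]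
          exact hp
        · intro hp
          have hpP : p ∈ P := hSP' τ _ (hy.2 τ) hp
          rw [← mem_cc_inr, h p hpP, mem_cc_inr]
          exact hp)
    (by
      intro x hx p _
      rw [Finset.mem_product, Fintype.mem_piFinset, Fintype.mem_piFinset] at hx
      unfold JJ
      rw [Finset.mem_powerset]
      intro i hi
      rw [Finset.mem_filter]
      refine ⟨Finset.mem_univ _, ?_⟩
      intro hl
      cases i with
      | inl τ =>
        rw [mem_cc_inl] at hi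
        have h3 := hx.1 τ
        rw [hnone τ hl, Finset.mem_singleton] at h3
        rw [h3] at hi
        simp at hi
      | inr τ =>
        rw [mem_cc_inr] at hi
        have h3 := hx.2 τ
        rw [hnone' τ hl, Finset.mem_singleton] at h3
        rw [h3] at hi
        simp at hi)
    (fun p s => |el ρ (lc σ σ') p s|) (fun p _ s => abs_nonneg _)
    (fun p hp => diag_one (hP p hp).two_le)
  refine key.trans ?_
  have hPi : ∏ p ∈ P, ∑ s ∈ (JJ σ σ').filter (· ∈ GD σ σ'), |el ρ (lc σ σ') p s| ≤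
      Pi1 P ^ (pos σ ∩ pos σ').card := by
    unfold Pi1
    rw [← Finset.prod_pow]
    apply Finset.prod_le_prod
    · intro p _
      exact Finset.sum_nonneg (fun s _ => abs_nonneg _)
    · intro p hp
      exact diag_sum hσ hσ' (hP p hp).two_le (hr p hp)
  have hO : ∑ p ∈ P, ∑ s ∈ (JJ σ σ').filter (· ∉ GD σ σ'), |el ρ (lc σ σ') p s| ≤
      (4 ^ n * (1 + 2 * n)) * del ρ P (pos σ ∪ pos σ') := by
    rw [del_eq, Finset.mul_sum]
    apply Finset.sum_le_sum
    intro p hp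
    exact off_sum hn hσ hσ' (hP p hp).two_le (hr p hp)
  have hO0 : 0 ≤ ∑ p ∈ P, ∑ s ∈ (JJ σ σ').filter (· ∉ GD σ σ'), |el ρ (lc σ σ') p s| :=
    Finset.sum_nonneg (fun p _ => Finset.sum_nonneg (fun s _ => abs_nonneg _))
  have hD0 : 0 ≤ ∏ p ∈ P, ∑ s ∈ (JJ σ σ').filter (· ∈ GD σ σ'), |el ρ (lc σ σ') p s| :=
    Finset.prod_nonneg (fun p _ => Finset.sum_nonneg (fun s _ => abs_nonneg _))
  have hexp := Real.exp_le_exp.2 hO
  have hexp0 := Real.one_le_exp hO0
  gcongr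
  · linarith

end Pair

/-! ### the disjoint families -/

section One

variable {T : Type} [Fintype T] [DecidableEq T]

/-- types containing a prime -/
def c1 (R : T → Finset ℕ) (p : ℕ) : Finset T := univ.filter (fun τ => p ∈ R τ)

/-- at most one type -/
def G1 (T : Type) [Fintype T] [DecidableEq T] : Finset (Finset T) := univ.filter (fun c => c.card ≤ 1)

lemma bad_bound2 {n : ℕ} (hn : Fintype.card T ≤ n) (ρ : ℕ → ℕ → ℕ) (P : Finset ℕ)
    (S : T → Finset (Finset ℕ)) (σ : T → Option ℕ) (hP : ∀ p ∈ P, p.Prime)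
    (hs : Std ρ P S σ) :
    ∑ R ∈ (Fintype.piFinset S).filter (fun R => ¬ ∀ p ∈ P, c1 R p ∈ G1 T),
      ∏ p ∈ P, (1 / ((p : ℝ) - 1)) ^ (c1 R p).card ≤
      Pi1 P ^ (pos σ ∩ pos σ).card * (Real.exp (2 ^ n * ∑ p ∈ P, 1 / ((p : ℝ) - 1) ^ 2) - 1) := by
  classical
  obtain ⟨hσ, hnone, hSP, hρ⟩ := hs
  have hq : ∀ p ∈ P, (1 : ℝ) ≤ (p : ℝ) - 1 := by
    intro p hp
    have : (2 : ℝ) ≤ p := by exact_mod_cast (hP p hp).two_le
    linarith
  set pr : Finset T := univ.filter (fun τ => σ τ ≠ none) with hpr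
  have hprcard : pr.card ≤ (pos σ ∩ pos σ).card := by
    rw [Finset.inter_self]
    apply Finset.card_le_card_of_injOn (fun τ => (σ τ).getD 0)
    · intro τ hτ
      rw [Finset.mem_coe, hpr, Finset.mem_filter] at hτ
      obtain ⟨a, ha⟩ := Option.ne_none_iff_exists'.1 hτ.2
      rw [Finset.mem_coe, mem_pos]
      refine ⟨τ, ?_⟩
      simp [ha]
    · intro τ hτ τ' hτ' h
      rw [Finset.mem_coe, hpr, Finset.mem_filter] at hτ hτ'
      obtain ⟨a, ha⟩ := Option.ne_none_iff_exists'.1 hτ.2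
      obtain ⟨b, hb⟩ := Option.ne_none_iff_exists'.1 hτ'.2
      simp only [ha, hb, Option.getD_some] at h
      exact hσ τ τ' a ha (by rw [hb, h])
  have key := inj_bound P (Fintype.piFinset S) c1 pr.powerset (G1 T) (by
      intro R hR R' hR' h
      rw [Fintype.mem_piFinset] at hR hR'
      funext τ
      ext p
      have hmem : ∀ Q : T → Finset ℕ, τ ∈ c1 Q p ↔ p ∈ Q τ := by
        intro Q; unfold c1; simp
      constructor
      · intro hp
        have hpP : p ∈ P := hSP τ _ (hR τ) hp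
        rw [← hmem, ← h p hpP, hmem]
        exact hp
      · intro hp
        have hpP : p ∈ P := hSP τ _ (hR' τ) hp
        rw [← hmem, h p hpP, hmem]
        exact hp)
    (by
      intro R hR p _
      rw [Fintype.mem_piFinset] at hR
      rw [Finset.mem_powerset]
      intro τ hτ
      unfold c1 at hτ
      rw [Finset.mem_filter] at hτ
      rw [hpr, Finset.mem_filter]
      refine ⟨Finset.mem_univ _, fun h => ?_⟩
      have h3 := hR τ
      rw [hnone τ h, Finset.mem_singleton] at h3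
      rw [h3] at hτ
      simp at hτ)
    (fun p s => (1 / ((p : ℝ) - 1)) ^ s.card)
    (fun p hp s => by
      have := hq p hp
      positivity)
    (fun p hp => by
      have hqp := hq p hp
      have h1 : (∅ : Finset T) ∈ pr.powerset.filter (· ∈ G1 T) := by
        rw [Finset.mem_filter]
        refine ⟨Finset.empty_mem_powerset _, ?_⟩
        unfold G1
        simp
      calc (1 : ℝ) = (1 / ((p : ℝ) - 1)) ^ (∅ : Finset T).card := by simp
        _ ≤ _ := Finset.single_le_sum (f := fun s : Finset T => (1 / ((p : ℝ) - 1)) ^ s.card)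
          (fun s _ => by positivity) h1)
  refine key.trans ?_
  have hPi : ∏ p ∈ P, ∑ s ∈ pr.powerset.filter (· ∈ G1 T), (1 / ((p : ℝ) - 1)) ^ s.card ≤
      Pi1 P ^ (pos σ ∩ pos σ).card := by
    unfold Pi1
    rw [← Finset.prod_pow]
    apply Finset.prod_le_prod
    · intro p hp
      have hqp := hq p hp
      exact Finset.sum_nonneg (fun s _ => by positivity)
    · intro p hp
      have hqp := hq p hp
      have h0 : (0 : ℝ) ≤ 1 / ((p : ℝ) - 1) := by positivity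
      calc ∑ s ∈ pr.powerset.filter (· ∈ G1 T), (1 / ((p : ℝ) - 1)) ^ s.card
          ≤ ∑ s ∈ pr.powerset, (1 / ((p : ℝ) - 1)) ^ s.card := by
            apply Finset.sum_le_sum_of_subset_of_nonneg (Finset.filter_subset _ _)
            intro s _ _
            positivity
        _ = (1 / ((p : ℝ) - 1) + 1) ^ pr.card := by
            rw [← Finset.sum_pow_mul_eq_add_pow]
            apply Finset.sum_congr rfl
            intro s _
            rw [one_pow, mul_one]
        _ ≤ (1 / ((p : ℝ) - 1) + 1) ^ (pos σ ∩ pos σ).card :=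
            pow_le_pow_right₀ (by linarith) hprcard
        _ = (1 + 1 / ((p : ℝ) - 1)) ^ (pos σ ∩ pos σ).card := by rw [add_comm]
  have hO : ∑ p ∈ P, ∑ s ∈ pr.powerset.filter (· ∉ G1 T), (1 / ((p : ℝ) - 1)) ^ s.card ≤
      2 ^ n * ∑ p ∈ P, 1 / ((p : ℝ) - 1) ^ 2 := by
    rw [Finset.mul_sum]
    apply Finset.sum_le_sum
    intro p hp
    have hqp := hq p hp
    have hone : ∀ s ∈ pr.powerset.filter (· ∉ G1 T), (1 / ((p : ℝ) - 1)) ^ s.card ≤
        1 / ((p : ℝ) - 1) ^ 2 := by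
      intro s hs
      rw [Finset.mem_filter] at hs
      have h2 : 2 ≤ s.card := by
        have := hs.2
        unfold G1 at this
        rw [Finset.mem_filter] at this
        by_contra h
        exact this ⟨Finset.mem_univ _, by omega⟩
      rw [one_div_pow]
      apply one_div_le_one_div_of_le (by positivity)
      exact pow_le_pow_right₀ hqp h2
    have hcnt : ((pr.powerset.filter (· ∉ G1 T)).card : ℝ) ≤ 2 ^ n := by
      have h1 : (pr.powerset.filter (· ∉ G1 T)).card ≤ 2 ^ n := by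
        calc (pr.powerset.filter (· ∉ G1 T)).card ≤ Fintype.card (Finset T) :=
              Finset.card_le_univ _
          _ = 2 ^ Fintype.card T := Fintype.card_finset
          _ ≤ 2 ^ n := Nat.pow_le_pow_right (by norm_num) hn
      exact_mod_cast h1
    calc _ ≤ ((pr.powerset.filter (· ∉ G1 T)).card : ℝ) * (1 / ((p : ℝ) - 1) ^ 2) := by
          rw [← nsmul_eq_mul]
          exact Finset.sum_le_card_nsmul _ _ _ hone
      _ ≤ 2 ^ n * (1 / ((p : ℝ) - 1) ^ 2) := by gcongr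
  have hO0 : 0 ≤ ∑ p ∈ P, ∑ s ∈ pr.powerset.filter (· ∉ G1 T), (1 / ((p : ℝ) - 1)) ^ s.card := by
    apply Finset.sum_nonneg
    intro p hp
    have hqp := hq p hp
    exact Finset.sum_nonneg (fun s _ => by positivity)
  have hD0 : 0 ≤ ∏ p ∈ P, ∑ s ∈ pr.powerset.filter (· ∈ G1 T), (1 / ((p : ℝ) - 1)) ^ s.card := by
    apply Finset.prod_nonneg
    intro p hp
    have hqp := hq p hp
    exact Finset.sum_nonneg (fun s _ => by positivity)
  have hexp := Real.exp_le_exp.2 hO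
  have hexp0 := Real.one_le_exp hO0
  gcongr
  · linarith

end One

/-! ### the theorem -/

/-- no good choice in the presence of a defect -/
lemma no_good {T : Type} [Fintype T] [DecidableEq T] (ρ : ℕ → ℕ → ℕ) (P : Finset ℕ)
    (S S' : T → Finset (Finset ℕ)) (σ σ' : T → Option ℕ)
    (hs : Std ρ P S σ) (hs' : Std ρ P S' σ') (hdef : Defect S S' σ σ') :
    ∀ x ∈ Fintype.piFinset S ×ˢ Fintype.piFinset S', ¬ ∀ p ∈ P, cc x p ∈ GD σ σ' := by
  intro x hx hgood
  rw [Finset.mem_product, Fintype.mem_piFinset, Fintype.mem_piFinset] at hx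
  obtain ⟨hσ, hnone, hSP, hρ⟩ := hs
  obtain ⟨hσ', hnone', hSP', hρ'⟩ := hs'
  -- structure of the copies of a prime
  have hst : ∀ p ∈ P, ∀ i ∈ cc x p, ∃ a ∈ pos σ ∩ pos σ', cc x p = AA σ σ' a ∧ lc σ σ' i = some a := by
    intro p hp i hi
    have h1 := hgood p hp
    unfold GD at h1
    rw [Finset.mem_insert, Finset.mem_image] at h1
    rcases h1 with h1 | ⟨a, ha, h1⟩
    · rw [h1] at hi; simp at hi
    · refine ⟨a, ha, h1.symm, ?_⟩
      rw [← h1] at hi
      exact (Finset.mem_filter.1 hi).2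
  rcases hdef with ⟨τ, a, h1, h2, h3⟩ | ⟨τ, a, h1, h2, h3⟩ | ⟨τ, τ', a, h1, h2, h3⟩
  · have hne : (x.1 τ).Nonempty := by
      rw [Finset.nonempty_iff_ne_empty]
      intro h
      apply h3
      rw [← h]
      exact hx.1 τ
    obtain ⟨p, hp⟩ := hne
    obtain ⟨b, hb, -, h4⟩ := hst p (hSP τ _ (hx.1 τ) hp) (Sum.inl τ) (mem_cc_inl.2 hp)
    have h5 : σ τ = some b := h4
    rw [h1, Option.some_inj] at h5
    subst h5
    exact h2 (Finset.mem_inter.1 hb).2
  · have hne : (x.2 τ).Nonempty := by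
      rw [Finset.nonempty_iff_ne_empty]
      intro h
      apply h3
      rw [← h]
      exact hx.2 τ
    obtain ⟨p, hp⟩ := hne
    obtain ⟨b, hb, -, h4⟩ := hst p (hSP' τ _ (hx.2 τ) hp) (Sum.inr τ) (mem_cc_inr.2 hp)
    have h5 : σ' τ = some b := h4
    rw [h1, Option.some_inj] at h5
    subst h5
    exact h2 (Finset.mem_inter.1 hb).1
  · have heq : x.1 τ = x.2 τ' := by
      ext p
      constructor
      · intro hp
        obtain ⟨b, hb, h5, h4⟩ := hst p (hSP τ _ (hx.1 τ) hp) (Sum.inl τ) (mem_cc_inl.2 hp)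
        have h6 : σ τ = some b := h4
        rw [h1, Option.some_inj] at h6
        subst h6
        rw [← mem_cc_inr, h5]
        unfold AA
        rw [Finset.mem_filter]
        exact ⟨Finset.mem_univ _, h2⟩
      · intro hp
        obtain ⟨b, hb, h5, h4⟩ := hst p (hSP' τ' _ (hx.2 τ') hp) (Sum.inr τ') (mem_cc_inr.2 hp)
        have h6 : σ' τ' = some b := h4
        rw [h2, Option.some_inj] at h6
        subst h6
        rw [← mem_cc_inl, h5]
        unfold AA
        rw [Finset.mem_filter]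
        exact ⟨Finset.mem_univ _, h1⟩
    have h6 := hx.1 τ
    have h7 := hx.2 τ'
    rw [← heq] at h7
    exact Finset.disjoint_left.1 h3 h6 h7

/-- the good choices when the two configurations agree -/
lemma good_eq {T : Type} [Fintype T] [DecidableEq T] (ρ : ℕ → ℕ → ℕ) (P : Finset ℕ)
    (S : T → Finset (Finset ℕ)) (σ : T → Option ℕ) (hP : ∀ p ∈ P, p.Prime)
    (hs : Std ρ P S σ) :
    ∑ x ∈ (Fintype.piFinset S ×ˢ Fintype.piFinset S).filter (fun x => ∀ p ∈ P, cc x p ∈ GD σ σ),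
      ∏ p ∈ P, el ρ (lc σ σ) p (cc x p) =
    ∑ R ∈ (Fintype.piFinset S).filter (fun R => ∀ p ∈ P, c1 R p ∈ G1 T),
      ∏ p ∈ P, (1 / ((p : ℝ) - 1)) ^ (c1 R p).card := by
  obtain ⟨hσ, hnone, hSP, hρ⟩ := hs
  have hpres : ∀ R ∈ Fintype.piFinset S, ∀ τ p, p ∈ R τ → ∃ a, σ τ = some a := by
    intro R hR τ p hp
    rw [Fintype.mem_piFinset] at hR
    by_contra h
    push Not at h
    have h1 : σ τ = none := by
      cases hh : σ τ with
      | none => rfl
      | some a => exact absurd hh (h a)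
    have h3 := hR τ
    rw [hnone τ h1, Finset.mem_singleton] at h3
    rw [h3] at hp
    simp at hp
  -- good implies equal
  have hgood : ∀ x ∈ (Fintype.piFinset S ×ˢ Fintype.piFinset S).filter
      (fun x => ∀ p ∈ P, cc x p ∈ GD σ σ), x.2 = x.1 ∧ ∀ p ∈ P, c1 x.1 p ∈ G1 T := by
    intro x hx
    rw [Finset.mem_filter, Finset.mem_product] at hx
    obtain ⟨⟨hx1, hx2⟩, hg⟩ := hx
    have hx1' := Fintype.mem_piFinset.1 hx1
    have hx2' := Fintype.mem_piFinset.1 hx2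
    have hst : ∀ p ∈ P, ∀ i ∈ cc x p, ∃ a ∈ pos σ ∩ pos σ, cc x p = AA σ σ a ∧ lc σ σ i = some a := by
      intro p hp i hi
      have h1 := hg p hp
      unfold GD at h1
      rw [Finset.mem_insert, Finset.mem_image] at h1
      rcases h1 with h1 | ⟨a, ha, h1⟩
      · rw [h1] at hi; simp at hi
      · refine ⟨a, ha, h1.symm, ?_⟩
        rw [← h1] at hi
        exact (Finset.mem_filter.1 hi).2
    constructor
    · funext τ
      ext p
      constructor
      · intro hp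
        obtain ⟨a, ha⟩ := hpres x.2 hx2 τ p hp
        obtain ⟨b, hb, h5, h4⟩ := hst p (hSP τ _ (hx2' τ) hp) (Sum.inr τ) (mem_cc_inr.2 hp)
        rw [← mem_cc_inl, h5]
        unfold AA
        rw [Finset.mem_filter]
        exact ⟨Finset.mem_univ _, h4⟩
      · intro hp
        obtain ⟨a, ha⟩ := hpres x.1 hx1 τ p hp
        obtain ⟨b, hb, h5, h4⟩ := hst p (hSP τ _ (hx1' τ) hp) (Sum.inl τ) (mem_cc_inl.2 hp)
        rw [← mem_cc_inr, h5]
        unfold AA
        rw [Finset.mem_filter]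
        exact ⟨Finset.mem_univ _, h4⟩
    · intro p hp
      unfold G1
      rw [Finset.mem_filter]
      refine ⟨Finset.mem_univ _, ?_⟩
      rw [Finset.card_le_one]
      intro τ hτ τ' hτ'
      unfold c1 at hτ hτ'
      rw [Finset.mem_filter] at hτ hτ'
      obtain ⟨b, hb, h5, h4⟩ := hst p hp (Sum.inl τ) (mem_cc_inl.2 hτ.2)
      have h6 : Sum.inl τ' ∈ cc x p := mem_cc_inl.2 hτ'.2
      rw [h5] at h6
      have h7 : lc σ σ (Sum.inl τ') = some b := (Finset.mem_filter.1 h6).2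
      exact hσ τ τ' b h4 h7
  -- copies of a doubled choice
  have hcc : ∀ R ∈ Fintype.piFinset S, (∀ p ∈ P, c1 R p ∈ G1 T) → ∀ p ∈ P,
      cc (R, R) p ∈ GD σ σ ∧ el ρ (lc σ σ) p (cc (R, R) p) = (1 / ((p : ℝ) - 1)) ^ (c1 R p).card := by
    intro R hR hPD p hp
    have h1 : (c1 R p).card ≤ 1 := by
      have := hPD p hp
      unfold G1 at this
      exact (Finset.mem_filter.1 this).2
    obtain h2 | h2 : (c1 R p).card = 0 ∨ (c1 R p).card = 1 := by omega
    · have h3 : cc (R, R) p = ∅ := by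
        rw [Finset.card_eq_zero] at h2
        rw [Finset.eq_empty_iff_forall_notMem]
        intro i hi
        cases i with
        | inl τ =>
          rw [mem_cc_inl] at hi
          have : τ ∈ c1 R p := by unfold c1; simpa using hi
          rw [h2] at this
          simp at this
        | inr τ =>
          rw [mem_cc_inr] at hi
          have : τ ∈ c1 R p := by unfold c1; simpa using hi
          rw [h2] at this
          simp at this
      rw [h3, h2, pow_zero, el_empty ρ _ p (hP p hp).two_le]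
      exact ⟨Finset.mem_insert_self _ _, rfl⟩
    · obtain ⟨τ, hτ⟩ := Finset.card_eq_one.1 h2
      have hτp : p ∈ R τ := by
        have : τ ∈ c1 R p := by rw [hτ]; simp
        unfold c1 at this
        exact (Finset.mem_filter.1 this).2
      obtain ⟨a, ha⟩ := hpres R hR τ p hτp
      have hapos : a ∈ pos σ ∩ pos σ := by
        rw [Finset.inter_self, mem_pos]
        exact ⟨τ, ha⟩
      have h3 : cc (R, R) p = AA σ σ a := by
        rw [AA_eq hσ hσ ha ha]
        ext i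
        rw [Finset.mem_insert, Finset.mem_singleton]
        have hmem : ∀ τ', p ∈ R τ' ↔ τ' = τ := by
          intro τ'
          have : τ' ∈ c1 R p ↔ τ' = τ := by rw [hτ]; simp
          rw [← this]
          unfold c1
          simp
        cases i with
        | inl τ' =>
          rw [mem_cc_inl]
          show p ∈ R τ' ↔ _
          rw [hmem]
          simp
        | inr τ' =>
          rw [mem_cc_inr]
          show p ∈ R τ' ↔ _
          rw [hmem]
          simp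
      have hap : ρ p a < p := hρ p hp a (Finset.mem_inter.1 hapos).1
      rw [h3, h2, pow_one, el_pair ρ _ p (hP p hp).two_le (AA σ σ a) a
        (fun i hi => (Finset.mem_filter.1 hi).2) hap (AA_card hσ hσ hapos)]
      refine ⟨?_, rfl⟩
      unfold GD
      rw [Finset.mem_insert, Finset.mem_image]
      exact Or.inr ⟨a, hapos, rfl⟩
  symm
  apply Finset.sum_nbij' (fun R => (R, R)) (fun x => x.1)
  · intro R hR
    rw [Finset.mem_filter] at hR
    rw [Finset.mem_filter, Finset.mem_product]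
    exact ⟨⟨hR.1, hR.1⟩, fun p hp => (hcc R hR.1 hR.2 p hp).1⟩
  · intro x hx
    have h1 := hgood x hx
    rw [Finset.mem_filter, Finset.mem_product] at hx
    rw [Finset.mem_filter]
    exact ⟨hx.1.1, h1.2⟩
  · intro R _
    rfl
  · intro x hx
    have h1 := hgood x hx
    exact Prod.ext rfl h1.1.symm
  · intro R hR
    rw [Finset.mem_filter] at hR
    apply Finset.prod_congr rfl
    intro p hp
    exact (hcc R hR.1 hR.2 p hp).2.symm

lemma GG_prod {T : Type} [Fintype T] [DecidableEq T] (P : Finset ℕ)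
    (S : T → Finset (Finset ℕ)) (hSP : ∀ τ, ∀ R ∈ S τ, R ⊆ P) :
    ∏ τ, GG (S τ) = ∑ R ∈ Fintype.piFinset S, ∏ p ∈ P, (1 / ((p : ℝ) - 1)) ^ (c1 R p).card := by
  unfold GG
  rw [Finset.prod_univ_sum]
  apply Finset.sum_congr rfl
  intro R hR
  rw [Fintype.mem_piFinset] at hR
  rw [prod_wt P R (fun τ => hSP τ _ (hR τ))]
  rfl

lemma del_nonneg (ρ : ℕ → ℕ → ℕ) (P U : Finset ℕ) (hP : ∀ p ∈ P, p.Prime) :
    ∑ p ∈ P, 1 / ((p : ℝ) - 1) ^ 2 ≤ del ρ P U := by
  unfold del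
  have : 0 ≤ ∑ p ∈ P.filter (fun p => ∃ a ∈ U, ∃ b ∈ U, a ≠ b ∧ ρ p a = ρ p b), 1 / ((p : ℝ) - 1) := by
    apply Finset.sum_nonneg
    intro p hp
    have h2 : (2 : ℝ) ≤ p := by exact_mod_cast (hP p (Finset.mem_filter.1 hp).1).two_le
    have : (0 : ℝ) < (p : ℝ) - 1 := by linarith
    positivity
  linarith

theorem localSum : LocalSum := by
  intro n
  refine ⟨2 * (4 ^ n * (1 + 2 * n)), by positivity, ?_⟩
  intro T _ _ hn P ρ S S' σ σ' hP hs hs'
  set K0 : ℝ := 4 ^ n * (1 + 2 * n) with hK0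
  have h4n : (1 : ℝ) ≤ 4 ^ n := one_le_pow₀ (by norm_num)
  have hn0 : (0 : ℝ) ≤ n := by positivity
  have hK1 : 1 ≤ K0 := by
    rw [hK0]
    nlinarith
  have hPi1 : 1 ≤ Pi1 P := by
    unfold Pi1
    apply Finset.one_le_prod
    intro p hp
    have h2 : (2 : ℝ) ≤ p := by exact_mod_cast (hP p hp).two_le
    have : (0 : ℝ) < (p : ℝ) - 1 := by linarith
    have : (0 : ℝ) ≤ 1 / ((p : ℝ) - 1) := by positivity
    linarith
  have hPd : 0 ≤ Pi1 P ^ (pos σ ∩ pos σ').card := by positivity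
  have hdel0 : 0 ≤ ∑ p ∈ P, 1 / ((p : ℝ) - 1) ^ 2 := Finset.sum_nonneg (fun p _ => by positivity)
  have hdel1 := del_nonneg ρ P (pos σ ∪ pos σ') hP
  have hdel : 0 ≤ del ρ P (pos σ ∪ pos σ') := hdel0.trans hdel1
  have hb := bad_bound hn ρ P S S' σ σ' hP hs hs'
  have hexp : Real.exp (K0 * del ρ P (pos σ ∪ pos σ')) ≤
      Real.exp ((2 * K0) * del ρ P (pos σ ∪ pos σ')) := by
    apply Real.exp_le_exp.2
    nlinarith
  have hexp1 : 1 ≤ Real.exp (K0 * del ρ P (pos σ ∪ pos σ')) := Real.one_le_exp (by positivity)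
  have hLS := LS_eq ρ P S S' σ σ' hs.2.2.1 hs'.2.2.1
  have hsplit := Finset.sum_filter_add_sum_filter_not
    (Fintype.piFinset S ×ˢ Fintype.piFinset S') (fun x => ∀ p ∈ P, cc x p ∈ GD σ σ')
    (fun x => ∏ p ∈ P, el ρ (lc σ σ') p (cc x p))
  have hbad : |∑ x ∈ (Fintype.piFinset S ×ˢ Fintype.piFinset S').filter
      (fun x => ¬ ∀ p ∈ P, cc x p ∈ GD σ σ'), ∏ p ∈ P, el ρ (lc σ σ') p (cc x p)| ≤
      Pi1 P ^ (pos σ ∩ pos σ').card * (Real.exp (K0 * del ρ P (pos σ ∪ pos σ')) - 1) := by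
    refine (Finset.abs_sum_le_sum_abs _ _).trans (le_trans (le_of_eq ?_) hb)
    apply Finset.sum_congr rfl
    intro x _
    rw [Finset.abs_prod]
  have hfinal : 2 * (Pi1 P ^ (pos σ ∩ pos σ').card * (Real.exp (K0 * del ρ P (pos σ ∪ pos σ')) - 1)) ≤
      2 * K0 * Pi1 P ^ (pos σ ∩ pos σ').card *
        (Real.exp (2 * K0 * del ρ P (pos σ ∪ pos σ')) - 1) := by
    have h1 : Pi1 P ^ (pos σ ∩ pos σ').card * (Real.exp (K0 * del ρ P (pos σ ∪ pos σ')) - 1) ≤
        Pi1 P ^ (pos σ ∩ pos σ').card * (Real.exp (2 * K0 * del ρ P (pos σ ∪ pos σ')) - 1) := by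
      gcongr
    have h2 : 0 ≤ Pi1 P ^ (pos σ ∩ pos σ').card *
        (Real.exp (2 * K0 * del ρ P (pos σ ∪ pos σ')) - 1) := by
      apply mul_nonneg hPd
      linarith
    nlinarith
  have hnn : 0 ≤ Pi1 P ^ (pos σ ∩ pos σ').card * (Real.exp (K0 * del ρ P (pos σ ∪ pos σ')) - 1) := by
    apply mul_nonneg hPd
    linarith
  constructor
  · intro hdef
    have hempty : (Fintype.piFinset S ×ˢ Fintype.piFinset S').filter
        (fun x => ∀ p ∈ P, cc x p ∈ GD σ σ') = ∅ := by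
      rw [Finset.filter_eq_empty_iff]
      exact no_good ρ P S S' σ σ' hs hs' hdef
    rw [hempty, Finset.sum_empty, zero_add] at hsplit
    rw [hLS, ← hsplit]
    linarith
  · intro h1 h2
    subst h1
    subst h2
    rw [hLS, ← hsplit, good_eq ρ P S σ hP hs, GG_prod P S hs.2.2.1,
      ← Finset.sum_filter_add_sum_filter_not (Fintype.piFinset S)
        (fun R => ∀ p ∈ P, c1 R p ∈ G1 T)
        (fun R => ∏ p ∈ P, (1 / ((p : ℝ) - 1)) ^ (c1 R p).card)]
    have hb2 := bad_bound2 hn ρ P S σ hP hs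
    have hb20 : 0 ≤ ∑ R ∈ (Fintype.piFinset S).filter (fun R => ¬ ∀ p ∈ P, c1 R p ∈ G1 T),
        ∏ p ∈ P, (1 / ((p : ℝ) - 1)) ^ (c1 R p).card := by
      apply Finset.sum_nonneg
      intro R _
      apply Finset.prod_nonneg
      intro p hp
      have h2 : (2 : ℝ) ≤ p := by exact_mod_cast (hP p hp).two_le
      have : (0 : ℝ) < (p : ℝ) - 1 := by linarith
      positivity
    have hexp2 : Real.exp (2 ^ n * ∑ p ∈ P, 1 / ((p : ℝ) - 1) ^ 2) ≤
        Real.exp (K0 * del ρ P (pos σ ∪ pos σ)) := by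
      apply Real.exp_le_exp.2
      have h24 : (2 : ℝ) ^ n ≤ K0 := by
        have : (2 : ℝ) ^ n ≤ 4 ^ n := pow_le_pow_left₀ (by norm_num) (by norm_num) n
        rw [hK0]
        nlinarith
      gcongr
    have hb3 : ∑ R ∈ (Fintype.piFinset S).filter (fun R => ¬ ∀ p ∈ P, c1 R p ∈ G1 T),
        ∏ p ∈ P, (1 / ((p : ℝ) - 1)) ^ (c1 R p).card ≤
        Pi1 P ^ (pos σ ∩ pos σ).card * (Real.exp (K0 * del ρ P (pos σ ∪ pos σ)) - 1) := by
      refine hb2.trans ?_
      gcongr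
    rw [abs_le] at hbad ⊢
    constructor
    · linarith [hbad.1, hbad.2]
    · linarith [hbad.1, hbad.2]

end Pool.Agent.H415R2.ACLocal
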