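import Pool.Agent.H415R2.KnightEval
import Pool.Agent.Helper848.AztecDet

namespace Pool.Agent.H415R2.Knight

open Polynomial Finset Pool.Agent.Helper848.AztecDet

theorem q_odd' (m k : ℕ) (hk : k < 2 * m) (ho : ¬ k % 2 = 0) : q m k = 0 := by
  have h := q_odd m (k / 2) (by omega)
  rwa [show 2 * (k / 2) + 1 = k from by omega] at h

theorem q_even' (m k : ℕ) (hk : k ≤ 2 * m) (he : k % 2 = 0) :
    (-1) ^ (m - k / 2) * (m.choose (k / 2) : ℚ) * q m k = u m (k / 2) := by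
  have h := q_even m (k / 2) (by omega)
  rwa [show 2 * (k / 2) = k from by omega] at h

theorem termE_q (m k : ℕ) (hk : k ≤ 2 * m) :
    gE m k * q m k = if k % 2 = 0 then (1 / 4) ^ m * u m (k / 2) else 0 := by
  unfold gE
  split_ifs with h
  · rw [← q_even' m k hk h]; ring
  · ring

theorem termE_q1 (m k : ℕ) (hk : k < 2 * m) : gE m k * q m (k + 1) = 0 := by
  by_cases h : k % 2 = 0
  · rw [q_odd' m (k + 1) (by omega) (by omega), mul_zero]
  · unfold gE
    rw [if_neg h, zero_mul]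

theorem termE_qm1 (m k : ℕ) (hk : k < 2 * m) : gE m (k + 1) * q m k = 0 := by
  by_cases h : k % 2 = 0
  · unfold gE
    rw [if_neg (by omega), zero_mul]
  · rw [q_odd' m k hk h, mul_zero]

theorem termE_q2 (m k : ℕ) (hk : k + 2 ≤ 2 * m) :
    gE m k * q m (k + 2) = if k % 2 = 0 then
      - ((1 / 4) ^ m * (((k / 2 : ℕ) + 1) / (m - (k / 2 : ℕ)) * u m (k / 2 + 1))) else 0 := by
  unfold gE
  split_ifs with h
  · have h1 := q_even' m (k + 2) hk (by omega)
    rw [show (k + 2) / 2 = k / 2 + 1 from by omega] at h1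
    have h2 := choose_succ_q m (k / 2) (by omega)
    rw [← h1]
    set j := k / 2 with hj
    have hjm : j < m := by omega
    have hjm' : (j : ℚ) + 1 ≤ m := by exact_mod_cast hjm
    have h5 : ((m : ℚ) - j) ≠ 0 := by intro hc; linarith
    have hsign : ((-1 : ℚ)) ^ (m - j) = - (-1) ^ (m - (j + 1)) := by
      rw [show m - j = (m - (j + 1)) + 1 from by omega, pow_succ]; ring
    rw [hsign]
    field_simp
    linear_combination (q m (k + 2)) * h2
  · ring

theorem termO_q (m k : ℕ) (hk : k ≤ 2 * m) :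
    gO m k * q m k = if k % 2 = 0 then 1 / 2 * (1 / 4) ^ m * u m (k / 2) else 0 := by
  unfold gO
  split_ifs with h
  · rw [← q_even' m k hk h]; ring
  · rw [q_odd' m k (by omega) h, mul_zero]

theorem termO_q1 (m k : ℕ) (hk : k ≤ 2 * m) :
    gO m (k + 1) * q m k = if k % 2 = 0 then 1 / 2 * (1 / 4) ^ m * u m (k / 2) else 0 := by
  unfold gO
  split_ifs with h
  · rw [show (k + 1) / 2 = k / 2 from by omega, ← q_even' m k hk h]; ring
  · rw [q_odd' m k (by omega) h, mul_zero]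

theorem termO_q2 (m k : ℕ) (hk : k < 2 * m) :
    gO m (k + 2) * q m k = if k % 2 = 0 then
      - (1 / 2 * (1 / 4) ^ m * ((m - (k / 2 : ℕ)) / ((k / 2 : ℕ) + 1) * u m (k / 2))) else 0 := by
  unfold gO
  split_ifs with h
  · rw [show (k + 2) / 2 = k / 2 + 1 from by omega, ← q_even' m k (by omega) h]
    have h2 := choose_succ_q m (k / 2) (by omega)
    set j := k / 2 with hj
    have hjm : j < m := by omega
    have h6 : ((j : ℚ) + 1) ≠ 0 := by positivity
    have hsign : ((-1 : ℚ)) ^ (m - j) = - (-1) ^ (m - (j + 1)) := by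
      rw [show m - j = (m - (j + 1)) + 1 from by omega, pow_succ]; ring
    rw [hsign]
    field_simp
    linear_combination (q m k) * h2
  · rw [q_odd' m k hk h, mul_zero]

section even

variable (m : ℕ)

theorem E_H1e2 (hm : 1 ≤ m) : (G (2 * m) (gE m) m (m + 1)).coeff (m - 1) =
    1 / 2 * (1 / 4) ^ m * ∑ j ∈ range ((m + 1) / 2), (((j : ℚ) + 1) / (m - j) * u m (j + 1)) := by
  unfold G
  rw [if_neg (by omega), show m + 1 - m = 1 from by omega, pow_one, neg_one_mul, coeff_neg,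
    finsetSum_coeff, ← sum_even_terms, mul_sum, ← sum_neg_distrib]
  refine sum_congr rfl fun k hk => ?_
  rw [mem_range] at hk
  rw [coeff_C_mul, show 2 * m - 1 - k - 1 = 2 * m - 1 - (k + 1) from by omega,
    a_eq m (k + 1) hm (by omega)]
  have h1 := termE_q2 m k (by omega)
  have h2 := termE_q1 m k (by omega)
  split_ifs with h
  · rw [if_pos h] at h1
    linear_combination (-1 / 2 : ℚ) * h1 + 1 / 2 * h2
  · rw [if_neg h] at h1
    linear_combination (-1 / 2 : ℚ) * h1 + 1 / 2 * h2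

theorem E_H1ee (hm : 1 ≤ m) : (G (2 * m) (gE m) m m).coeff (m - 1) =
    - (1 / 2 * (1 / 4) ^ m * S m ((m + 1) / 2)) := by
  unfold G S
  rw [if_neg (by omega), show m - m = 0 from by omega, pow_zero, one_mul,
    finsetSum_coeff, ← sum_even_terms, mul_sum, ← sum_neg_distrib]
  refine sum_congr rfl fun k hk => ?_
  rw [mem_range] at hk
  rw [coeff_C_mul, add_zero, Nat.sub_zero, a_eq m k hm (by omega)]
  have h1 := termE_q m k (by omega)
  have h2 := termE_q1 m k (by omega)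
  split_ifs with h
  · rw [if_pos h] at h1
    linear_combination (-1 / 2 : ℚ) * h1 + 1 / 2 * h2
  · rw [if_neg h] at h1
    linear_combination (-1 / 2 : ℚ) * h1 + 1 / 2 * h2

theorem E_H2e2 (hm : 1 ≤ m) : (G (2 * m) (gE m) (m + 1) (m + 1)).coeff (m - 1) =
    - (1 / 2 * (1 / 4) ^ m * S m (m / 2 + 1)) := by
  unfold G S
  rw [if_neg (by omega), show m + 1 - (m + 1) = 0 from by omega, pow_zero, one_mul,
    finsetSum_coeff, show m / 2 + 1 = (m + 1 + 1) / 2 from by omega, ← sum_even_terms, mul_sum,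
    ← sum_neg_distrib]
  refine sum_congr rfl fun k hk => ?_
  rw [mem_range] at hk
  rw [coeff_C_mul, add_zero, Nat.sub_zero, a_eq m k hm (by omega)]
  have h1 := termE_q m k (by omega)
  have h2 := termE_q1 m k (by omega)
  split_ifs with h
  · rw [if_pos h] at h1
    linear_combination (-1 / 2 : ℚ) * h1 + 1 / 2 * h2
  · rw [if_neg h] at h1
    linear_combination (-1 / 2 : ℚ) * h1 + 1 / 2 * h2

theorem E_H2ee (hm : 1 ≤ m) : (G (2 * m) (gE m) (m + 1) m).coeff (m - 1) =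
    1 / 2 * (1 / 4) ^ m * (4 ^ m - S m (m / 2 + 1)) := by
  unfold G
  rw [if_pos (by omega), show m + 1 - 1 - m = 0 from by omega, pow_zero, one_mul,
    finsetSum_coeff]
  have h0 : ∀ N, N ≤ 2 * m + 1 → ∑ k ∈ range N, (if k % 2 = 0 then (1 / 2 * (1 / 4) ^ m * u m (k / 2)) else 0) =
      1 / 2 * (1 / 4) ^ m * S m ((N + 1) / 2) := by
    intro N _
    rw [sum_even_terms (fun j => 1 / 2 * (1 / 4) ^ m * u m j), ← mul_sum]; rfl
  have h3 : ∑ k ∈ Ico (m + 1) (2 * m + 1),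
      (if k % 2 = 0 then (1 / 2 * (1 / 4) ^ m * u m (k / 2)) else 0) =
      1 / 2 * (1 / 4) ^ m * (4 ^ m - S m (m / 2 + 1)) := by
    have h4 := sum_range_add_sum_Ico
      (fun k => (if k % 2 = 0 then (1 / 2 * (1 / 4) ^ m * u m (k / 2)) else 0)) (by omega : m + 1 ≤ 2 * m + 1)
    rw [h0 _ (by omega), h0 _ (by omega), show (2 * m + 1 + 1) / 2 = m + 1 from by omega,
      S_full, show (m + 1 + 1) / 2 = m / 2 + 1 from by omega] at h4
    linear_combination h4
  rw [← h3]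
  refine sum_congr rfl fun k hk => ?_
  rw [mem_Ico] at hk
  obtain ⟨k, rfl⟩ : ∃ k', k = k' + 1 := ⟨k - 1, by omega⟩
  rw [coeff_C_mul, show k + 1 + m - (m + 1) = k from by omega,
    show 2 * m + (m + 1) - 1 - m - (k + 1) = 2 * m - 1 - k from by omega, a_eq m k hm (by omega)]
  have h1 := termE_q m (k + 1) (by omega)
  have h2 := termE_qm1 m k (by omega)
  split_ifs with h
  · rw [if_pos h] at h1
    linear_combination (1 / 2 : ℚ) * h1 - 1 / 2 * h2
  · rw [if_neg h] at h1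
    linear_combination (1 / 2 : ℚ) * h1 - 1 / 2 * h2

/-- the key value, even case -/
theorem E_val (hm : 1 ≤ m) :
    (G (2 * m) (gE m) m (m + 1)).coeff (m - 1) *
      (1 - 2 * (G (2 * m) (gE m) (m + 1) m).coeff (m - 1)) +
      2 * ((G (2 * m) (gE m) (m + 1) (m + 1)).coeff (m - 1) *
        (G (2 * m) (gE m) m m).coeff (m - 1)) =
    ((1 / 4) ^ m * S m (m / 2 + 1)) * ((1 / 4) ^ m * ((((m + 1) / 2 : ℕ) : ℚ) * u m ((m + 1) / 2))) := by
  rw [E_H1e2 m hm, E_H2ee m hm, E_H2e2 m hm, E_H1ee m hm]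
  have h1 := tele_even m ((m + 1) / 2) (by omega)
  rw [sum_add_distrib] at h1
  have h2 : S m ((m + 1) / 2) = ∑ j ∈ range ((m + 1) / 2), u m j := rfl
  have h3 := S_refl m (m / 2 + 1) (by omega)
  rw [show m + 1 - (m / 2 + 1) = (m + 1) / 2 from by omega] at h3
  have h4 : (1 / 4 : ℚ) ^ m * 4 ^ m = 1 := by rw [← mul_pow]; norm_num
  set R := ∑ j ∈ range ((m + 1) / 2), (((j : ℚ) + 1) / (m - j) * u m (j + 1)) with hR
  rw [← h2] at h1
  set a := S m ((m + 1) / 2)
  set b := S m (m / 2 + 1)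
  set v : ℚ := (((m + 1) / 2 : ℕ) : ℚ) * u m ((m + 1) / 2)
  set w : ℚ := (1 / 4) ^ m
  have h5 : (2 * v : ℚ) = a + R := by
    rw [h1]; ring
  have h6 : (4 : ℚ) ^ m = b + a := h3.symm
  rw [h6] at h4 ⊢
  linear_combination (-1 / 2 * w * w * b) * h5 - (1 / 2 * w * R) * h4

end even

section odd

variable (m : ℕ)

theorem O_H1e2 (hm : 1 ≤ m) : (G (2 * m + 1) (gO m) (m + 2) m).coeff m =
    1 / 2 * (1 / 4) ^ m * ∑ j ∈ Ico ((m + 1) / 2) (m + 1), (((m : ℚ) - j) / (j + 1) * u m j) := by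
  unfold G
  rw [if_pos (by omega), show m + 2 - 1 - m = 1 from by omega, pow_one, neg_one_mul, coeff_neg,
    finsetSum_coeff]
  have h0 : ∀ N, ∑ k ∈ range N, (if k % 2 = 0 then
      (1 / 2 * (1 / 4) ^ m * ((m - (k / 2 : ℕ)) / ((k / 2 : ℕ) + 1) * u m (k / 2))) else 0) =
      ∑ j ∈ range ((N + 1) / 2), 1 / 2 * (1 / 4) ^ m * ((m - j) / (j + 1) * u m j) := by
    intro N
    rw [sum_even_terms (fun j : ℕ => 1 / 2 * (1 / 4) ^ m * (((m : ℚ) - j) / (j + 1) * u m j))]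
  have h3 : ∑ k ∈ Ico m (2 * m), (if k % 2 = 0 then
      (1 / 2 * (1 / 4) ^ m * ((m - (k / 2 : ℕ)) / ((k / 2 : ℕ) + 1) * u m (k / 2))) else 0) =
      1 / 2 * (1 / 4) ^ m * ∑ j ∈ Ico ((m + 1) / 2) (m + 1), (((m : ℚ) - j) / (j + 1) * u m j) := by
    have h4 := sum_range_add_sum_Ico
      (fun k => (if k % 2 = 0 then
      (1 / 2 * (1 / 4) ^ m * ((m - (k / 2 : ℕ)) / ((k / 2 : ℕ) + 1) * u m (k / 2))) else 0))
      (by omega : m ≤ 2 * m)
    rw [h0, h0, show (2 * m + 1) / 2 = m from by omega] at h4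
    have h5 := sum_range_add_sum_Ico
      (fun j : ℕ => 1 / 2 * (1 / 4) ^ m * (((m : ℚ) - j) / (j + 1) * u m j))
      (by omega : (m + 1) / 2 ≤ m + 1)
    rw [sum_range_succ] at h5
    rw [mul_sum]
    have h6 : (1 / 2 * (1 / 4) ^ m * (((m : ℚ) - m) / (m + 1) * u m m)) = 0 := by
      rw [sub_self]; ring
    rw [h6] at h5
    linear_combination h4 - h5
  rw [← h3, ← sum_neg_distrib, show 2 * m + 1 + 1 = 2 * m + 2 from by ring,
    ← sum_Ico_add' (fun k => -((C (gO m k) * ((1 + X) ^ (k + m - (m + 2)) *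
      (1 - X) ^ (2 * m + 1 + (m + 2) - 1 - m - k)) : ℚ[X]).coeff m)) m (2 * m) 2]
  refine sum_congr rfl fun k hk => ?_
  rw [mem_Ico] at hk
  rw [coeff_C_mul, show k + 2 + m - (m + 2) = k from by omega,
    show 2 * m + 1 + (m + 2) - 1 - m - (k + 2) = 2 * m - k from by omega]
  have h1 := termO_q2 m k (by omega)
  rw [show ((1 + X) ^ k * (1 - X) ^ (2 * m - k) : ℚ[X]).coeff m = q m k from rfl]
  split_ifs with h
  · rw [if_pos h] at h1
    linear_combination (-1 : ℚ) * h1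
  · rw [if_neg h] at h1
    linear_combination (-1 : ℚ) * h1

theorem sumO0 (N : ℕ) : ∑ k ∈ range N, (if k % 2 = 0 then (1 / 2 * (1 / 4) ^ m * u m (k / 2)) else 0) =
      1 / 2 * (1 / 4) ^ m * S m ((N + 1) / 2) := by
  rw [sum_even_terms (fun j => 1 / 2 * (1 / 4) ^ m * u m j), ← mul_sum]; rfl

theorem O_H1ee (hm : 1 ≤ m) : (G (2 * m + 1) (gO m) (m + 2) (m + 1)).coeff m =
    1 / 2 * (1 / 4) ^ m * (4 ^ m - S m (m / 2 + 1)) := by
  unfold G
  rw [if_pos (by omega), show m + 2 - 1 - (m + 1) = 0 from by omega, pow_zero, one_mul,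
    finsetSum_coeff]
  have h3 : ∑ k ∈ Ico (m + 1) (2 * m + 1),
      (if k % 2 = 0 then (1 / 2 * (1 / 4) ^ m * u m (k / 2)) else 0) =
      1 / 2 * (1 / 4) ^ m * (4 ^ m - S m (m / 2 + 1)) := by
    have h4 := sum_range_add_sum_Ico
      (fun k => (if k % 2 = 0 then (1 / 2 * (1 / 4) ^ m * u m (k / 2)) else 0)) (by omega : m + 1 ≤ 2 * m + 1)
    rw [sumO0, sumO0, show (2 * m + 1 + 1) / 2 = m + 1 from by omega,
      S_full, show (m + 1 + 1) / 2 = m / 2 + 1 from by omega] at h4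
    linear_combination h4
  rw [← h3, show Ico (m + 2) (2 * m + 1 + 1) = Ico (m + 1 + 1) (2 * m + 1 + 1) from rfl,
    ← sum_Ico_add' (fun k => ((C (gO m k) * ((1 + X) ^ (k + (m + 1) - (m + 2)) *
      (1 - X) ^ (2 * m + 1 + (m + 2) - 1 - (m + 1) - k)) : ℚ[X]).coeff m)) (m + 1) (2 * m + 1) 1]
  refine sum_congr rfl fun k hk => ?_
  rw [mem_Ico] at hk
  rw [coeff_C_mul, show k + 1 + (m + 1) - (m + 2) = k from by omega,
    show 2 * m + 1 + (m + 2) - 1 - (m + 1) - (k + 1) = 2 * m - k from by omega,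
    ← termO_q1 m k (by omega)]
  rfl

theorem O_H2ee (hm : 1 ≤ m) : (G (2 * m + 1) (gO m) (m + 1) (m + 1)).coeff m =
    1 / 2 * (1 / 4) ^ m * S m (m / 2 + 1) := by
  unfold G
  rw [if_neg (by omega), show m + 1 - (m + 1) = 0 from by omega, pow_zero, one_mul,
    finsetSum_coeff, show m / 2 + 1 = (m + 1 + 1) / 2 from by omega, ← sumO0]
  refine sum_congr rfl fun k hk => ?_
  rw [mem_range] at hk
  rw [coeff_C_mul, add_zero, Nat.sub_zero, ← termO_q m k (by omega),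
    show 2 * m + 1 - 1 - k = 2 * m - k from by omega]
  rfl

theorem O_H2e2 (hm : 1 ≤ m) : (G (2 * m + 1) (gO m) (m + 1) m).coeff m =
    1 / 2 * (1 / 4) ^ m * S m (m / 2 + 1) := by
  unfold G
  rw [if_pos (by omega), show m + 1 - 1 - m = 0 from by omega, pow_zero, one_mul,
    finsetSum_coeff]
  have h3 : ∑ k ∈ Ico m (2 * m + 1),
      (if k % 2 = 0 then (1 / 2 * (1 / 4) ^ m * u m (k / 2)) else 0) =
      1 / 2 * (1 / 4) ^ m * S m (m / 2 + 1) := by
    have h4 := sum_range_add_sum_Ico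
      (fun k => (if k % 2 = 0 then (1 / 2 * (1 / 4) ^ m * u m (k / 2)) else 0)) (by omega : m ≤ 2 * m + 1)
    have h5 := S_refl m (m / 2 + 1) (by omega)
    rw [show m + 1 - (m / 2 + 1) = (m + 1) / 2 from by omega] at h5
    rw [sumO0, sumO0, show (2 * m + 1 + 1) / 2 = m + 1 from by omega,
      S_full] at h4
    linear_combination h4 - (1 / 2 * (1 / 4) ^ m) * h5
  rw [← h3,
    ← sum_Ico_add' (fun k => ((C (gO m k) * ((1 + X) ^ (k + m - (m + 1)) *
      (1 - X) ^ (2 * m + 1 + (m + 1) - 1 - m - k)) : ℚ[X]).coeff m)) m (2 * m + 1) 1]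
  refine sum_congr rfl fun k hk => ?_
  rw [mem_Ico] at hk
  rw [coeff_C_mul, show k + 1 + m - (m + 1) = k from by omega,
    show 2 * m + 1 + (m + 1) - 1 - m - (k + 1) = 2 * m - k from by omega,
    ← termO_q1 m k (by omega)]
  rfl

/-- the key value, odd case -/
theorem O_val (hm : 1 ≤ m) :
    (G (2 * m + 1) (gO m) (m + 2) m).coeff m *
      (1 - 2 * (G (2 * m + 1) (gO m) (m + 1) (m + 1)).coeff m) +
      2 * ((G (2 * m + 1) (gO m) (m + 1) m).coeff m *
        (G (2 * m + 1) (gO m) (m + 2) (m + 1)).coeff m) =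
    ((1 / 4) ^ m * S m ((m + 1) / 2)) * ((1 / 4) ^ (m + 1) *
      ((((m + 1 - (m + 1) / 2 : ℕ) : ℚ) * (Nat.centralBinom ((m + 1) / 2) : ℚ) *
        (Nat.centralBinom (m + 1 - (m + 1) / 2) : ℚ)))) := by
  rw [O_H1e2 m hm, O_H1ee m hm, O_H2ee m hm, O_H2e2 m hm]
  have h1 := tele_odd m ((m + 1) / 2) (by omega)
  rw [sum_add_distrib, sum_Ico_u _ _ (by omega)] at h1
  have h3 := S_refl m (m / 2 + 1) (by omega)
  rw [show m + 1 - (m / 2 + 1) = (m + 1) / 2 from by omega] at h3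
  have h4 : (1 / 4 : ℚ) ^ m * 4 ^ m = 1 := by rw [← mul_pow]; norm_num
  have hc : ((m + 1 - (m + 1) / 2 : ℕ) : ℚ) = m + 1 - ((m + 1) / 2 : ℕ) := by
    rw [Nat.cast_sub (by omega)]; push_cast; ring
  rw [hc, pow_succ (1 / 4 : ℚ) m]
  set R := ∑ j ∈ Ico ((m + 1) / 2) (m + 1), (((m : ℚ) - j) / (j + 1) * u m j) with hR
  set a := S m ((m + 1) / 2)
  set b := S m (m / 2 + 1)
  set w : ℚ := (1 / 4) ^ m
  set v : ℚ := (m + 1 - ((m + 1) / 2 : ℕ)) * (Nat.centralBinom ((m + 1) / 2) : ℚ) *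
        (Nat.centralBinom (m + 1 - (m + 1) / 2) : ℚ)
  have h6 : (4 : ℚ) ^ m = b + a := h3.symm
  rw [h6] at h4 h1 ⊢
  have h5 : b + R = v / 2 := by linear_combination h1
  linear_combination (1 / 2 * w * w * a) * h5 - (1 / 2 * w * R) * h4

end odd

end Pool.Agent.H415R2.Knight
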