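import Pool.Agent.H415R2.KnightGauge
import Pool.Agent.H415R2.KnightVals

namespace Pool.Agent.H415R2.Knight

open Pool.Agent.Helper848 Pool.Agent.Helper848.AztecDet Finset

theorem cO_range (n : ℕ) (p : ℤ × ℤ) : (∃ o, cO n o = p) ↔ p ∈ aztec n ∧ (p.1 + p.2 + n) % 2 = 0 := by
  rw [mem_aztec]
  constructor
  · rintro ⟨⟨⟨s, hs⟩, ⟨t, ht⟩⟩, rfl⟩
    unfold cO
    simp only
    omega
  · intro h
    refine ⟨(⟨((p.1 + p.2 + n) / 2).toNat, by omega⟩, ⟨((p.1 - p.2 + n) / 2).toNat, by omega⟩), ?_⟩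
    unfold cO
    ext <;> simp only <;> omega

theorem cE_range (n : ℕ) (p : ℤ × ℤ) : (∃ x, cE n x = p) ↔ p ∈ aztec n ∧ (p.1 + p.2 + n) % 2 = 1 := by
  rw [mem_aztec]
  constructor
  · rintro ⟨⟨⟨s, hs⟩, ⟨t, ht⟩⟩, rfl⟩
    unfold cE
    simp only
    omega
  · intro h
    refine ⟨(⟨((p.1 + p.2 + 1 + n) / 2).toNat, by omega⟩, ⟨((p.1 - p.2 + n) / 2).toNat, by omega⟩), ?_⟩
    unfold cE
    ext <;> simp only <;> omega

theorem range_ne {α β : Type*} (c : α → β) (hc : Function.Injective c) (a : α) (p : β) :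
    (∃ i : {x : α // x ≠ a}, c i = p) ↔ (∃ x, c x = p) ∧ p ≠ c a := by
  constructor
  · rintro ⟨⟨x, hx⟩, rfl⟩
    exact ⟨⟨x, rfl⟩, fun h => hx (hc h)⟩
  · rintro ⟨⟨x, rfl⟩, h⟩
    exact ⟨⟨x, fun hx => h (by rw [hx])⟩, rfl⟩

theorem card_EO (n : ℕ) : Fintype.card (E n) = Fintype.card (O n) := by
  rw [Fintype.card_prod, Fintype.card_prod, Fintype.card_fin, Fintype.card_fin, mul_comm]

/-- existence of the index bijection -/
theorem exists_phi (n : ℕ) (e2 : E n) (o1 : O n) :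
    Nonempty ({x : E n // x ≠ e2} ≃ {o : O n // o ≠ o1}) := by
  refine ⟨Fintype.equivOfCardEq ?_⟩
  rw [Fintype.card_subtype_compl, Fintype.card_subtype_compl, card_EO]
  simp

theorem natAbs_det_cast {ι : Type*} [Fintype ι] [DecidableEq ι] (M : Matrix ι ι ℤ)
    (N : Matrix ι ι ℚ) (h : ∀ i j, ((M i j : ℤ) : ℚ) = N i j) :
    ((M.det.natAbs : ℕ) : ℚ) = |N.det| := by
  have h1 : N = M.map (fun x : ℤ => (x : ℚ)) := by
    ext i j; rw [Matrix.map_apply, h]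
  rw [h1, ← Int.cast_det, Nat.cast_natAbs, Int.cast_abs]

theorem count_even (m : ℕ) (hm : 1 ≤ m) (e2 ee : E (2 * m)) (o1 oe : O (2 * m))
    (h2a : (e2.1 : ℕ) = m + 1) (h2b : (e2.2 : ℕ) + 1 = m) (hea : (ee.1 : ℕ) = m)
    (heb : (ee.2 : ℕ) + 1 = m) (h1a : (o1.1 : ℕ) + 1 = m) (h1b : (o1.2 : ℕ) = m)
    (hoa : (oe.1 : ℕ) = m) (hob : (oe.2 : ℕ) = m)
    (φ : {x : E (2 * m) // x ≠ e2} ≃ {o : O (2 * m) // o ≠ o1}) :
    (numTilings (knightRegion (2 * m)) : ℚ) =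
      |(Matrix.of fun i j : {x : E (2 * m) // x ≠ e2} =>
        if (φ i : O (2 * m)) = oe ∧ (j : E (2 * m)) = ee then -1 else K0 (2 * m) (φ i) j).det| := by
  classical
  have hoe : ∀ o : O (2 * m), o = oe ↔ ((o.1 : ℕ) = m ∧ (o.2 : ℕ) = m) := by
    intro o
    rw [Prod.ext_iff, Fin.ext_iff, Fin.ext_iff, hoa, hob]
  have hee : ∀ x : E (2 * m), x = ee ↔ ((x.1 : ℕ) = m ∧ (x.2 : ℕ) + 1 = m) := by
    intro x
    rw [Prod.ext_iff, Fin.ext_iff, Fin.ext_iff]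
    omega
  have ho1 : ∀ o : O (2 * m), o ≠ o1 → ¬ ((o.1 : ℕ) + 1 = m ∧ (o.2 : ℕ) = m) := by
    intro o h hc
    apply h
    rw [Prod.ext_iff, Fin.ext_iff, Fin.ext_iff]
    omega
  have he2 : ∀ x : E (2 * m), x ≠ e2 → ¬ ((x.1 : ℕ) = m + 1 ∧ (x.2 : ℕ) + 1 = m) := by
    intro o h hc
    apply h
    rw [Prod.ext_iff, Fin.ext_iff, Fin.ext_iff]
    omega
  let M : Matrix {x : E (2 * m) // x ≠ e2} {x : E (2 * m) // x ≠ e2} ℤ :=
    Matrix.of fun i j => if (φ j : O (2 * m)) = oe ∧ (i : E (2 * m)) = ee then -1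
      else K0Z (2 * m) (φ j) i
  have hcount := numTilings_eq 0 (knightRegion (2 * m))
    (fun j : {x : E (2 * m) // x ≠ e2} => cO (2 * m) (φ j)) (fun i => cE (2 * m) i)
    (fun a b h => φ.injective (Subtype.ext (cO_inj _ h)))
    (fun a b h => Subtype.ext (cE_inj _ h))
    (by
      intro p
      have h1 : (∃ i : {x : E (2 * m) // x ≠ e2}, cO (2 * m) (φ i) = p) ↔
          (∃ o : {o : O (2 * m) // o ≠ o1}, cO (2 * m) o = p) :=
        ⟨fun ⟨i, hi⟩ => ⟨φ i, hi⟩, fun ⟨o, ho⟩ => ⟨φ.symm o, by simpa using ho⟩⟩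
      rw [h1, range_ne _ (cO_inj _), cO_range, mem_aztec, mem_knight, Int.even_iff]
      have h2 : cO (2 * m) o1 = (-1, -1) := by
        unfold cO
        ext <;> simp only <;> push_cast <;> omega
      rw [h2, ne_eq, Prod.ext_iff]
      simp only
      push_cast
      omega)
    (by
      intro p
      rw [range_ne _ (cE_inj _), cE_range, mem_aztec, mem_knight, Int.even_iff]
      have h2 : cE (2 * m) e2 = (0, 1) := by
        unfold cE
        ext <;> simp only <;> push_cast <;> omega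
      rw [h2, ne_eq, Prod.ext_iff]
      simp only
      push_cast
      omega)
    (fun i => gu (i.1.2 + if m ≤ (i.1.2 : ℕ) then 1 else 0))
    (fun j => gu ((φ j).1.2 + if m ≤ ((φ j).1.2 : ℕ) then 1 else 0)) M
    (by
      intro i j
      rw [← gauge_even m hm (φ j) i (ho1 _ (φ j).2) (he2 _ i.2)]
      simp only [M, Matrix.of_apply, hoe, hee])
  rw [hcount, natAbs_det_cast M (Matrix.transpose (Matrix.of fun i j : {x : E (2 * m) // x ≠ e2} =>
        if (φ i : O (2 * m)) = oe ∧ (j : E (2 * m)) = ee then -1 else K0 (2 * m) (φ i) j)),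
    Matrix.det_transpose]
  intro i j
  simp only [M, Matrix.of_apply, Matrix.transpose_apply]
  split_ifs
  · norm_num
  · exact K0Z_cast _ _ _

theorem count_odd (m : ℕ) (hm : 1 ≤ m) (e2 ee : E (2 * m + 1)) (o1 oe : O (2 * m + 1))
    (h2a : (e2.1 : ℕ) = m) (h2b : (e2.2 : ℕ) = m) (hea : (ee.1 : ℕ) = m + 1)
    (heb : (ee.2 : ℕ) = m) (h1a : (o1.1 : ℕ) = m + 1) (h1b : (o1.2 : ℕ) = m)
    (hoa : (oe.1 : ℕ) = m) (hob : (oe.2 : ℕ) = m)
    (φ : {x : E (2 * m + 1) // x ≠ e2} ≃ {o : O (2 * m + 1) // o ≠ o1}) :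
    (numTilings (knightRegion (2 * m + 1)) : ℚ) =
      |(Matrix.of fun i j : {x : E (2 * m + 1) // x ≠ e2} =>
        if (φ i : O (2 * m + 1)) = oe ∧ (j : E (2 * m + 1)) = ee then -1
          else K0 (2 * m + 1) (φ i) j).det| := by
  classical
  have hoe : ∀ o : O (2 * m + 1), o = oe ↔ ((o.1 : ℕ) = m ∧ (o.2 : ℕ) = m) := by
    intro o
    rw [Prod.ext_iff, Fin.ext_iff, Fin.ext_iff, hoa, hob]
  have hee : ∀ x : E (2 * m + 1), x = ee ↔ ((x.1 : ℕ) = m + 1 ∧ (x.2 : ℕ) = m) := by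
    intro x
    rw [Prod.ext_iff, Fin.ext_iff, Fin.ext_iff]
    omega
  have ho1 : ∀ o : O (2 * m + 1), o ≠ o1 → ¬ ((o.1 : ℕ) = m + 1 ∧ (o.2 : ℕ) = m) := by
    intro o h hc
    apply h
    rw [Prod.ext_iff, Fin.ext_iff, Fin.ext_iff]
    omega
  have he2 : ∀ x : E (2 * m + 1), x ≠ e2 → ¬ ((x.1 : ℕ) = m ∧ (x.2 : ℕ) = m) := by
    intro o h hc
    apply h
    rw [Prod.ext_iff, Fin.ext_iff, Fin.ext_iff]
    omega
  let M : Matrix {x : E (2 * m + 1) // x ≠ e2} {x : E (2 * m + 1) // x ≠ e2} ℤ :=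
    Matrix.of fun i j => if (φ i : O (2 * m + 1)) = oe ∧ (j : E (2 * m + 1)) = ee then -1
      else K0Z (2 * m + 1) (φ i) j
  have hcount := numTilings_eq 0 (knightRegion (2 * m + 1))
    (fun i : {x : E (2 * m + 1) // x ≠ e2} => cE (2 * m + 1) i)
    (fun j => cO (2 * m + 1) (φ j))
    (fun a b h => Subtype.ext (cE_inj _ h))
    (fun a b h => φ.injective (Subtype.ext (cO_inj _ h)))
    (by
      intro p
      rw [range_ne _ (cE_inj _), cE_range, mem_aztec, mem_knight, Int.even_iff]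
      have h2 : cE (2 * m + 1) e2 = (-1, -1) := by
        unfold cE
        ext <;> simp only <;> push_cast <;> omega
      rw [h2, ne_eq, Prod.ext_iff]
      simp only
      push_cast
      omega)
    (by
      intro p
      have h1 : (∃ i : {x : E (2 * m + 1) // x ≠ e2}, cO (2 * m + 1) (φ i) = p) ↔
          (∃ o : {o : O (2 * m + 1) // o ≠ o1}, cO (2 * m + 1) o = p) :=
        ⟨fun ⟨i, hi⟩ => ⟨φ i, hi⟩, fun ⟨o, ho⟩ => ⟨φ.symm o, by simpa using ho⟩⟩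
      rw [h1, range_ne _ (cO_inj _), cO_range, mem_aztec, mem_knight, Int.even_iff]
      have h2 : cO (2 * m + 1) o1 = (0, 1) := by
        unfold cO
        ext <;> simp only <;> push_cast <;> omega
      rw [h2, ne_eq, Prod.ext_iff]
      simp only
      push_cast
      omega)
    (fun i => gu ((φ i).1.1 + (φ i).1.2 + if m + 1 ≤ ((φ i).1.2 : ℕ) then 1 else 0))
    (fun j => gu (j.1.1 + j.1.2 + 1 + if m ≤ (j.1.2 : ℕ) then 1 else 0)) M
    (by
      intro i j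
      rw [← gauge_odd m hm (φ i) j (ho1 _ (φ i).2) (he2 _ j.2)]
      simp only [M, Matrix.of_apply, hoe, hee])
  rw [hcount, natAbs_det_cast M (Matrix.of fun i j : {x : E (2 * m + 1) // x ≠ e2} =>
        if (φ i : O (2 * m + 1)) = oe ∧ (j : E (2 * m + 1)) = ee then -1
          else K0 (2 * m + 1) (φ i) j)]
  intro i j
  simp only [M, Matrix.of_apply]
  split_ifs
  · norm_num
  · exact K0Z_cast _ _ _

theorem det_K0 (n : ℕ) (hn : 1 ≤ n) (e : E n ≃ O n) :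
    |((K0 n).submatrix e id).det| = 2 ^ (n * (n + 1) / 2) := by
  obtain ⟨N, rfl⟩ : ∃ N, n = N + 1 := ⟨n - 1, by omega⟩
  exact abs_det_K0 N e

theorem minor_even (m : ℕ) (hm : 1 ≤ m) (e2 ee : E (2 * m)) (o1 oe : O (2 * m))
    (h2a : (e2.1 : ℕ) = m + 1) (h2b : (e2.2 : ℕ) = m - 1) (hea : (ee.1 : ℕ) = m)
    (heb : (ee.2 : ℕ) = m - 1) (h1a : (o1.1 : ℕ) = m - 1) (h1b : (o1.2 : ℕ) = m)
    (hoa : (oe.1 : ℕ) = m) (hob : (oe.2 : ℕ) = m)
    (φ : {x : E (2 * m) // x ≠ e2} ≃ {o : O (2 * m) // o ≠ o1}) :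
    |(Matrix.of fun i j : {x : E (2 * m) // x ≠ e2} =>
        if (φ i : O (2 * m)) = oe ∧ (j : E (2 * m)) = ee then -1 else K0 (2 * m) (φ i) j).det| =
    2 ^ (m * (2 * m + 1)) * |(G (2 * m) (gE m) m (m + 1)).coeff (m - 1) *
      (1 - 2 * (G (2 * m) (gE m) (m + 1) m).coeff (m - 1)) +
      2 * ((G (2 * m) (gE m) (m + 1) (m + 1)).coeff (m - 1) *
        (G (2 * m) (gE m) m m).coeff (m - 1))| := by
  have hex := gE_expand m
  have hne : ee ≠ e2 := by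
    intro h
    rw [h] at hea
    omega
  have h1 : ∀ o, ∑ x, K0 (2 * m) o x * (G (2 * m) (gE m) m x.1).coeff x.2 =
      if o = o1 then 1 else 0 := by
    intro o
    rw [K0_G (2 * m) (gE m) m m hm (by omega) hex o]
    have : ((o.1 : ℕ) + 1 = m ∧ (o.2 : ℕ) = m) ↔ o = o1 := by
      rw [Prod.ext_iff, Fin.ext_iff, Fin.ext_iff, h1a, h1b]
      omega
    simp only [this]
  have h2 : ∀ o, ∑ x, K0 (2 * m) o x * (G (2 * m) (gE m) (m + 1) x.1).coeff x.2 =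
      if o = oe then 1 else 0 := by
    intro o
    rw [K0_G (2 * m) (gE m) (m + 1) m (by omega) (by omega) hex o]
    have : ((o.1 : ℕ) + 1 = m + 1 ∧ (o.2 : ℕ) = m) ↔ o = oe := by
      rw [Prod.ext_iff, Fin.ext_iff, Fin.ext_iff, hoa, hob]
      omega
    simp only [this]
  have h3 : K0 (2 * m) oe ee = 1 := by
    simp only [K0, Matrix.of_apply, hea, heb, hoa, hob]
    have g1 : ¬ (m = m + 1) := by omega
    have g2 : ¬ (m - 1 = m) := by omega
    have g3 : m - 1 + 1 = m := by omega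
    simp only [g1, g2, g3, if_true, if_false]
    norm_num
  obtain ⟨e, he⟩ := abs_det_minor (K0 (2 * m)) _ _ o1 oe e2 ee hne h1 h2 h3 φ
  rw [he, det_K0 _ (by omega), h2a, h2b, hea, heb]
  rw [show (2 * m) * (2 * m + 1) / 2 = m * (2 * m + 1) from by
    rw [mul_assoc, Nat.mul_div_cancel_left _ (by norm_num)]]

theorem minor_odd (m : ℕ) (hm : 1 ≤ m) (e2 ee : E (2 * m + 1)) (o1 oe : O (2 * m + 1))
    (h2a : (e2.1 : ℕ) = m) (h2b : (e2.2 : ℕ) = m) (hea : (ee.1 : ℕ) = m + 1)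
    (heb : (ee.2 : ℕ) = m) (h1a : (o1.1 : ℕ) = m + 1) (h1b : (o1.2 : ℕ) = m)
    (hoa : (oe.1 : ℕ) = m) (hob : (oe.2 : ℕ) = m)
    (φ : {x : E (2 * m + 1) // x ≠ e2} ≃ {o : O (2 * m + 1) // o ≠ o1}) :
    |(Matrix.of fun i j : {x : E (2 * m + 1) // x ≠ e2} =>
        if (φ i : O (2 * m + 1)) = oe ∧ (j : E (2 * m + 1)) = ee then -1
          else K0 (2 * m + 1) (φ i) j).det| =
    2 ^ ((2 * m + 1) * (m + 1)) * |(G (2 * m + 1) (gO m) (m + 2) m).coeff m *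
      (1 - 2 * (G (2 * m + 1) (gO m) (m + 1) (m + 1)).coeff m) +
      2 * ((G (2 * m + 1) (gO m) (m + 1) m).coeff m *
        (G (2 * m + 1) (gO m) (m + 2) (m + 1)).coeff m)| := by
  have hex := gO_expand m
  have hne : ee ≠ e2 := by
    intro h
    rw [h] at hea
    omega
  have h1 : ∀ o, ∑ x, K0 (2 * m + 1) o x * (G (2 * m + 1) (gO m) (m + 2) x.1).coeff x.2 =
      if o = o1 then 1 else 0 := by
    intro o
    rw [K0_G (2 * m + 1) (gO m) (m + 2) m (by omega) (by omega) hex o]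
    have : ((o.1 : ℕ) + 1 = m + 2 ∧ (o.2 : ℕ) = m) ↔ o = o1 := by
      rw [Prod.ext_iff, Fin.ext_iff, Fin.ext_iff, h1a, h1b]
      omega
    simp only [this]
  have h2 : ∀ o, ∑ x, K0 (2 * m + 1) o x * (G (2 * m + 1) (gO m) (m + 1) x.1).coeff x.2 =
      if o = oe then 1 else 0 := by
    intro o
    rw [K0_G (2 * m + 1) (gO m) (m + 1) m (by omega) (by omega) hex o]
    have : ((o.1 : ℕ) + 1 = m + 1 ∧ (o.2 : ℕ) = m) ↔ o = oe := by
      rw [Prod.ext_iff, Fin.ext_iff, Fin.ext_iff, hoa, hob]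
      omega
    simp only [this]
  have h3 : K0 (2 * m + 1) oe ee = 1 := by
    simp only [K0, Matrix.of_apply, hea, heb, hoa, hob]
    have g1 : ¬ (m + 1 = m) := by omega
    simp only [g1, if_true, if_false]
    norm_num
  obtain ⟨e, he⟩ := abs_det_minor (K0 (2 * m + 1)) _ _ o1 oe e2 ee hne h1 h2 h3 φ
  rw [he, det_K0 _ (by omega), h2a, h2b, hea, heb]
  rw [show (2 * m + 1) * (2 * m + 1 + 1) / 2 = (2 * m + 1) * (m + 1) from by
    rw [show (2 * m + 1) * (2 * m + 1 + 1) = 2 * ((2 * m + 1) * (m + 1)) from by ring,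
      Nat.mul_div_cancel_left _ (by norm_num)]]

theorem tilings_even (m : ℕ) (hm : 1 ≤ m) :
    (numTilings (knightRegion (2 * m)) : ℚ) = 2 ^ (m * (2 * m + 1)) *
      (((1 / 4) ^ m * S m (m / 2 + 1)) *
        ((1 / 4) ^ m * ((((m + 1) / 2 : ℕ) : ℚ) * u m ((m + 1) / 2)))) := by
  obtain ⟨φ⟩ := exists_phi (2 * m) (⟨m + 1, by omega⟩, ⟨m - 1, by omega⟩)
    (⟨m - 1, by omega⟩, ⟨m, by omega⟩)
  rw [count_even m hm _ (⟨m, by omega⟩, ⟨m - 1, by omega⟩) _ (⟨m, by omega⟩, ⟨m, by omega⟩)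
    rfl (Nat.sub_add_cancel hm) rfl (Nat.sub_add_cancel hm) (Nat.sub_add_cancel hm) rfl rfl rfl φ,
    minor_even m hm _ _ _ _ rfl rfl rfl rfl rfl rfl rfl rfl φ, E_val m hm, abs_of_nonneg]
  unfold S u
  positivity

theorem tilings_odd (m : ℕ) (hm : 1 ≤ m) :
    (numTilings (knightRegion (2 * m + 1)) : ℚ) = 2 ^ ((2 * m + 1) * (m + 1)) *
      (((1 / 4) ^ m * S m ((m + 1) / 2)) * ((1 / 4) ^ (m + 1) *
      ((((m + 1 - (m + 1) / 2 : ℕ) : ℚ) * (Nat.centralBinom ((m + 1) / 2) : ℚ) *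
        (Nat.centralBinom (m + 1 - (m + 1) / 2) : ℚ))))) := by
  obtain ⟨φ⟩ := exists_phi (2 * m + 1) (⟨m, by omega⟩, ⟨m, by omega⟩)
    (⟨m + 1, by omega⟩, ⟨m, by omega⟩)
  rw [count_odd m hm _ (⟨m + 1, by omega⟩, ⟨m, by omega⟩) _ (⟨m, by omega⟩, ⟨m, by omega⟩)
    rfl rfl rfl rfl rfl rfl rfl rfl φ,
    minor_odd m hm _ _ _ _ rfl rfl rfl rfl rfl rfl rfl rfl φ, O_val m hm, abs_of_nonneg]
  unfold S u
  positivity

end Pool.Agent.H415R2.Knight
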