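import Pool.Agent.Helper848.Domino

namespace Pool.Agent.H415R2.Knight

/-- The Aztec diamond of order `n`. The pair `(a, b)` stands for the unit cell
`[a, a + 1] × [b, b + 1]`, whose centre is `(x, y) = (a + 1/2, b + 1/2)`; the condition says
`|x| + |y| ≤ n` (multiplied by two). -/
noncomputable def aztec (n : ℕ) : Finset (ℤ × ℤ) :=
  ((Finset.Ico (-(n : ℤ)) n) ×ˢ (Finset.Ico (-(n : ℤ)) n)).filter
    fun p => |2 * p.1 + 1| + |2 * p.2 + 1| ≤ 2 * n

/-- The region `D_n`: the Aztec diamond of order `n` with the two cells centred at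
`(-1/2, -1/2)` and `(1/2, 3/2)` removed. -/
noncomputable def knightRegion (n : ℕ) : Finset (ℤ × ℤ) := aztec n \ {(-1, -1), (0, 1)}

end Pool.Agent.H415R2.Knight
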