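import Pool.Agent.H415R2.KnightSums

namespace Pool.Agent.H415R2.Knight

open Polynomial Finset

theorem sum_even_terms {M : Type*} [AddCommMonoid M] (f : ℕ → M) (N : ℕ) :
    ∑ k ∈ range N, (if k % 2 = 0 then f (k / 2) else 0) = ∑ j ∈ range ((N + 1) / 2), f j := by
  induction N with
  | zero => simp
  | succ N ih =>
    rw [sum_range_succ, ih]
    rcases Nat.even_or_odd' N with ⟨c, rfl | rfl⟩
    · rw [if_pos (by omega), show (2 * c + 1 + 1) / 2 = c + 1 from by omega,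
        show (2 * c + 1) / 2 = c from by omega, sum_range_succ, show 2 * c / 2 = c from by omega]
    · rw [if_neg (by omega), show (2 * c + 1 + 1 + 1) / 2 = (2 * c + 1 + 1) / 2 from by omega,
        add_zero]

theorem sum_pairs {M : Type*} [AddCommMonoid M] (f : ℕ → M) (N : ℕ) :
    ∑ k ∈ range (2 * N), f k = ∑ j ∈ range N, (f (2 * j) + f (2 * j + 1)) := by
  induction N with
  | zero => simp
  | succ N ih =>
    rw [show 2 * (N + 1) = 2 * N + 1 + 1 from by ring, sum_range_succ, sum_range_succ, ih,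
      sum_range_succ, add_assoc]

/-- coefficients of `X ^ m` in the basis `(1 + X) ^ k (1 - X) ^ (2 m - k)` -/
def gE (m k : ℕ) : ℚ := if k % 2 = 0 then (1 / 4) ^ m * (-1) ^ (m - k / 2) * (m.choose (k / 2) : ℚ)
  else 0

/-- coefficients of `X ^ m` in the basis `(1 + X) ^ k (1 - X) ^ (2 m + 1 - k)` -/
def gO (m k : ℕ) : ℚ := 1 / 2 * ((1 / 4) ^ m * (-1) ^ (m - k / 2) * (m.choose (k / 2) : ℚ))

theorem X_pow_expand (m : ℕ) : ∑ j ∈ range (m + 1), C ((1 / 4) ^ m * (-1) ^ (m - j) *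
    (m.choose j : ℚ)) * ((1 + X) ^ (2 * j) * (1 - X) ^ (2 * (m - j)) : ℚ[X]) = X ^ m := by
  have h : (X : ℚ[X]) ^ m = C ((1 / 4) ^ m) * ((1 + X) ^ 2 + -(1 - X) ^ 2) ^ m := by
    rw [show ((1 + X) ^ 2 + -(1 - X) ^ 2 : ℚ[X]) = C 4 * X from by
      rw [map_ofNat]; ring]
    rw [mul_pow, ← mul_assoc, ← C_pow, ← C_mul, ← mul_pow]
    norm_num
  rw [h, add_pow, mul_sum]
  refine sum_congr rfl fun j _ => ?_
  rw [neg_pow ((1 - X : ℚ[X]) ^ 2), ← pow_mul, ← pow_mul]
  simp only [map_mul, map_pow, map_neg, map_one, map_natCast]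
  ring

theorem gE_expand (m : ℕ) : ∑ k ∈ range (2 * m + 1), C (gE m k) *
    ((1 + X) ^ k * (1 - X) ^ (2 * m - k) : ℚ[X]) = X ^ m := by
  rw [← X_pow_expand, show m + 1 = (2 * m + 1 + 1) / 2 from by omega, ← sum_even_terms]
  refine sum_congr rfl fun k hk => ?_
  rw [mem_range] at hk
  unfold gE
  split_ifs with h
  · rw [show 2 * (k / 2) = k from by omega, show 2 * (m - k / 2) = 2 * m - k from by omega]
  · simp

theorem gO_expand (m : ℕ) : ∑ k ∈ range (2 * m + 1 + 1), C (gO m k) *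
    ((1 + X) ^ k * (1 - X) ^ (2 * m + 1 - k) : ℚ[X]) = X ^ m := by
  rw [← X_pow_expand, show 2 * m + 1 + 1 = 2 * (m + 1) from by ring, sum_pairs]
  refine sum_congr rfl fun j hj => ?_
  rw [mem_range] at hj
  unfold gO
  rw [show 2 * j / 2 = j from by omega, show (2 * j + 1) / 2 = j from by omega,
    show 2 * m + 1 - 2 * j = 2 * (m - j) + 1 from by omega,
    show 2 * m + 1 - (2 * j + 1) = 2 * (m - j) from by omega, C_mul]
  have h : (C (1 / 2 : ℚ)) * 2 = (1 : ℚ[X]) := by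
    rw [← map_ofNat C 2, ← C_mul]; norm_num
  rw [pow_succ, pow_succ]
  linear_combination (C ((1 / 4 : ℚ) ^ m * (-1) ^ (m - j) * (m.choose j : ℚ)) *
    ((1 + X) ^ (2 * j) * (1 - X) ^ (2 * (m - j)) : ℚ[X])) * h

/-- partial sums -/
def S (m N : ℕ) : ℚ := ∑ j ∈ range N, u m j

theorem S_full (m : ℕ) : S m (m + 1) = 4 ^ m := by
  have h := congrArg (fun p => coeff p m) (X_pow_expand m)
  simp only [finsetSum_coeff, coeff_C_mul, coeff_X_pow, if_true] at h
  unfold S
  have h2 : ∀ j ∈ range (m + 1), (1 / 4 : ℚ) ^ m * (-1) ^ (m - j) * (m.choose j : ℚ) *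
      ((1 + X) ^ (2 * j) * (1 - X) ^ (2 * (m - j)) : ℚ[X]).coeff m = (1 / 4) ^ m * u m j := by
    intro j hj
    rw [mem_range] at hj
    rw [← q_even m j (by omega), q, show 2 * m - 2 * j = 2 * (m - j) from by omega]
    ring
  rw [sum_congr rfl h2, ← mul_sum] at h
  have h4 : (1 / 4 : ℚ) ^ m * 4 ^ m = 1 := by rw [← mul_pow]; norm_num
  have h5 : (1 / 4 : ℚ) ^ m ≠ 0 := by positivity
  apply mul_left_cancel₀ h5
  rw [h4, h]

theorem sum_Ico_u (m N : ℕ) (hN : N ≤ m + 1) :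
    ∑ j ∈ Ico N (m + 1), u m j = 4 ^ m - S m N := by
  rw [← S_full, S, S, ← sum_range_add_sum_Ico _ hN]; ring

theorem S_refl (m N : ℕ) (hN : N ≤ m + 1) : S m N + S m (m + 1 - N) = 4 ^ m := by
  have h : S m (m + 1 - N) = ∑ j ∈ Ico N (m + 1), u m j := by
    unfold S
    rw [range_eq_Ico]
    refine sum_nbij' (fun j => m - j) (fun j => m - j) ?_ ?_ ?_ ?_ ?_
    · intro j hj; rw [mem_Ico] at hj ⊢; omega
    · intro j hj; rw [mem_Ico] at hj ⊢; omega
    · intro j hj; rw [mem_Ico] at hj; omega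
    · intro j hj; rw [mem_Ico] at hj; omega
    · intro j hj; rw [mem_Ico] at hj; exact (u_symm m j (by omega)).symm
  rw [h, sum_Ico_u m N hN]; ring

theorem a_eq (m x : ℕ) (hm : 1 ≤ m) (hx : x + 1 ≤ 2 * m) :
    ((1 + X) ^ x * (1 - X) ^ (2 * m - 1 - x) : ℚ[X]).coeff (m - 1) = (q m (x + 1) - q m x) / 2 := by
  obtain ⟨m, rfl⟩ : ∃ m', m = m' + 1 := ⟨m - 1, by omega⟩
  set P : ℚ[X] := (1 + X) ^ x * (1 - X) ^ (2 * (m + 1) - 1 - x) with hP
  have h1 : q (m + 1) (x + 1) = P.coeff (m + 1) + P.coeff m := by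
    unfold q
    rw [show ((1 + X) ^ (x + 1) * (1 - X) ^ (2 * (m + 1) - (x + 1)) : ℚ[X]) = P + X * P from by
      rw [hP, show 2 * (m + 1) - (x + 1) = 2 * (m + 1) - 1 - x from by omega]; ring]
    rw [coeff_add, coeff_X_mul]
  have h2 : q (m + 1) x = P.coeff (m + 1) - P.coeff m := by
    unfold q
    rw [show ((1 + X) ^ x * (1 - X) ^ (2 * (m + 1) - x) : ℚ[X]) = P - X * P from by
      rw [hP, show 2 * (m + 1) - x = (2 * (m + 1) - 1 - x) + 1 from by omega]; ring]
    rw [coeff_sub, coeff_X_mul]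
  rw [h1, h2, Nat.add_sub_cancel]
  ring

/-- telescoping, even case -/
theorem tele_even (m N : ℕ) (hN : N ≤ m) :
    ∑ j ∈ range N, (u m j + (j + 1) / (m - j) * u m (j + 1)) = 2 * N * u m N := by
  induction N with
  | zero => simp
  | succ N ih =>
    rw [sum_range_succ, ih (by omega)]
    have h := u_rec m N (by omega)
    have hjm : (N : ℚ) + 1 ≤ m := by exact_mod_cast hN
    have h5 : ((m : ℚ) - N) ≠ 0 := by
      intro hc; linarith
    push_cast
    field_simp
    linear_combination (-1 : ℚ) * h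

/-- telescoping, odd case -/
theorem tele_odd (m N : ℕ) (hN : N ≤ m + 1) :
    ∑ i ∈ Ico N (m + 1), (u m i + (m - i) / (i + 1) * u m i) =
      (m + 1 - N) * (Nat.centralBinom N : ℚ) * (Nat.centralBinom (m + 1 - N) : ℚ) / 2 := by
  obtain ⟨d, hd⟩ : ∃ d, m + 1 = N + d := Nat.exists_eq_add_of_le hN
  induction d generalizing N with
  | zero =>
    rw [show m + 1 = N from by omega, Ico_self, sum_empty]
    have : (m : ℚ) + 1 = N := by exact_mod_cast hd
    rw [this]; ring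
  | succ d ih =>
    rw [← add_sum_Ioo_eq_sum_Ico (by omega : N < m + 1)] 
    have h1 := ih (N + 1) (by omega) (by omega)
    rw [show Ioo N (m + 1) = Ico (N + 1) (m + 1) from by ext; simp, h1]
    unfold u
    rw [show m + 1 - (N + 1) = d from by omega, show m - N = d from by omega,
      show m + 1 - N = d + 1 from by omega]
    have hm : (m : ℚ) = N + d := by
      have : (m : ℚ) + 1 = N + (d + 1) := by exact_mod_cast hd
      linarith
    have h2 := cb_succ N
    have h3 := cb_succ d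
    rw [hm]
    have h6 : ((N : ℚ) + 1) ≠ 0 := by positivity
    push_cast
    field_simp
    linear_combination (d : ℚ) * (Nat.centralBinom d : ℚ) * h2 -
      (Nat.centralBinom N : ℚ) * ((N : ℚ) + 1) * h3

end Pool.Agent.H415R2.Knight
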