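import Pool.Agent.H415R2.KnightRegion
import Pool.Agent.Helper848.AztecDet

namespace Pool.Agent.H415R2.Knight

open Pool.Agent.Helper848 Pool.Agent.Helper848.AztecDet Finset

/-- integer version of the Kasteleyn matrix -/
def K0Z (n : ℕ) (o : O n) (x : E n) : ℤ :=
  (if (x.1 : ℕ) = o.1 + 1 then (1 : ℤ) else 0) *
    ((if (x.2 : ℕ) = o.2 then 1 else 0) - (if (x.2 : ℕ) + 1 = o.2 then 1 else 0)) +
  (if (x.1 : ℕ) = o.1 then (1 : ℤ) else 0) *
    ((if (x.2 : ℕ) = o.2 then 1 else 0) + (if (x.2 : ℕ) + 1 = o.2 then 1 else 0))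

theorem K0Z_cast (n : ℕ) (o : O n) (x : E n) : ((K0Z n o x : ℤ) : ℚ) = K0 n o x := by
  unfold K0Z K0
  simp only [Matrix.of_apply]
  push_cast
  rfl

/-- cells with first diagonal coordinate of the parity of `n` -/
def cE (n : ℕ) (x : E n) : ℤ × ℤ := ((x.1 : ℤ) + x.2 - n, (x.1 : ℤ) - x.2 - 1)

/-- the other cells -/
def cO (n : ℕ) (o : O n) : ℤ × ℤ := ((o.1 : ℤ) + o.2 - n, (o.1 : ℤ) - o.2)

theorem cE_inj (n : ℕ) : Function.Injective (cE n) := by
  rintro ⟨⟨a, ha⟩, ⟨b, hb⟩⟩ ⟨⟨c, hc⟩, ⟨d, hd⟩⟩ h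
  unfold cE at h
  simp only [Prod.mk.injEq, Fin.mk.injEq] at h ⊢
  omega

theorem cO_inj (n : ℕ) : Function.Injective (cO n) := by
  rintro ⟨⟨a, ha⟩, ⟨b, hb⟩⟩ ⟨⟨c, hc⟩, ⟨d, hd⟩⟩ h
  unfold cO at h
  simp only [Prod.mk.injEq, Fin.mk.injEq] at h ⊢
  omega

/-- gauge factor as a unit -/
def gu (k : ℕ) : ℤˣ := (-1) ^ k

theorem gu_val (k : ℕ) : ((gu k : ℤˣ) : ℤ) = sg k := by
  unfold gu; push_cast; exact sg_nat k

theorem sg_mul (a b : ℤ) : sg a * sg b = sg (a + b) := by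
  unfold sg
  split_ifs <;> omega

theorem sg_congr {a b : ℤ} (h : (a - b) % 2 = 0) : sg a = sg b := by
  unfold sg
  split_ifs <;> omega

theorem ite_sg (c : Prop) [Decidable c] (a : ℤ) :
    (if c then sg a else 1) = sg (if c then a else 0) := by
  split_ifs
  · rfl
  · rfl

theorem ite_neg_sg (c : Prop) [Decidable c] (a : ℤ) :
    (if c then -1 else sg a) = sg (if c then 1 else a) := by
  split_ifs
  · rfl
  · rfl

theorem K0Z_zero (n : ℕ) (o : O n) (x : E n) (h : ¬ Adj (cO n o) (cE n x)) : K0Z n o x = 0 := by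
  obtain ⟨⟨s, hs⟩, ⟨t, ht⟩⟩ := o
  obtain ⟨⟨s', hs'⟩, ⟨t', ht'⟩⟩ := x
  unfold Adj cE cO at h
  unfold K0Z
  simp only at h ⊢
  by_cases h1 : s' = s + 1
  · rw [if_pos h1, if_neg (by omega), if_neg (by omega), if_neg (by omega)]; norm_num
  · by_cases h4 : s' = s
    · rw [if_neg h1, if_pos h4, if_neg (by omega), if_neg (by omega)]; norm_num
    · rw [if_neg h1, if_neg h4]; norm_num

theorem K0Z_adj (n : ℕ) (o : O n) (x : E n) (h : Adj (cO n o) (cE n x)) :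
    K0Z n o x = sg (if (x.1 : ℕ) = o.1 + 1 ∧ (x.2 : ℕ) + 1 = o.2 then 1 else 0) := by
  obtain ⟨⟨s, hs⟩, ⟨t, ht⟩⟩ := o
  obtain ⟨⟨s', hs'⟩, ⟨t', ht'⟩⟩ := x
  unfold Adj cE cO at h
  unfold K0Z sg
  simp only at h ⊢
  by_cases h1 : s' = s + 1
  · by_cases h2 : t' = t
    · have h3 : ¬ (t' + 1 = t) := by omega
      have h4 : ¬ (s' = s) := by omega
      simp [h1, h2]
    · have h3 : t' + 1 = t := by omega
      have h4 : ¬ (s' = s) := by omega
      simp [h1, h3, h2]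
  · have h4 : s' = s := by omega
    by_cases h2 : t' = t
    · have h3 : ¬ (t' + 1 = t) := by omega
      simp [h4, h2]
    · have h3 : t' + 1 = t := by omega
      simp [h4, h3, h2]

section even

variable (m : ℕ)

set_option maxHeartbeats 4000000 in
theorem gauge_even (hm : 1 ≤ m) (o : O (2 * m)) (x : E (2 * m))
    (ho : ¬ ((o.1 : ℕ) + 1 = m ∧ (o.2 : ℕ) = m)) (hx : ¬ ((x.1 : ℕ) = m + 1 ∧ (x.2 : ℕ) + 1 = m)) :
    (if ((o.1 : ℕ) = m ∧ (o.2 : ℕ) = m) ∧ ((x.1 : ℕ) = m ∧ (x.2 : ℕ) + 1 = m) then -1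
      else K0Z (2 * m) o x) =
    ((gu (x.2 + if m ≤ (x.2 : ℕ) then 1 else 0) : ℤˣ) : ℤ) *
      ((gu (o.2 + if m ≤ (o.2 : ℕ) then 1 else 0) : ℤˣ) : ℤ) *
      kast (knightRegion (2 * m)) (cE (2 * m) x) (cO (2 * m) o) := by
  rw [kast_knight _ (by omega) _ _
    (by obtain ⟨⟨s', hs'⟩, ⟨t', ht'⟩⟩ := x; rw [mem_knight]; unfold cE; simp only at hx ⊢; omega)
    (by obtain ⟨⟨s, hs⟩, ⟨t, ht⟩⟩ := o; rw [mem_knight]; unfold cO; simp only at ho ⊢; omega),
    gu_val, gu_val, sg_mul]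
  by_cases hadj : Adj (cO (2 * m) o) (cE (2 * m) x)
  · rw [if_pos hadj, K0Z_adj _ _ _ hadj, ite_sg, ite_neg_sg, sg_mul]
    obtain ⟨⟨s, hs⟩, ⟨t, ht⟩⟩ := o
    obtain ⟨⟨s', hs'⟩, ⟨t', ht'⟩⟩ := x
    simp only at ho hx
    unfold Adj cE cO at hadj
    unfold cE cO
    simp only at hadj ⊢
    push_cast at hadj ⊢
    apply sg_congr
    rcases hadj with ⟨h1, h2 | h2⟩ | ⟨h1, h2 | h2⟩
    · have e1 : s' = s := by omega
      have e2 : t' = t := by omega
      subst e1 e2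
      omega
    · have e1 : s' = s + 1 := by omega
      have e2 : t = t' + 1 := by omega
      subst e1 e2
      omega
    · have e1 : s' = s := by omega
      have e2 : t = t' + 1 := by omega
      subst e1 e2
      omega
    · have e1 : s' = s + 1 := by omega
      have e2 : t' = t := by omega
      subst e1 e2
      omega
  · rw [if_neg hadj, mul_zero, K0Z_zero _ _ _ hadj, if_neg]
    intro he
    apply hadj
    unfold Adj cE cO
    simp only
    omega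

end even

section odd

variable (m : ℕ)


set_option maxHeartbeats 4000000 in
theorem gauge_odd (hm : 1 ≤ m) (o : O (2 * m + 1)) (x : E (2 * m + 1))
    (ho : ¬ ((o.1 : ℕ) = m + 1 ∧ (o.2 : ℕ) = m)) (hx : ¬ ((x.1 : ℕ) = m ∧ (x.2 : ℕ) = m)) :
    (if ((o.1 : ℕ) = m ∧ (o.2 : ℕ) = m) ∧ ((x.1 : ℕ) = m + 1 ∧ (x.2 : ℕ) = m) then -1
      else K0Z (2 * m + 1) o x) =
    ((gu (o.1 + o.2 + if m + 1 ≤ (o.2 : ℕ) then 1 else 0) : ℤˣ) : ℤ) *
      ((gu (x.1 + x.2 + 1 + if m ≤ (x.2 : ℕ) then 1 else 0) : ℤˣ) : ℤ) *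
      kast (knightRegion (2 * m + 1)) (cO (2 * m + 1) o) (cE (2 * m + 1) x) := by
  rw [kast_knight _ (by omega) _ _
    (by obtain ⟨⟨s, hs⟩, ⟨t, ht⟩⟩ := o; rw [mem_knight]; unfold cO; simp only at ho ⊢; omega)
    (by obtain ⟨⟨s', hs'⟩, ⟨t', ht'⟩⟩ := x; rw [mem_knight]; unfold cE; simp only at hx ⊢; omega),
    gu_val, gu_val, sg_mul]
  by_cases hadj : Adj (cE (2 * m + 1) x) (cO (2 * m + 1) o)
  · rw [if_pos hadj, K0Z_adj _ _ _ hadj.symm, ite_sg, ite_neg_sg, sg_mul]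
    obtain ⟨⟨s, hs⟩, ⟨t, ht⟩⟩ := o
    obtain ⟨⟨s', hs'⟩, ⟨t', ht'⟩⟩ := x
    simp only at ho hx
    unfold Adj cE cO at hadj
    unfold cE cO
    simp only at hadj ⊢
    push_cast at hadj ⊢
    apply sg_congr
    rcases hadj with ⟨h1, h2 | h2⟩ | ⟨h1, h2 | h2⟩
    · have e1 : s' = s + 1 := by omega
      have e2 : t = t' + 1 := by omega
      subst e1 e2
      omega
    · have e1 : s' = s := by omega
      have e2 : t' = t := by omega
      subst e1 e2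
      omega
    · have e1 : s' = s + 1 := by omega
      have e2 : t' = t := by omega
      subst e1 e2
      omega
    · have e1 : s' = s := by omega
      have e2 : t = t' + 1 := by omega
      subst e1 e2
      omega
  · rw [if_neg hadj, mul_zero, K0Z_zero _ _ _ (fun h => hadj h.symm), if_neg]
    intro he
    apply hadj
    unfold Adj cE cO
    simp only
    omega

end odd

end Pool.Agent.H415R2.Knight
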