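import Pool.Agent.H415R2.KnightDefs
import Pool.Agent.Helper848.Kast

namespace Pool.Agent.H415R2.Knight

open Pool.Agent.Helper848 Finset

theorem mem_aztec (n : ℕ) (p : ℤ × ℤ) : p ∈ aztec n ↔
    -(n : ℤ) ≤ p.1 + p.2 + 1 ∧ p.1 + p.2 + 1 ≤ n ∧ -(n : ℤ) ≤ p.1 - p.2 ∧ p.1 - p.2 ≤ n := by
  unfold aztec
  rw [mem_filter, mem_product, mem_Ico, mem_Ico]
  constructor
  · rintro ⟨-, h⟩
    rcases abs_cases (2 * p.1 + 1) with ⟨h1, h1'⟩ | ⟨h1, h1'⟩ <;>
    rcases abs_cases (2 * p.2 + 1) with ⟨h2, h2'⟩ | ⟨h2, h2'⟩ <;>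
    rw [h1, h2] at h <;> omega
  · intro h
    refine ⟨by omega, ?_⟩
    rcases abs_cases (2 * p.1 + 1) with ⟨h1, h1'⟩ | ⟨h1, h1'⟩ <;>
    rcases abs_cases (2 * p.2 + 1) with ⟨h2, h2'⟩ | ⟨h2, h2'⟩ <;>
    rw [h1, h2] <;> omega

theorem mem_knight (n : ℕ) (p : ℤ × ℤ) : p ∈ knightRegion n ↔
    (-(n : ℤ) ≤ p.1 + p.2 + 1 ∧ p.1 + p.2 + 1 ≤ n ∧ -(n : ℤ) ≤ p.1 - p.2 ∧ p.1 - p.2 ≤ n) ∧
      ¬ (p.1 = -1 ∧ p.2 = -1) ∧ ¬ (p.1 = 0 ∧ p.2 = 1) := by
  unfold knightRegion
  rw [mem_sdiff, mem_aztec, mem_insert, mem_singleton, Prod.ext_iff, Prod.ext_iff]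
  simp only
  tauto

/-- sign of an integer's parity -/
def sg (x : ℤ) : ℤ := if x % 2 = 0 then 1 else -1

theorem sg_nat (k : ℕ) : (-1 : ℤ) ^ k = sg k := by
  unfold sg
  rcases Nat.even_or_odd k with h | h
  · rw [h.neg_one_pow, if_pos]
    obtain ⟨a, rfl⟩ := h; omega
  · rw [h.neg_one_pow, if_neg]
    obtain ⟨a, rfl⟩ := h; omega

/-- filtering a region with two removed cells -/
theorem card_filter_knight (n : ℕ) (hn : 2 ≤ n) (P : ℤ × ℤ → Prop) [DecidablePred P] :
    (((knightRegion n).filter P).card : ℤ) =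
      ((aztec n).filter P).card - (if P (-1, -1) then 1 else 0) - (if P (0, 1) then 1 else 0) := by
  have hA : insert (-1, -1) (insert (0, 1) (knightRegion n)) = aztec n := by
    ext p
    rw [mem_insert, mem_insert, mem_knight, mem_aztec, Prod.ext_iff, Prod.ext_iff]
    simp only
    constructor
    · rintro (⟨h1, h2⟩ | ⟨h1, h2⟩ | h)
      · rw [h1, h2]; omega
      · rw [h1, h2]; omega
      · exact h.1
    · intro h
      tauto
  have h1 : ((-1, -1) : ℤ × ℤ) ∉ insert (0, 1) (knightRegion n) := by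
    rw [mem_insert, mem_knight, Prod.ext_iff]; simp
  have h2 : ((0, 1) : ℤ × ℤ) ∉ knightRegion n := by
    rw [mem_knight]; simp
  rw [← hA, filter_insert, filter_insert]
  split_ifs with h3 h4
  · rw [card_insert_of_notMem, card_insert_of_notMem]
    · push_cast; ring
    · intro h; exact h2 (mem_of_mem_filter _ h)
    · intro h
      rw [mem_insert] at h
      apply h1
      rw [mem_insert]
      rcases h with h | h
      · exact Or.inl h
      · exact Or.inr (mem_of_mem_filter _ h)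
  · rw [card_insert_of_notMem]
    · push_cast; ring
    · intro h
      exact h1 (mem_insert_of_mem (mem_of_mem_filter _ h))
  · rw [card_insert_of_notMem]
    · push_cast; ring
    · intro h; exact h2 (mem_of_mem_filter _ h)
  · ring

theorem above_aztec (n : ℕ) (w : ℤ × ℤ) (hw : w ∈ aztec n) :
    (((aztec n).filter fun q => q.2 - q.1 = w.2 - w.1 ∧ w.1 < q.1).card : ℤ) =
      (n - (w.1 + w.2 + 1)) / 2 := by
  rw [mem_aztec] at hw
  have h : ((aztec n).filter fun q => q.2 - q.1 = w.2 - w.1 ∧ w.1 < q.1) =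
      (range ((n - (w.1 + w.2 + 1)) / 2).toNat).image fun k : ℕ => (w.1 + 1 + k, w.2 + 1 + k) := by
    ext q
    rw [mem_filter, mem_aztec, mem_image]
    simp only [mem_range]
    constructor
    · rintro ⟨h1, h2, h3⟩
      refine ⟨(q.1 - w.1 - 1).toNat, ?_, ?_⟩
      · omega
      · ext
        · simp only; omega
        · simp only; omega
    · rintro ⟨k, hk, rfl⟩
      simp only
      omega
  rw [h, card_image_of_injective, card_range]
  · omega
  · intro a b hab
    rw [Prod.mk.injEq] at hab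
    omega

theorem below_aztec (n : ℕ) (b : ℤ × ℤ) (hb : b ∈ aztec n) :
    (((aztec n).filter fun q => q.2 - q.1 = b.2 - b.1 ∧ q.1 < b.1).card : ℤ) =
      (n + (b.1 + b.2 + 1)) / 2 := by
  rw [mem_aztec] at hb
  have h : ((aztec n).filter fun q => q.2 - q.1 = b.2 - b.1 ∧ q.1 < b.1) =
      (range ((n + (b.1 + b.2 + 1)) / 2).toNat).image fun k : ℕ => (b.1 - 1 - k, b.2 - 1 - k) := by
    ext q
    rw [mem_filter, mem_aztec, mem_image]
    simp only [mem_range]
    constructor
    · rintro ⟨h1, h2, h3⟩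
      refine ⟨(b.1 - 1 - q.1).toNat, ?_, ?_⟩
      · omega
      · ext
        · simp only; omega
        · simp only; omega
    · rintro ⟨k, hk, rfl⟩
      simp only
      omega
  rw [h, card_image_of_injective, card_range]
  · omega
  · intro x y hxy
    rw [Prod.mk.injEq] at hxy
    omega

/-- explicit form of the Kasteleyn signs of the region -/
theorem kast_knight (n : ℕ) (hn : 2 ≤ n) (b w : ℤ × ℤ) (hb : b ∈ knightRegion n)
    (hw : w ∈ knightRegion n) :
    kast (knightRegion n) b w = if Adj w b then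
      (if b.2 - b.1 = w.2 - w.1 + 1 then
        sg ((n - (w.1 + w.2 + 1)) / 2 - (if 0 = w.2 - w.1 ∧ w.1 < -1 then 1 else 0)
          - (if 1 = w.2 - w.1 ∧ w.1 < 0 then 1 else 0) +
          ((n + (b.1 + b.2 + 1)) / 2 - (if 0 = b.2 - b.1 ∧ -1 < b.1 then 1 else 0)
          - (if 1 = b.2 - b.1 ∧ 0 < b.1 then 1 else 0)))
        else 1) else 0 := by
  have hA : ∀ p, p ∈ knightRegion n → p ∈ aztec n := by
    intro p hp
    rw [mem_aztec]; exact ((mem_knight n p).mp hp).1
  unfold kast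
  congr 1
  congr 1
  rw [sg_nat, Nat.cast_add]
  congr 1
  congr 1
  · unfold above
    rw [card_filter_knight n hn, above_aztec n w (hA w hw)]
    simp only [sub_neg_eq_add, neg_add_cancel, sub_zero]
  · unfold below
    rw [card_filter_knight n hn, below_aztec n b (hA b hb)]
    simp only [sub_neg_eq_add, neg_add_cancel, sub_zero]

end Pool.Agent.H415R2.Knight
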