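import Mathlib

namespace Pool.Agent.H415R2.Knight

open Polynomial Finset

/-- central coefficients -/
noncomputable def q (m x : ℕ) : ℚ := ((1 + X) ^ x * (1 - X) ^ (2 * m - x) : ℚ[X]).coeff m

theorem coeff_X_mul_derivative (p : ℚ[X]) (t : ℕ) : (X * derivative p).coeff t = t * p.coeff t := by
  cases t with
  | zero => simp
  | succ t => rw [coeff_X_mul, coeff_derivative]; push_cast; ring

theorem q_rec (m x : ℕ) (hx : x + 2 ≤ 2 * m) :
    (2 * m - (x + 1) : ℚ) * q m (x + 2) = - ((x + 1 : ℚ) * q m x) := by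
  obtain ⟨b, hb⟩ := Nat.exists_eq_add_of_le hx
  have e1 : 2 * m - (x + 2) = b := by omega
  have e2 : 2 * m - x = b + 2 := by omega
  have hb' : (2 * m : ℚ) = x + 2 + b := by exact_mod_cast hb
  have key : (C ((b : ℚ) + 1)) * ((1 + X) ^ (x + 2) * (1 - X) ^ b) +
      C ((x : ℚ) + 1) * ((1 + X) ^ x * (1 - X) ^ (b + 2)) =
      C (2 * m : ℚ) * ((1 + X) ^ (x + 1) * (1 - X) ^ (b + 1)) -
      C 2 * (X * derivative ((1 + X) ^ (x + 1) * (1 - X) ^ (b + 1) : ℚ[X])) := by
    rw [derivative_mul, derivative_pow, derivative_pow, derivative_add, derivative_sub,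
      derivative_one, derivative_X, hb']
    simp only [map_add, map_natCast, map_ofNat, map_one, Nat.add_sub_cancel, Nat.cast_add,
      Nat.cast_one]
    ring
  have h := congrArg (fun p => coeff p m) key
  simp only [coeff_add, coeff_sub, coeff_C_mul, coeff_X_mul_derivative] at h
  unfold q
  rw [e1, e2]
  linear_combination h - (((1 + X) ^ (x + 2) * (1 - X) ^ b : ℚ[X]).coeff m) * (- hb')

theorem q_one (m : ℕ) (hm : 1 ≤ m) : q m 1 = 0 := by
  obtain ⟨b, hb⟩ : ∃ b, 2 * m = b + 1 := ⟨2 * m - 1, by omega⟩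
  have e1 : 2 * m - 1 = b := by omega
  have hb' : (2 * m : ℚ) = b + 1 := by exact_mod_cast hb
  have key : C (2 * m : ℚ) * ((1 + X) ^ 1 * (1 - X) ^ b) =
      C (2 * m : ℚ) * ((1 - X) ^ (b + 1)) -
      C 2 * (X * derivative ((1 - X) ^ (b + 1) : ℚ[X])) := by
    rw [derivative_pow, derivative_sub,
      derivative_one, derivative_X, hb']
    simp only [map_add, map_natCast, map_ofNat, map_one, Nat.add_sub_cancel, Nat.cast_add,
      Nat.cast_one]
    ring
  have h := congrArg (fun p => coeff p m) key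
  simp only [coeff_sub, coeff_C_mul, coeff_X_mul_derivative] at h
  unfold q
  rw [e1]
  have h2 : (2 * m : ℚ) * (((1 + X) ^ 1 * (1 - X) ^ b : ℚ[X]).coeff m) = 0 := by
    rw [h]; ring
  have h3 : (2 * m : ℚ) ≠ 0 := by
    have : (0 : ℚ) < m := by exact_mod_cast hm
    positivity
  exact (mul_eq_zero.mp h2).resolve_left h3

theorem q_odd (m j : ℕ) (hj : j < m) : q m (2 * j + 1) = 0 := by
  induction j with
  | zero => exact q_one m (by omega)
  | succ j ih =>
    have h := q_rec m (2 * j + 1) (by omega)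
    rw [ih (by omega), mul_zero, neg_zero] at h
    have h3 : (2 * m - ((2 * j + 1 : ℕ) + 1) : ℚ) ≠ 0 := by
      have : ((j : ℚ) + 1) < m := by exact_mod_cast hj
      push_cast
      intro hc
      linarith
    have := (mul_eq_zero.mp h).resolve_left h3
    rw [show 2 * (j + 1) + 1 = 2 * j + 1 + 2 from by ring]
    exact this

theorem q_zero (m : ℕ) : q m 0 = (-1) ^ m * (Nat.centralBinom m : ℚ) := by
  unfold q
  have h : ((1 - X : ℚ[X]) ^ (2 * m)) = (X + C (-1)) ^ (2 * m) := by
    rw [pow_mul, pow_mul]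
    congr 1
    rw [map_neg, map_one]; ring
  rw [pow_zero, one_mul, Nat.sub_zero, h, coeff_X_add_C_pow]
  rw [Nat.centralBinom_eq_two_mul_choose, show 2 * m - m = m from by omega]

/-- products of central binomial coefficients -/
def u (m j : ℕ) : ℚ := (Nat.centralBinom j : ℚ) * (Nat.centralBinom (m - j) : ℚ)

theorem cb_succ (j : ℕ) : ((j : ℚ) + 1) * (Nat.centralBinom (j + 1) : ℚ) =
    2 * (2 * j + 1) * (Nat.centralBinom j : ℚ) := by
  have := Nat.succ_mul_centralBinom_succ j
  exact_mod_cast this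

theorem u_rec (m j : ℕ) (hj : j < m) :
    ((j : ℚ) + 1) * (2 * m - 2 * j - 1) * u m (j + 1) = (m - j) * (2 * j + 1) * u m j := by
  unfold u
  obtain ⟨d, rfl⟩ : ∃ d, m = j + 1 + d := ⟨m - (j + 1), by omega⟩
  rw [show j + 1 + d - (j + 1) = d from by omega, show j + 1 + d - j = d + 1 from by omega]
  have h1 := cb_succ j
  have h2 := cb_succ d
  push_cast
  linear_combination (2 * (d : ℚ) + 1) * (Nat.centralBinom d : ℚ) * h1 -
    (2 * (j : ℚ) + 1) * (Nat.centralBinom j : ℚ) * h2

theorem choose_succ_q (m j : ℕ) (hj : j < m) :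
    ((j : ℚ) + 1) * (m.choose (j + 1) : ℚ) = (m - j) * (m.choose j : ℚ) := by
  have h := Nat.choose_succ_right_eq m j
  have h2 : ((m.choose (j + 1) * (j + 1) : ℕ) : ℚ) = ((m.choose j * (m - j) : ℕ) : ℚ) := by
    exact_mod_cast h
  push_cast [Nat.cast_sub hj.le] at h2
  linarith

theorem q_even (m j : ℕ) (hj : j ≤ m) :
    (-1) ^ (m - j) * (m.choose j : ℚ) * q m (2 * j) = u m j := by
  induction j with
  | zero =>
    rw [mul_zero, q_zero, Nat.choose_zero_right]
    unfold u
    rw [Nat.centralBinom_zero, Nat.sub_zero]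
    have : ((-1 : ℚ) ^ m) * (-1) ^ m = 1 := by rw [← mul_pow]; norm_num
    push_cast
    linear_combination (Nat.centralBinom m : ℚ) * this
  | succ j ih =>
    have hj' : j < m := by omega
    have h1 := ih hj'.le
    have h2 := q_rec m (2 * j) (by omega)
    have h3 := choose_succ_q m j hj'
    have h4 := u_rec m j hj'
    have hjm : (j : ℚ) < m := by exact_mod_cast hj'
    have hjm' : (j : ℚ) + 1 ≤ m := by exact_mod_cast hj'
    have h5 : (2 * (m : ℚ) - 2 * j - 1) ≠ 0 := by
      intro hc; linarith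
    have h6 : ((j : ℚ) + 1) ≠ 0 := by positivity
    have hsign : ((-1 : ℚ)) ^ (m - j) = - (-1) ^ (m - (j + 1)) := by
      rw [show m - j = (m - (j + 1)) + 1 from by omega, pow_succ]; ring
    apply mul_left_cancel₀ (mul_ne_zero h6 h5)
    rw [h4, ← h1, hsign, show 2 * (j + 1) = 2 * j + 2 from by ring]
    push_cast at h2
    set s : ℚ := (-1) ^ (m - (j + 1))
    linear_combination (2 * (m : ℚ) - 2 * j - 1) * s * q m (2 * j + 2) * h3 +
      (m - j) * (m.choose j : ℚ) * s * h2

theorem u_symm (m j : ℕ) (hj : j ≤ m) : u m (m - j) = u m j := by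
  unfold u
  rw [show m - (m - j) = j from by omega, mul_comm]

end Pool.Agent.H415R2.Knight
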