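import Pool.Agent.H626R2.Loc.GDefs

set_option autoImplicit false

namespace Pool.Agent.H626R2.Loc

open MvPolynomial

section gen

variable {K : Type} [Field K] {n : ℕ} {B₀ : Type} [CommRing B₀] [Algebra K B₀]

/-- G1. -/
theorem pderiv_affG {q : ℕ} (s : Fin q → Fin n) (hs : Function.Injective s) (β : Fin n → B₀)
    (b : Fin q) (f : MvPolynomial (Fin n) K) :
    pderiv b (affG K s β f) = affG K s β (pderiv (s b) f) := by
  classical
  induction f using MvPolynomial.induction_on with
  | C c =>
    rw [pderiv_C, map_zero, ← MvPolynomial.algebraMap_eq, AlgHom.commutes,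
      MvPolynomial.algebraMap_apply, pderiv_C]
  | add p r hp hr => rw [map_add, map_add, map_add, map_add, hp, hr]
  | mul_X p m hp =>
    have hX : pderiv b (affG K s β (X m)) = affG K s β (pderiv (s b) (X m)) := by
      have h1 : affG K s β (X m) = C (β m) + ∑ b, if s b = m then X b else 0 :=
        MvPolynomial.aeval_X _ m
      rw [h1, map_add, pderiv_C, zero_add, map_sum]
      by_cases h : s b = m
      · rw [Finset.sum_eq_single b]
        · rw [if_pos h, pderiv_X_self, ← h, pderiv_X_self, map_one]
        · intro b' _ hb'
          by_cases h2 : s b' = m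
          · rw [if_pos h2, pderiv_X_of_ne hb']
          · rw [if_neg h2, map_zero]
        · intro hb
          exact absurd (Finset.mem_univ b) hb
      · rw [Finset.sum_eq_zero, pderiv_X_of_ne (fun h2 => h h2.symm), map_zero]
        intro b' _
        by_cases h2 : s b' = m
        · rw [if_pos h2, pderiv_X_of_ne]
          rintro rfl
          exact h h2
        · rw [if_neg h2, map_zero]
    rw [map_mul, pderiv_mul, pderiv_mul, hp, hX, map_add, map_mul, map_mul]

end gen

end Pool.Agent.H626R2.Loc
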