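import Pool.Agent.H626R2.Loc.ODefs

set_option autoImplicit false

namespace Pool.Agent.H626R2.Loc

open MvPolynomial

variable {K : Type} [Field K] {n : ℕ}

/-- O7a. -/
theorem subset_occ {S : Set (MvPolynomial (Fin n) K)} {c : ℕ} (hc : 1 ≤ c) : S ⊆ Occ c S := by
  intro σ hσ
  refine ⟨1, 1, fun _ => 1, fun _ _ => σ, fun _ _ => 1, fun _ _ => hσ, fun m => ?_, ?_⟩
  · refine le_trans (Set.ncard_le_one_of_subsingleton _) hc
  · simp

/-- O7b. -/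
theorem zero_mem_simpleS (L s d : ℕ) : (0 : MvPolynomial (Fin n) K) ∈ SimpleS n K L s d := by
  refine Or.inl ⟨fun _ => 0, 0, fun m => ?_, ?_, fun m => ?_, ?_⟩ <;> simp

/-- O7c. -/
theorem CoefFin.fin {S : Set (MvPolynomial (Fin n) K)} (h0 : (0 : MvPolynomial (Fin n) K) ∈ S)
    {k c : ℕ} (h : CoefFin S k c) : ∀ r ≤ k, ∀ s : Fin r → Fin n, Function.Injective s → ∀ σ ∈ S,
      ∃ F : Fin c → MvPolynomial (Fin n) K, (∀ i, F i ∈ S) ∧
      ∀ m, (ren s σ).coeff m ∈ Algebra.adjoin K (Set.range F) := by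
  intro r hr s hs σ hσ
  obtain ⟨U, hU, hUS, hco⟩ := h r hr s hs σ hσ
  refine ⟨fun i => if hi : (i : ℕ) < U.card then (U.equivFin.symm ⟨i, hi⟩ : MvPolynomial (Fin n) K)
    else 0, fun i => ?_, fun m => ?_⟩
  · dsimp only
    split_ifs with hi
    · exact hUS _ (U.equivFin.symm ⟨i, hi⟩).2
    · exact h0
  · refine Algebra.adjoin_mono ?_ (hco m)
    intro g hg
    refine ⟨⟨U.equivFin ⟨g, hg⟩, lt_of_lt_of_le (U.equivFin ⟨g, hg⟩).2 hU⟩, ?_⟩
    dsimp only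
    rw [dif_pos (U.equivFin ⟨g, hg⟩).2]
    simp

end Pool.Agent.H626R2.Loc
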