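import Pool.Agent.H679R2.Mix.Abs

/-!
# T4 (MP_8006ab_lc): abstract recolouring lemmas `deg_lemma` and `unravel`
-/

namespace Pool.Agent.NPC.Mix.T4

open Pool.Agent.NPC.Mix

section General

variable {Λ : Type*} [DecidableEq Λ]

/-- recolour one vertex -/
theorem step_upd {adj : Λ → Λ → Prop} (hsym : ∀ a b, adj a b → adj b a) (hirr : ∀ a, ¬ adj a a)
    {φ : Λ → Fin 4} (hφ : Prp adj φ) (v : Λ) (c : Fin 4) (h : ∀ y, adj v y → φ y ≠ c) :
    Rc adj φ (Function.update φ v c) := by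
  refine ⟨hφ, ?_, v, fun u hu => Function.update_of_ne hu _ _⟩
  intro a b hab
  by_cases ha : a = v
  · subst ha
    have hb : b ≠ a := by rintro rfl; exact hirr _ hab
    rw [Function.update_self, Function.update_of_ne hb]
    exact (h b hab).symm
  · by_cases hb : b = v
    · subst hb
      rw [Function.update_self, Function.update_of_ne ha]
      exact h a (hsym _ _ hab)
    · rw [Function.update_of_ne ha, Function.update_of_ne hb]
      exact hφ a b hab

/-- a fourth colour -/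
theorem exists_col (x y z : Fin 4) : ∃ d : Fin 4, x ≠ d ∧ y ≠ d ∧ z ≠ d := by
  revert x y z; decide

/-- lifting a recolouring path over a vertex with at most two neighbours -/
theorem lift_two {adj : Λ → Λ → Prop} (hsym : ∀ a b, adj a b → adj b a) (hirr : ∀ a, ¬ adj a a)
    (v n₁ n₂ : Λ) (hn : ∀ u, adj v u → u = n₁ ∨ u = n₂) {φ χ' : Λ → Fin 4} (hφ : Prp adj φ)
    (hr : Rch (fun a b => adj a b ∧ a ≠ v ∧ b ≠ v) φ χ') :
    ∃ χ, Rch adj φ χ ∧ Prp adj χ ∧ ∀ u, u ≠ v → χ u = χ' u := by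
  induction hr with
  | refl => exact ⟨φ, Relation.ReflTransGen.refl, hφ, fun _ _ => rfl⟩
  | @tail χ₁ χ₂ _ hs ih =>
    obtain ⟨χ, hr, hp, he⟩ := ih
    obtain ⟨_, hp2, u₀, hu₀⟩ := hs
    by_cases h0 : u₀ = v
    · subst h0
      exact ⟨χ, hr, hp, fun u hu => by rw [he u hu, hu₀ u hu]⟩
    · obtain ⟨d, hd1, hd2, hd3⟩ := exists_col (χ n₁) (χ n₂) (χ₂ u₀)
      have s1 : Rc adj χ (Function.update χ v d) := by
        refine step_upd hsym hirr hp v d ?_
        intro y hy
        rcases hn y hy with rfl | rfl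
        · exact hd1
        · exact hd2
      have s2 : Rc adj (Function.update χ v d)
          (Function.update (Function.update χ v d) u₀ (χ₂ u₀)) := by
        refine step_upd hsym hirr s1.2.1 u₀ _ ?_
        intro y hy
        by_cases hyv : y = v
        · subst hyv
          rw [Function.update_self]
          exact hd3.symm
        · rw [Function.update_of_ne hyv, he y hyv]
          have hy0 : y ≠ u₀ := by rintro rfl; exact hirr _ hy
          rw [← hu₀ y hy0]
          exact hp2 y u₀ ⟨hsym _ _ hy, hyv, h0⟩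
      refine ⟨_, (hr.tail s1).tail s2, s2.2.1, ?_⟩
      intro u hu
      by_cases hu0 : u = u₀
      · subst hu0
        rw [Function.update_self]
      · rw [Function.update_of_ne hu0, Function.update_of_ne hu, he u hu, hu₀ u hu0]

theorem deg_aux (ψ : Λ → Fin 4) (n : ℕ) : ∀ (adj : Λ → Λ → Prop)
    (_ : ∀ a b, adj a b → adj b a) (_ : ∀ a, ¬ adj a a) (R : Finset Λ)
    (_ : ∀ a b, adj a b → a ∈ R) (rk : Λ → ℕ)
    (_ : ∀ v, ∃ n₁ n₂, ∀ u, adj v u → rk u ≤ rk v → u = n₁ ∨ u = n₂)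
    (φ : Λ → Fin 4) (_ : Prp adj φ) (_ : Prp adj ψ), R.card = n →
    ∃ χ, Rch adj φ χ ∧ ∀ u ∈ R, χ u = ψ u := by
  induction n with
  | zero =>
    intro adj hsym hirr R hR rk hrk φ hφ hψ hc
    rw [Finset.card_eq_zero] at hc
    subst hc
    exact ⟨φ, Relation.ReflTransGen.refl, fun u hu => absurd hu (Finset.notMem_empty u)⟩
  | succ n ih =>
    intro adj hsym hirr R hR rk hrk φ hφ hψ hc
    have hne : R.Nonempty := by
      rw [← Finset.card_pos]; omega
    obtain ⟨v, hv, hmax⟩ := Finset.exists_max_image R rk hne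
    obtain ⟨n₁, n₂, hn⟩ := hrk v
    have hn' : ∀ u, adj v u → u = n₁ ∨ u = n₂ := fun u hu =>
      hn u hu (hmax u (hR u v (hsym _ _ hu)))
    obtain ⟨χ', hr', he'⟩ := ih (fun a b => adj a b ∧ a ≠ v ∧ b ≠ v)
      (fun a b h => ⟨hsym _ _ h.1, h.2.2, h.2.1⟩) (fun a h => hirr a h.1) (R.erase v)
      (fun a b h => Finset.mem_erase.2 ⟨h.2.1, hR a b h.1⟩) rk
      (fun x => by
        obtain ⟨p, q, h⟩ := hrk x
        exact ⟨p, q, fun u hu => h u hu.1⟩)
      φ (fun a b h => hφ a b h.1) (fun a b h => hψ a b h.1)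
      (by rw [Finset.card_erase_of_mem hv]; omega)
    obtain ⟨χ, hr, hp, he⟩ := lift_two hsym hirr v n₁ n₂ hn' hφ hr'
    have s : Rc adj χ (Function.update χ v (ψ v)) := by
      refine step_upd hsym hirr hp v _ ?_
      intro y hy
      have hyv : y ≠ v := by rintro rfl; exact hirr _ hy
      rw [he y hyv, he' y (Finset.mem_erase.2 ⟨hyv, hR y v (hsym _ _ hy)⟩)]
      exact hψ y v (hsym _ _ hy)
    refine ⟨_, hr.tail s, ?_⟩
    intro u hu
    by_cases huv : u = v
    · subst huv; rw [Function.update_self]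
    · rw [Function.update_of_ne huv, he u huv, he' u (Finset.mem_erase.2 ⟨huv, hu⟩)]

/-- T4a -/
theorem deg_lemma (adj : Λ → Λ → Prop)
    (hsym : ∀ a b, adj a b → adj b a) (hirr : ∀ a, ¬ adj a a) (R : Finset Λ)
    (hR : ∀ a b, adj a b → a ∈ R) (rk : Λ → ℕ)
    (hrk : ∀ v, ∃ n₁ n₂, ∀ u, adj v u → rk u ≤ rk v → u = n₁ ∨ u = n₂)
    (φ ψ : Λ → Fin 4) (hφ : Prp adj φ) (hψ : Prp adj ψ) :
    ∃ χ, Rch adj φ χ ∧ ∀ u ∈ R, χ u = ψ u :=
  deg_aux ψ R.card adj hsym hirr R hR rk hrk φ hφ hψ rfl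

end General

section Unravel

variable {Λ : Type*} [DecidableEq Λ]

/-- an unfrozen vertex can unfreeze an adjacent vertex of degree at most three -/
theorem travel {adj : Λ → Λ → Prop} (hsym : ∀ a b, adj a b → adj b a) (hirr : ∀ a, ¬ adj a a)
    {φ : Λ → Fin 4} (hφ : Prp adj φ) {p q : Λ} (hpq : adj p q)
    (hq : ∃ n₁ n₂ n₃, ∀ u, adj q u → u = n₁ ∨ u = n₂ ∨ u = n₃) (hu : ¬ Frz adj φ p) :
    ∃ ψ, Rch adj φ ψ ∧ Prp adj ψ ∧ ¬ Frz adj ψ q := by
  by_cases hf : Frz adj φ q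
  · unfold Frz at hu
    push Not at hu
    obtain ⟨c, hc, hcn⟩ := hu
    have s : Rc adj φ (Function.update φ p c) :=
      step_upd hsym hirr hφ p c hcn
    refine ⟨_, Relation.ReflTransGen.single s, s.2.1, ?_⟩
    have hqp : q ≠ p := by rintro rfl; exact hirr _ hpq
    intro hf'
    obtain ⟨u, hu1, hu2⟩ := hf' (φ p) (by
      rw [Function.update_of_ne hqp]; exact hφ p q hpq)
    have hup : u ≠ p := by
      rintro rfl
      rw [Function.update_self] at hu2
      exact hc hu2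
    rw [Function.update_of_ne hup] at hu2
    obtain ⟨n₁, n₂, n₃, hn⟩ := hq
    set N : Finset Λ := {n₁, n₂, n₃} with hN
    have hcard : N.card ≤ 3 := Finset.card_le_three
    have himg : Finset.univ.erase (φ q) ⊆ N.image φ := by
      intro d hd
      obtain ⟨x, hx1, hx2⟩ := hf d (Finset.ne_of_mem_erase hd)
      rw [Finset.mem_image]
      refine ⟨x, ?_, hx2⟩
      rw [hN]
      simpa using hn x hx1
    have h3 : (Finset.univ.erase (φ q)).card = 3 := by
      rw [Finset.card_erase_of_mem (Finset.mem_univ _)]; simp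
    have h4 := Finset.card_le_card himg
    have h5 : (N.image φ).card ≤ N.card := Finset.card_image_le
    have h6 : (N.image φ).card = N.card := by omega
    have hinj := Finset.card_image_iff.1 h6
    apply hup
    apply hinj _ _ hu2
    · have := hn u hu1
      rw [hN]; simpa using this
    · have := hn p (hsym _ _ hpq)
      rw [hN]; simpa using this
  · exact ⟨φ, Relation.ReflTransGen.refl, hφ, hf⟩

theorem travel_path {adj : Λ → Λ → Prop} (hsym : ∀ a b, adj a b → adj b a)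
    (hirr : ∀ a, ¬ adj a a) (P : Λ → Prop)
    (hP : ∀ p, P p → ∃ n₁ n₂ n₃, ∀ u, adj p u → u = n₁ ∨ u = n₂ ∨ u = n₃)
    {φ : Λ → Fin 4} (hφ : Prp adj φ) {p w : Λ}
    (h : Relation.ReflTransGen (fun p q => adj p q ∧ P p ∧ P q) p w) (hu : ¬ Frz adj φ p) :
    ∃ ψ, Rch adj φ ψ ∧ Prp adj ψ ∧ ¬ Frz adj ψ w := by
  induction h with
  | refl => exact ⟨φ, Relation.ReflTransGen.refl, hφ, hu⟩
  | @tail b c _ hbc ih =>
    obtain ⟨ψ, h1, h2, h3⟩ := ih
    obtain ⟨ψ', h1', h2', h3'⟩ := travel hsym hirr h2 hbc.1 (hP _ hbc.2.2) h3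
    exact ⟨ψ', Relation.ReflTransGen.trans h1 h1', h2', h3'⟩

theorem two_equal (x y z e f : Fin 4) (hef : f ≠ e) (h1 : x ≠ e) (h2 : y ≠ e) (h3 : z ≠ e)
    (h1' : x ≠ f) (h2' : y ≠ f) (h3' : z ≠ f) : x = y ∨ x = z ∨ y = z := by
  simp only [ne_eq, Fin.ext_iff] at *
  omega

omit [DecidableEq Λ] in
theorem nb_exact {adj : Λ → Λ → Prop} {w m₁ m₂ m₃ : Λ}
    (hw : ∃ n₁ n₂ n₃, ∀ u, adj w u → u = n₁ ∨ u = n₂ ∨ u = n₃)
    (hm₁ : adj w m₁) (hm₂ : adj w m₂) (hm₃ : adj w m₃)
    (h12 : m₁ ≠ m₂) (h13 : m₁ ≠ m₃) (h23 : m₂ ≠ m₃) :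
    ∀ u, adj w u → u = m₁ ∨ u = m₂ ∨ u = m₃ := by
  obtain ⟨n₁, n₂, n₃, hn⟩ := hw
  intro u hu
  have a1 := hn _ hm₁
  have a2 := hn _ hm₂
  have a3 := hn _ hm₃
  have a4 := hn _ hu
  rcases a1 with a1 | a1 | a1 <;> rcases a2 with a2 | a2 | a2 <;>
    rcases a3 with a3 | a3 | a3 <;> rcases a4 with a4 | a4 | a4 <;>
    subst a1 <;> simp_all

/-- lifting over the merge -/
theorem lift_mrg {adj : Λ → Λ → Prop} (hsym : ∀ a b, adj a b → adj b a)
    (hirr : ∀ a, ¬ adj a a) (w a b m : Λ) (hab : a ≠ b) (hnab : ¬ adj a b)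
    (hwa : adj w a) (hwb : adj w b) (hma : m ≠ a) (hmb : m ≠ b)
    (hn : ∀ u, adj w u → u = a ∨ u = b ∨ u = m) {φ χ : Λ → Fin 4} (hφ : Prp adj φ)
    (hφab : φ b = φ a) (hr : Rch (Mrg adj w a b) φ χ) :
    ∃ ψ, Rch adj φ ψ ∧ Prp adj ψ ∧ ψ b = ψ a ∧ ∀ u, u ≠ w → u ≠ b → ψ u = χ u := by
  have haw : a ≠ w := by rintro rfl; exact hirr _ hwa
  have hbw : b ≠ w := by rintro rfl; exact hirr _ hwb
  induction hr with
  | refl => exact ⟨φ, Relation.ReflTransGen.refl, hφ, hφab, fun _ _ _ => rfl⟩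
  | @tail χ₁ χ₂ _ hs ih =>
    obtain ⟨ψ, hr, hp, hba, he⟩ := ih
    obtain ⟨_, hp2, u₀, hu₀⟩ := hs
    by_cases h0 : u₀ = w ∨ u₀ = b
    · refine ⟨ψ, hr, hp, hba, fun u hu hu' => ?_⟩
      rw [he u hu hu', hu₀ u ?_]
      rintro rfl
      rcases h0 with h | h
      · exact hu h
      · exact hu' h
    · push Not at h0
      obtain ⟨h0w, h0b⟩ := h0
      obtain ⟨d, hd1, hd2, hd3⟩ := exists_col (ψ a) (ψ m) (χ₂ u₀)
      -- step 1: recolour w
      have s1 : Rc adj ψ (Function.update ψ w d) := by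
        refine step_upd hsym hirr hp w d ?_
        intro y hy
        rcases hn y hy with rfl | rfl | rfl
        · exact hd1
        · rw [hba]; exact hd1
        · exact hd2
      have s2 : Rc adj (Function.update ψ w d)
          (Function.update (Function.update ψ w d) u₀ (χ₂ u₀)) := by
        refine step_upd hsym hirr s1.2.1 u₀ _ ?_
        intro y hy
        have hy0 : y ≠ u₀ := by rintro rfl; exact hirr _ hy
        by_cases hyw : y = w
        · subst hyw
          rw [Function.update_self]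
          exact hd3.symm
        · rw [Function.update_of_ne hyw]
          by_cases hyb : y = b
          · subst hyb
            -- adj u₀ b, so u₀ ≠ a
            have hu0a : u₀ ≠ a := by rintro rfl; exact hnab hy
            rw [hba, he a haw hab, ← hu₀ a hu0a.symm]
            exact hp2 a u₀ ⟨haw, hab, h0w, h0b, Or.inr (Or.inl ⟨rfl, hsym _ _ hy⟩)⟩
          · rw [he y hyw hyb, ← hu₀ y hy0]
            exact hp2 y u₀ ⟨hyw, hyb, h0w, h0b, Or.inl (hsym _ _ hy)⟩
      by_cases h0a : u₀ = a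
      · subst h0a
        have s3 : Rc adj (Function.update (Function.update ψ w d) u₀ (χ₂ u₀))
            (Function.update (Function.update (Function.update ψ w d) u₀ (χ₂ u₀)) b (χ₂ u₀)) := by
          refine step_upd hsym hirr s2.2.1 b _ ?_
          intro y hy
          have hyb : y ≠ b := by rintro rfl; exact hirr _ hy
          have hya : y ≠ u₀ := by rintro rfl; exact hnab (hsym _ _ hy)
          rw [Function.update_of_ne hya]
          by_cases hyw : y = w
          · subst hyw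
            rw [Function.update_self]
            exact hd3.symm
          · rw [Function.update_of_ne hyw, he y hyw hyb, ← hu₀ y hya]
            exact hp2 y u₀ ⟨hyw, hyb, h0w, h0b, Or.inr (Or.inr ⟨rfl, hsym _ _ hy⟩)⟩
        refine ⟨_, ((hr.tail s1).tail s2).tail s3, s3.2.1, ?_, ?_⟩
        · rw [Function.update_self, Function.update_of_ne hab, Function.update_self]
        · intro u hu hu'
          rw [Function.update_of_ne hu']
          by_cases hu0 : u = u₀
          · subst hu0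
            rw [Function.update_self]
          · rw [Function.update_of_ne hu0, Function.update_of_ne hu, he u hu hu', hu₀ u hu0]
      · refine ⟨_, (hr.tail s1).tail s2, s2.2.1, ?_, ?_⟩
        · rw [Function.update_of_ne (Ne.symm h0b), Function.update_of_ne hbw,
            Function.update_of_ne (Ne.symm h0a), Function.update_of_ne haw, hba]
        · intro u hu hu'
          by_cases hu0 : u = u₀
          · subst hu0
            rw [Function.update_self]
          · rw [Function.update_of_ne hu0, Function.update_of_ne hu, he u hu hu', hu₀ u hu0]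

omit [DecidableEq Λ] in
theorem stdc_ne {side : Λ → Bool} {x y : Λ} (h : side x ≠ side y) :
    stdc side x ≠ stdc side y := by
  unfold stdc
  cases hx : side x <;> cases hy : side y <;> simp_all

theorem bool_third {x y z : Bool} (h1 : z ≠ x) (h2 : z ≠ y) : x = y := by
  revert x y z; decide

/-- the end of the argument, once two neighbours of `w` have the same colour -/
theorem finish (adj : Λ → Λ → Prop)
    (hsym : ∀ a b, adj a b → adj b a) (side : Λ → Bool)
    (hside : ∀ a b, adj a b → side a ≠ side b) (R : Finset Λ) (hR : ∀ a b, adj a b → a ∈ R)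
    (w : Λ)
    (hord : ∀ a b, adj w a → adj w b → a ≠ b → ∃ rk : Λ → ℕ, ∀ v, ∃ n₁ n₂, ∀ u,
      Mrg adj w a b v u → rk u ≤ rk v → u = n₁ ∨ u = n₂)
    (a b m : Λ) (hwa : adj w a) (hwb : adj w b) (hab : a ≠ b)
    (hma : m ≠ a) (hmb : m ≠ b) (hn : ∀ u, adj w u → u = a ∨ u = b ∨ u = m)
    (φ : Λ → Fin 4) (hφ : Prp adj φ) (hφab : φ a = φ b) :
    ∃ ψ, Rch adj φ ψ ∧ ∀ u ∈ R, ψ u = stdc side u := by
  have hirr : ∀ a, ¬ adj a a := fun a h => hside a a h rfl
  have hsab : side a = side b := bool_third (hside _ _ hwa) (hside _ _ hwb)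
  have hnab : ¬ adj a b := fun h => hside _ _ h hsab
  obtain ⟨rk, hrk⟩ := hord a b hwa hwb hab
  have haR : a ∈ R := hR a w (hsym _ _ hwa)
  obtain ⟨χ, hr, he⟩ := deg_lemma (Mrg adj w a b)
    (by
      rintro u v ⟨h1, h2, h3, h4, h5⟩
      refine ⟨h3, h4, h1, h2, ?_⟩
      rcases h5 with h5 | ⟨h5, h6⟩ | ⟨h5, h6⟩
      · exact Or.inl (hsym _ _ h5)
      · exact Or.inr (Or.inr ⟨h5, hsym _ _ h6⟩)
      · exact Or.inr (Or.inl ⟨h5, hsym _ _ h6⟩))
    (by
      rintro u ⟨h1, h2, h3, h4, h5⟩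
      rcases h5 with h5 | ⟨h5, h6⟩ | ⟨h5, h6⟩
      · exact hirr _ h5
      · subst h5; exact hnab (hsym _ _ h6)
      · subst h5; exact hnab h6)
    R
    (by
      rintro u v ⟨h1, h2, h3, h4, h5⟩
      rcases h5 with h5 | ⟨h5, h6⟩ | ⟨h5, h6⟩
      · exact hR _ _ h5
      · subst h5; exact haR
      · exact hR _ _ h6)
    rk hrk φ (stdc side)
    (by
      rintro u v ⟨h1, h2, h3, h4, h5⟩
      rcases h5 with h5 | ⟨h5, h6⟩ | ⟨h5, h6⟩
      · exact hφ _ _ h5
      · subst h5; rw [hφab]; exact hφ _ _ h6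
      · subst h5; rw [hφab]; exact hφ _ _ h6)
    (by
      rintro u v ⟨h1, h2, h3, h4, h5⟩
      rcases h5 with h5 | ⟨h5, h6⟩ | ⟨h5, h6⟩
      · exact stdc_ne (hside _ _ h5)
      · subst h5; apply stdc_ne; rw [hsab]; exact hside _ _ h6
      · subst h5; apply stdc_ne; rw [hsab]; exact hside _ _ h6)
  obtain ⟨ψ, hr', hp, hba, he'⟩ := lift_mrg hsym hirr w a b m hab hnab hwa hwb hma hmb hn hφ
    hφab.symm hr
  have haw : a ≠ w := by rintro rfl; exact hirr _ hwa
  have hψ : ∀ u ∈ R, u ≠ w → ψ u = stdc side u := by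
    intro u hu huw
    by_cases hub : u = b
    · subst hub
      rw [hba, he' a haw hab, he a haR]
      unfold stdc
      rw [hsab]
    · rw [he' u huw hub, he u hu]
  have s : Rc adj ψ (Function.update ψ w (stdc side w)) := by
    refine step_upd hsym hirr hp w _ ?_
    intro y hy
    have hyw : y ≠ w := by rintro rfl; exact hirr _ hy
    rw [hψ y (hR y w (hsym _ _ hy)) hyw]
    exact (stdc_ne (hside _ _ hy)).symm
  refine ⟨_, hr'.tail s, ?_⟩
  intro u hu
  by_cases huw : u = w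
  · subst huw; rw [Function.update_self]
  · rw [Function.update_of_ne huw]; exact hψ u hu huw

/-- T4b -/
theorem unravel (adj : Λ → Λ → Prop)
    (hsym : ∀ a b, adj a b → adj b a) (side : Λ → Bool)
    (hside : ∀ a b, adj a b → side a ≠ side b) (R : Finset Λ) (hR : ∀ a b, adj a b → a ∈ R)
    (P : Λ → Prop) (hP : ∀ p, P p → ∃ n₁ n₂ n₃, ∀ u, adj p u → u = n₁ ∨ u = n₂ ∨ u = n₃)
    (w : Λ) (hw : P w) (m₁ m₂ m₃ : Λ) (hm₁ : adj w m₁) (hm₂ : adj w m₂) (hm₃ : adj w m₃)
    (h12 : m₁ ≠ m₂) (h13 : m₁ ≠ m₃) (h23 : m₂ ≠ m₃)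
    (hconn : ∀ p, P p → Relation.ReflTransGen (fun p q => adj p q ∧ P p ∧ P q) p w)
    (hord : ∀ a b, adj w a → adj w b → a ≠ b → ∃ rk : Λ → ℕ, ∀ v, ∃ n₁ n₂, ∀ u,
      Mrg adj w a b v u → rk u ≤ rk v → u = n₁ ∨ u = n₂)
    (φ : Λ → Fin 4) (hφ : Prp adj φ) (p : Λ) (hp : P p) (hu : ¬ Frz adj φ p) :
    ∃ ψ, Rch adj φ ψ ∧ ∀ u ∈ R, ψ u = stdc side u := by
  have hirr : ∀ a, ¬ adj a a := fun a h => hside a a h rfl
  obtain ⟨φ', hr, hp', huf⟩ := travel_path hsym hirr P hP hφ (hconn p hp) hu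
  have hn := nb_exact (hP w hw) hm₁ hm₂ hm₃ h12 h13 h23
  unfold Frz at huf
  push Not at huf
  obtain ⟨c, hc, hcn⟩ := huf
  have h := two_equal (φ' m₁) (φ' m₂) (φ' m₃) (φ' w) c hc
    (hp' _ _ hm₁).symm (hp' _ _ hm₂).symm (hp' _ _ hm₃).symm (hcn _ hm₁) (hcn _ hm₂) (hcn _ hm₃)
  rcases h with h | h | h
  · obtain ⟨ψ, h1, h2⟩ := finish adj hsym side hside R hR w hord m₁ m₂ m₃ hm₁ hm₂ h12
      h13.symm h23.symm hn φ' hp' h
    exact ⟨ψ, Relation.ReflTransGen.trans hr h1, h2⟩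
  · obtain ⟨ψ, h1, h2⟩ := finish adj hsym side hside R hR w hord m₁ m₃ m₂ hm₁ hm₃ h13
      h12.symm h23 (fun u hu => by
        rcases hn u hu with h | h | h
        · exact Or.inl h
        · exact Or.inr (Or.inr h)
        · exact Or.inr (Or.inl h)) φ' hp' h
    exact ⟨ψ, Relation.ReflTransGen.trans hr h1, h2⟩
  · obtain ⟨ψ, h1, h2⟩ := finish adj hsym side hside R hR w hord m₂ m₃ m₁ hm₂ hm₃ h23
      h12 h13 (fun u hu => by
        rcases hn u hu with h | h | h
        · exact Or.inr (Or.inr h)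
        · exact Or.inl h
        · exact Or.inr (Or.inl h)) φ' hp' h
    exact ⟨ψ, Relation.ReflTransGen.trans hr h1, h2⟩

end Unravel

end Pool.Agent.NPC.Mix.T4
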