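import Pool.Agent.H679R2.Mix.Abs

/-!
# T5a (MP_8006ab_lc): rigidity of the palette chain
-/

namespace Pool.Agent.NPC.Mix.T5a

/-- four distinct elements -/
def D4 {α : Type*} (a b c d : α) : Prop := a ≠ b ∧ a ≠ c ∧ a ≠ d ∧ b ≠ c ∧ b ≠ d ∧ c ≠ d

theorem D4.map {α β : Type*} {f : α → β} (hf : Function.Injective f) {a b c d : α}
    (h : D4 a b c d) : D4 (f a) (f b) (f c) (f d) :=
  ⟨hf.ne h.1, hf.ne h.2.1, hf.ne h.2.2.1, hf.ne h.2.2.2.1, hf.ne h.2.2.2.2.1, hf.ne h.2.2.2.2.2⟩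

theorem fr (x y z w : Fin 4) (h : ∀ c, c ≠ x → y = c ∨ z = c ∨ w = c) : D4 x y z w := by
  unfold D4; revert x y z w; decide

theorem two (x y z w x' w' : Fin 4) (h : D4 x y z w) (h' : D4 x' y z w') (hne : x ≠ x') :
    x = w' ∧ w = x' := by
  unfold D4 at h h'
  simp only [ne_eq, Fin.ext_iff] at *
  omega

theorem last (a b c d e : Fin 4) (h : D4 a b c d) (h1 : e ≠ a) (h2 : e ≠ b) (h3 : e ≠ c) :
    e = d := by
  unfold D4 at h
  simp only [ne_eq, Fin.ext_iff] at *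
  omega

theorem inj4 {α : Type*} (f : Fin 4 → α) (h : D4 (f 1) (f 2) (f 3) (f 0)) :
    Function.Injective f := by
  intro i j hij
  obtain ⟨h1, h2, h3, h4, h5, h6⟩ := h
  fin_cases i <;> fin_cases j <;>
    first
      | rfl
      | exact absurd hij h1
      | exact absurd hij h2
      | exact absurd hij h3
      | exact absurd hij h4
      | exact absurd hij h5
      | exact absurd hij h6
      | exact absurd hij.symm h1
      | exact absurd hij.symm h2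
      | exact absurd hij.symm h3
      | exact absurd hij.symm h4
      | exact absurd hij.symm h5
      | exact absurd hij.symm h6

/-- the normalised statement, with values in `ℕ` -/
theorem core (T : ℕ) (hT : 24 ≤ T) (ψ : ℕ → ℕ → ℕ) (hb : ∀ t i, ψ t i < 4) (z : ℕ) (hz : z < 4)
    (S : ℕ → ℕ → Prop)
    (hS : ∀ t i, S t i → 8 ≤ t ∧ t + 8 < T)
    (hS1 : ∀ t i t' i', S t i → S t' i' → t ≤ t' → t' ≤ t + 2 → t = t' ∧ i = i')
    (hp : ∀ t, t + 1 < T → ∀ i j, i < j → j < 4 → ψ t i ≠ ψ (t + 1) j)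
    (hp' : ∀ i j, i < j → j < 4 → ¬ (i = 0 ∧ j = 2) → ψ (T - 1) i ≠ ψ 0 j)
    (f0 : ∀ t, 1 ≤ t → t + 1 < T → ¬ S t 0 → D4 (ψ t 0) (ψ (t + 1) 1) (ψ (t + 1) 2) (ψ (t + 1) 3))
    (f1 : ∀ t, 1 ≤ t → t + 1 < T → ¬ S t 1 → D4 (ψ t 1) (ψ (t + 1) 2) (ψ (t + 1) 3) (ψ (t - 1) 0))
    (f2 : ∀ t, 1 ≤ t → t + 1 < T → ¬ S t 2 → D4 (ψ t 2) (ψ (t + 1) 3) (ψ (t - 1) 0) (ψ (t - 1) 1))
    (f3 : ∀ t, 1 ≤ t → t + 1 < T → ¬ S t 3 → D4 (ψ t 3) (ψ (t - 1) 0) (ψ (t - 1) 1) (ψ (t - 1) 2))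
    (h01 : D4 (ψ 0 1) (ψ 1 2) (ψ 1 3) (ψ (T - 1) 0))
    (h02 : D4 (ψ 0 2) (ψ 1 3) (ψ (T - 1) 1) z)
    (h03 : D4 (ψ 0 3) (ψ (T - 1) 0) (ψ (T - 1) 1) (ψ (T - 1) 2))
    (hT0 : D4 (ψ (T - 1) 0) (ψ 0 1) (ψ 0 3) (ψ 8 2))
    (hT1 : D4 (ψ (T - 1) 1) (ψ 0 2) (ψ 0 3) (ψ (T - 2) 0))
    (hT2 : D4 (ψ (T - 1) 2) (ψ 0 3) (ψ (T - 2) 0) (ψ (T - 2) 1))
    (hT3 : D4 (ψ (T - 1) 3) (ψ (T - 2) 0) (ψ (T - 2) 1) (ψ (T - 2) 2))
    (c1 : ψ 1 0 = 0 ∧ ψ 1 1 = 1 ∧ ψ 1 2 = 2)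
    (c2 : ψ 2 0 = 0 ∧ ψ 2 1 = 1 ∧ ψ 2 2 = 2 ∧ ψ 2 3 = 3)
    (c3 : ψ 3 0 = 0 ∧ ψ 3 1 = 1 ∧ ψ 3 2 = 2 ∧ ψ 3 3 = 3) :
    (∀ t < T, ψ t 0 = 0 ∧ ψ t 1 = 1 ∧ ψ t 2 = 2 ∧ ψ t 3 = 3) ∧ z = 0 := by
  unfold D4 at *
  have hShigh : ∀ t i, T ≤ t + 8 → ¬ S t i := fun t i h h' => by have := (hS t i h').2; omega
  -- the sweep
  have sweep : ∀ t, 3 ≤ t → t < T → (ψ (t - 1) 0 = 0 ∧ ψ (t - 1) 1 = 1 ∧ ψ (t - 1) 2 = 2 ∧
      ψ (t - 1) 3 = 3) ∧ (ψ t 0 = 0 ∧ ψ t 1 = 1 ∧ ψ t 2 = 2 ∧ ψ t 3 = 3) := by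
    intro t ht
    induction t, ht using Nat.le_induction with
    | base => intro _; exact ⟨c2, c3⟩
    | succ t ht ih =>
      intro htT
      obtain ⟨⟨p0, p1, p2, p3⟩, q0, q1, q2, q3⟩ := ih (by omega)
      have b0 := hb (t + 1) 0
      have b1 := hb (t + 1) 1
      have b2 := hb (t + 1) 2
      have b3 := hb (t + 1) 3
      have g03 := hp t htT 0 3 (by omega) (by omega)
      have g13 := hp t htT 1 3 (by omega) (by omega)
      have g23 := hp t htT 2 3 (by omega) (by omega)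
      have g02 := hp t htT 0 2 (by omega) (by omega)
      have g12 := hp t htT 1 2 (by omega) (by omega)
      have g01 := hp t htT 0 1 (by omega) (by omega)
      have y3 : ψ (t + 1) 3 = 3 := by omega
      have y2 : ψ (t + 1) 2 = 2 := by
        by_cases h1 : S t 1
        · have h0 : ¬ S t 0 := fun h0 => by
            have := (hS1 t 0 t 1 h0 h1 le_rfl (by omega)).2; omega
          have := f0 t (by omega) htT h0
          omega
        · have := f1 t (by omega) htT h1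
          omega
      refine ⟨⟨?_, ?_, ?_, ?_⟩, ?_⟩
      · simpa using q0
      · simpa using q1
      · simpa using q2
      · simpa using q3
      by_cases hlast : t + 2 < T
      · -- the frozen vertex (t + 2, 3)
        have F3 : ¬ S (t + 2) 3 → ψ (t + 2) 3 ≠ ψ (t + 1) 0 ∧ ψ (t + 2) 3 ≠ ψ (t + 1) 1 ∧
            ψ (t + 2) 3 ≠ ψ (t + 1) 2 ∧ ψ (t + 1) 0 ≠ ψ (t + 1) 1 ∧
            ψ (t + 1) 0 ≠ ψ (t + 1) 2 ∧ ψ (t + 1) 1 ≠ ψ (t + 1) 2 := by
          intro h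
          by_cases h3 : t + 3 < T
          · have := f3 (t + 2) (by omega) h3 h
            simpa using this
          · have e1 : T - 1 = t + 2 := by omega
            have e2 : T - 2 = t + 1 := by omega
            rw [e1, e2] at hT3
            exact hT3
        have F12 : ¬ S (t + 1) 2 → ψ (t + 2) 3 = 3 := by
          intro h
          have := f2 (t + 1) (by omega) hlast h
          have e : t + 1 - 1 = t := by omega
          rw [e] at this
          have := hb (t + 1 + 1) 3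
          have e' : t + 1 + 1 = t + 2 := by omega
          rw [e'] at *
          omega
        have F11 : ¬ S (t + 1) 1 → ψ (t + 1) 1 = 1 → (ψ (t + 2) 2 = 2 ∨ ψ (t + 2) 2 = 3) ∧
            (ψ (t + 2) 3 = 2 ∨ ψ (t + 2) 3 = 3) ∧ ψ (t + 2) 2 ≠ ψ (t + 2) 3 := by
          intro h hy
          have h1 := f1 (t + 1) (by omega) hlast h
          have e : t + 1 - 1 = t := by omega
          rw [e] at h1
          have e' : t + 1 + 1 = t + 2 := by omega
          rw [e'] at h1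
          have := hb (t + 2) 3
          have := hb (t + 2) 2
          omega
        have y1 : ψ (t + 1) 1 = 1 := by
          by_cases h0 : S t 0
          · have n1 : ∀ j, ¬ S (t + 1) j := fun j hj => by
              have := (hS1 t 0 (t + 1) j h0 hj (by omega) (by omega)).1; omega
            have n2 : ∀ j, ¬ S (t + 2) j := fun j hj => by
              have := (hS1 t 0 (t + 2) j h0 hj (by omega) (by omega)).1; omega
            have a := F12 (n1 2)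
            have b := F3 (n2 3)
            omega
          · have := f0 t (by omega) htT h0
            omega
        have y0 : ψ (t + 1) 0 = 0 := by
          by_cases hb1 : S (t + 1) 2
          · have n1 : ¬ S (t + 1) 1 := fun h => by
              have := (hS1 (t + 1) 1 (t + 1) 2 h hb1 le_rfl (by omega)).2; omega
            have n2 : ¬ S (t + 2) 3 := fun h => by
              have := (hS1 (t + 1) 2 (t + 2) 3 hb1 h (by omega) (by omega)).1; omega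
            have a := F11 n1 y1
            have b := F3 n2
            have := hb (t + 2) 3
            omega
          · have a := F12 hb1
            by_cases hc1 : S (t + 2) 3
            · have n1 : ¬ S (t + 1) 1 := fun h => by
                have := (hS1 (t + 1) 1 (t + 2) 3 h hc1 (by omega) (by omega)).1; omega
              have n2 : ¬ S (t + 2) 2 := fun h => by
                have := (hS1 (t + 2) 2 (t + 2) 3 h hc1 le_rfl (by omega)).2; omega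
              have h3 : t + 3 < T := by have := (hS _ _ hc1).2; omega
              have b := F11 n1 y1
              have c := f2 (t + 2) (by omega) h3 n2
              have e : t + 2 - 1 = t + 1 := by omega
              rw [e] at c
              have d := hp (t + 1) hlast 0 3 (by omega) (by omega)
              have e' : t + 1 + 1 = t + 2 := by omega
              rw [e'] at d
              omega
            · have b := F3 hc1
              omega
        exact ⟨y0, y1, y2, y3⟩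
      · have e1 : T - 1 = t + 1 := by omega
        have e2 : T - 2 = t := by omega
        have y1 : ψ (t + 1) 1 = 1 := by
          have := f0 t (by omega) htT (hShigh t 0 (by omega))
          omega
        rw [e1, e2] at hT2
        rw [e1] at h03
        have := hb 0 3
        exact ⟨by omega, y1, y2, y3⟩
  have tl := (sweep (T - 1) (by omega) (by omega)).2
  have tl2 : ψ (T - 2) 0 = 0 ∧ ψ (T - 2) 1 = 1 ∧ ψ (T - 2) 2 = 2 ∧ ψ (T - 2) 3 = 3 :=
    (sweep (T - 2) (by omega) (by omega)).2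
  have t8 := (sweep 8 (by omega) (by omega)).2
  obtain ⟨l0, l1, l2, l3⟩ := tl
  obtain ⟨k0, k1, k2, k3⟩ := tl2
  obtain ⟨u0, u1, u2, u3⟩ := t8
  have b00 := hb 0 0
  have b01 := hb 0 1
  have b02 := hb 0 2
  have b03 := hb 0 3
  have b13 := hb 1 3
  have x3 : ψ 0 3 = 3 := by
    have a := hp' 0 3 (by omega) (by omega) (by omega)
    have b := hp' 1 3 (by omega) (by omega) (by omega)
    have c := hp' 2 3 (by omega) (by omega) (by omega)
    omega
  have x2 : ψ 0 2 = 2 := by omega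
  have x1 : ψ 0 1 = 1 := by omega
  have f13 := f3 1 (by omega) (by omega) (fun h => by have := (hS _ _ h).1; omega)
  simp only [Nat.sub_self] at f13
  have a3 : ψ 1 3 = 3 := by omega
  have x0 : ψ 0 0 = 0 := by omega
  refine ⟨?_, by omega⟩
  intro t ht
  by_cases h3 : 3 ≤ t
  · exact (sweep t h3 ht).2
  · have : t < 3 := by omega
    interval_cases t
    · exact ⟨x0, x1, x2, x3⟩
    · exact ⟨c1.1, c1.2.1, c1.2.2, a3⟩
    · exact c2

/-- T5a -/
theorem rigid_abs (T : ℕ) (hT : 24 ≤ T) (φ : ℕ → ℕ → Fin 4) (z : Fin 4) (S : ℕ → ℕ → Prop)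
    (hS : ∀ t i, S t i → 8 ≤ t ∧ t + 8 < T)
    (hS1 : ∀ t i t' i', S t i → S t' i' → t ≤ t' → t' ≤ t + 2 → t = t' ∧ i = i')
    (hp : ∀ t, t + 1 < T → ∀ i j, i < j → j < 4 → φ t i ≠ φ (t + 1) j)
    (hp' : ∀ i j, i < j → j < 4 → ¬ (i = 0 ∧ j = 2) → φ (T - 1) i ≠ φ 0 j)
    (hf : ∀ t i, 1 ≤ t → t + 1 < T → i < 4 → ¬ S t i → ∀ c, c ≠ φ t i →
      (∃ j, i < j ∧ j < 4 ∧ φ (t + 1) j = c) ∨ ∃ j, j < i ∧ φ (t - 1) j = c)
    (h00 : ∀ c, c ≠ φ 0 0 → φ 1 1 = c ∨ φ 1 2 = c ∨ φ 1 3 = c)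
    (h01 : ∀ c, c ≠ φ 0 1 → φ 1 2 = c ∨ φ 1 3 = c ∨ φ (T - 1) 0 = c)
    (h02 : ∀ c, c ≠ φ 0 2 → φ 1 3 = c ∨ φ (T - 1) 1 = c ∨ z = c)
    (h03 : ∀ c, c ≠ φ 0 3 → φ (T - 1) 0 = c ∨ φ (T - 1) 1 = c ∨ φ (T - 1) 2 = c)
    (hT0 : ∀ c, c ≠ φ (T - 1) 0 → φ 0 1 = c ∨ φ 0 3 = c ∨ φ 8 2 = c)
    (hT1 : ∀ c, c ≠ φ (T - 1) 1 → φ 0 2 = c ∨ φ 0 3 = c ∨ φ (T - 2) 0 = c)
    (hT2 : ∀ c, c ≠ φ (T - 1) 2 → φ 0 3 = c ∨ φ (T - 2) 0 = c ∨ φ (T - 2) 1 = c)
    (hT3 : ∀ c, c ≠ φ (T - 1) 3 → φ (T - 2) 0 = c ∨ φ (T - 2) 1 = c ∨ φ (T - 2) 2 = c) :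
    ∃ σ : Equiv.Perm (Fin 4), (∀ t < T, ∀ i : Fin 4, φ t i = σ i) ∧ z = σ 0 := by
  have f0 : ∀ t, 1 ≤ t → t + 1 < T → ¬ S t 0 →
      D4 (φ t 0) (φ (t + 1) 1) (φ (t + 1) 2) (φ (t + 1) 3) := by
    intro t h1 h2 h3
    apply fr
    intro c hc
    rcases hf t 0 h1 h2 (by omega) h3 c hc with ⟨j, hj, hj', h⟩ | ⟨j, hj, h⟩
    · interval_cases j
      · exact Or.inl h
      · exact Or.inr (Or.inl h)
      · exact Or.inr (Or.inr h)
    · omega
  have f1 : ∀ t, 1 ≤ t → t + 1 < T → ¬ S t 1 →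
      D4 (φ t 1) (φ (t + 1) 2) (φ (t + 1) 3) (φ (t - 1) 0) := by
    intro t h1 h2 h3
    apply fr
    intro c hc
    rcases hf t 1 h1 h2 (by omega) h3 c hc with ⟨j, hj, hj', h⟩ | ⟨j, hj, h⟩
    · interval_cases j
      · exact Or.inl h
      · exact Or.inr (Or.inl h)
    · interval_cases j
      exact Or.inr (Or.inr h)
  have f2 : ∀ t, 1 ≤ t → t + 1 < T → ¬ S t 2 →
      D4 (φ t 2) (φ (t + 1) 3) (φ (t - 1) 0) (φ (t - 1) 1) := by
    intro t h1 h2 h3
    apply fr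
    intro c hc
    rcases hf t 2 h1 h2 (by omega) h3 c hc with ⟨j, hj, hj', h⟩ | ⟨j, hj, h⟩
    · interval_cases j
      exact Or.inl h
    · interval_cases j
      · exact Or.inr (Or.inl h)
      · exact Or.inr (Or.inr h)
  have f3 : ∀ t, 1 ≤ t → t + 1 < T → ¬ S t 3 →
      D4 (φ t 3) (φ (t - 1) 0) (φ (t - 1) 1) (φ (t - 1) 2) := by
    intro t h1 h2 h3
    apply fr
    intro c hc
    rcases hf t 3 h1 h2 (by omega) h3 c hc with ⟨j, hj, hj', h⟩ | ⟨j, hj, h⟩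
    · omega
    · interval_cases j
      · exact Or.inl h
      · exact Or.inr (Or.inl h)
      · exact Or.inr (Or.inr h)
  have hSl : ∀ t i, t < 8 → ¬ S t i := fun t i h h' => by have := (hS t i h').1; omega
  -- the base
  have g20 := f0 2 (by omega) (by omega) (hSl _ _ (by omega))
  have g21 := f1 2 (by omega) (by omega) (hSl _ _ (by omega))
  have g22 := f2 2 (by omega) (by omega) (hSl _ _ (by omega))
  have g23 := f3 2 (by omega) (by omega) (hSl _ _ (by omega))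
  have g32 := f2 3 (by omega) (by omega) (hSl _ _ (by omega))
  have g33 := f3 3 (by omega) (by omega) (hSl _ _ (by omega))
  have g11 := f1 1 (by omega) (by omega) (hSl _ _ (by omega))
  have g43 := f3 4 (by omega) (by omega) (hSl _ _ (by omega))
  simp only [Nat.reduceAdd, Nat.reduceSub] at g20 g21 g22 g23 g32 g33 g11 g43
  -- g20 : D4 b0 c1 c2 c3, g21 : D4 b1 c2 c3 a0
  have e1 : φ 2 0 = φ 1 0 ∧ φ 3 1 = φ 2 1 := by
    refine two (φ 2 0) (φ 3 2) (φ 3 3) (φ 3 1) (φ 2 1) (φ 1 0) ?_ g21 g32.2.2.2.2.2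
    unfold D4 at g20 ⊢; tauto
  have e2 : φ 2 1 = φ 1 1 ∧ φ 3 2 = φ 2 2 := by
    refine two (φ 2 1) (φ 3 3) (φ 1 0) (φ 3 2) (φ 2 2) (φ 1 1) ?_ g22 g33.2.2.2.2.2
    unfold D4 at g21 ⊢; tauto
  have e3 : φ 2 2 = φ 1 2 ∧ φ 3 3 = φ 2 3 := by
    refine two (φ 2 2) (φ 1 0) (φ 1 1) (φ 3 3) (φ 2 3) (φ 1 2) ?_ g23 g11.2.2.2.1
    unfold D4 at g22 ⊢; tauto
  have hB : D4 (φ 2 1) (φ 2 2) (φ 2 3) (φ 2 0) := by
    rw [e3.2] at g33
    unfold D4 at g33 ⊢; tauto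
  have e4 : φ 3 0 = φ 2 0 := by
    rw [e1.2, e2.2] at g43
    rw [e2.2] at g32
    apply last _ _ _ _ _ hB
    · exact g43.2.2.2.1
    · exact g43.2.2.2.2.1
    · intro h
      have : φ 4 3 = φ 2 0 := by
        apply last _ _ _ _ _ hB
        · exact g43.2.1
        · exact g43.2.2.1
        · rw [← h]; exact g43.1
      exact g32.2.2.2.1 this
  have hinj : Function.Injective (fun i : Fin 4 => φ 2 i) := inj4 _ hB
  let σ : Equiv.Perm (Fin 4) := Equiv.ofBijective _ (Finite.injective_iff_bijective.1 hinj)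
  have hσ : ∀ i : Fin 4, σ i = φ 2 i := fun i => rfl
  set g : Fin 4 → ℕ := fun x => (σ.symm x : ℕ) with hg
  have hgi : Function.Injective g := fun x y h => σ.symm.injective (Fin.ext h)
  have gs : ∀ i : Fin 4, g (φ 2 i) = i := by
    intro i
    rw [hg, ← hσ]
    simp
  have gs0 : g (φ 2 0) = 0 := gs 0
  have gs1 : g (φ 2 1) = 1 := gs 1
  have gs2 : g (φ 2 2) = 2 := gs 2
  have gs3 : g (φ 2 3) = 3 := gs 3
  obtain ⟨hc, hz⟩ := core T hT (fun t i => g (φ t i)) (fun t i => (σ.symm (φ t i)).isLt) (g z)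
    (σ.symm z).isLt S hS hS1
    (fun t ht i j hij hj => hgi.ne (hp t ht i j hij hj))
    (fun i j hij hj hn => hgi.ne (hp' i j hij hj hn))
    (fun t a b c => (f0 t a b c).map hgi) (fun t a b c => (f1 t a b c).map hgi)
    (fun t a b c => (f2 t a b c).map hgi) (fun t a b c => (f3 t a b c).map hgi)
    ((fr _ _ _ _ h01).map hgi) ((fr _ _ _ _ h02).map hgi) ((fr _ _ _ _ h03).map hgi)
    ((fr _ _ _ _ hT0).map hgi) ((fr _ _ _ _ hT1).map hgi) ((fr _ _ _ _ hT2).map hgi)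
    ((fr _ _ _ _ hT3).map hgi)
    ⟨by rw [← e1.1]; exact gs0, by rw [← e2.1]; exact gs1, by rw [← e3.1]; exact gs2⟩
    ⟨gs0, gs1, gs2, gs3⟩
    ⟨by rw [e4]; exact gs0, by rw [e1.2]; exact gs1, by rw [e2.2]; exact gs2,
      by rw [e3.2]; exact gs3⟩
  refine ⟨σ, ?_, ?_⟩
  · intro t ht i
    obtain ⟨k0, k1, k2, k3⟩ := hc t ht
    apply hgi
    rw [hσ, gs]
    fin_cases i
    · exact k0
    · exact k1
    · exact k2
    · exact k3
  · apply hgi
    rw [hz]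
    exact gs0.symm

end Pool.Agent.NPC.Mix.T5a
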