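import Pool.Agent.H679R2.Mix.Abs

/-!
# T5b (MP_8006ab_lc): connectivity closure of the palette chain
-/

namespace Pool.Agent.NPC.Mix.T5b

/-- T5b -/
theorem sweep_abs (T : ℕ) (hT : 24 ≤ T) (S : ℕ → ℕ → Prop)
    (hS : ∀ t i, S t i → 8 ≤ t ∧ t + 8 < T)
    (hS1 : ∀ t i t' i', S t i → S t' i' → t ≤ t' → t' ≤ t + 2 → t = t' ∧ i = i')
    (Ok : ℕ → ℕ → Prop)
    (hOk : ∀ t i, Ok t i ↔ ¬ S t i ∧ ¬ (t = 2 ∧ i = 0) ∧ ¬ (t = 3 ∧ 1 ≤ i))
    (R : ℕ → ℕ → Prop) (h30 : R 3 0) (h43 : R 4 3)
    (hup : ∀ t i j, t + 1 < T → i < j → j < 4 → R t i → Ok (t + 1) j → R (t + 1) j)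
    (hdn : ∀ t i j, t + 1 < T → i < j → j < 4 → R (t + 1) j → Ok t i → R t i)
    (hup' : ∀ i j, i < j → j < 4 → ¬ (i = 0 ∧ j = 2) → R (T - 1) i → Ok 0 j → R 0 j)
    (hdn' : ∀ i j, i < j → j < 4 → ¬ (i = 0 ∧ j = 2) → R 0 j → Ok (T - 1) i → R (T - 1) i) :
    ∀ t < T, ∀ i < 4, Ok t i → R t i := by
  have hSlow : ∀ t i, t < 8 → ¬ S t i := fun t i h h' => by have := (hS t i h').1; omega
  have hShigh : ∀ t i, T ≤ t + 8 → ¬ S t i := fun t i h h' => by have := (hS t i h').2; omega
  -- Ok for columns ≥ 4 and columns 0, 1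
  have ok4 : ∀ t i, 4 ≤ t → ¬ S t i → Ok t i := fun t i h h' =>
    (hOk t i).2 ⟨h', by omega, by omega⟩
  have okl : ∀ t i, t < 2 → Ok t i := fun t i h =>
    (hOk t i).2 ⟨hSlow t i (by omega), by omega, by omega⟩
  have nS : ∀ t i, Ok t i → ¬ S t i := fun t i h => ((hOk t i).1 h).1
  -- column 4
  have c4 : ∀ i < 4, R 4 i := by
    have h1 : R 4 1 := hup 3 0 1 (by omega) (by omega) (by omega) h30
      (ok4 _ _ (by omega) (hSlow _ _ (by omega)))
    have h2 : R 4 2 := hup 3 0 2 (by omega) (by omega) (by omega) h30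
      (ok4 _ _ (by omega) (hSlow _ _ (by omega)))
    have h53 : R 5 3 := hup 4 1 3 (by omega) (by omega) (by omega) h1
      (ok4 _ _ (by omega) (hSlow _ _ (by omega)))
    have h0 : R 4 0 := hdn 4 0 3 (by omega) (by omega) (by omega) h53
      (ok4 _ _ (by omega) (hSlow _ _ (by omega)))
    intro i hi
    interval_cases i
    · exact h0
    · exact h1
    · exact h2
    · exact h43
  -- the sweep
  have sweep : ∀ t, 4 ≤ t → t < T → ∀ i < 4, Ok t i → R t i := by
    intro t ht
    induction t, ht using Nat.le_induction with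
    | base => intro _ i hi _; exact c4 i hi
    | succ t ht ih =>
      intro htT
      have ih' := ih (by omega)
      have H : ∀ i < 4, ¬ S t i → R t i := fun i hi h => ih' i hi (ok4 t i ht h)
      have hex : ∃ i, i < 2 ∧ R t i := by
        by_cases h0 : S t 0
        · refine ⟨1, by omega, H 1 (by omega) ?_⟩
          intro h1
          have := (hS1 t 0 t 1 h0 h1 le_rfl (by omega)).2
          omega
        · exact ⟨0, by omega, H 0 (by omega) h0⟩
      obtain ⟨i0, hi0, hR0⟩ := hex
      have r3 : Ok (t + 1) 3 → R (t + 1) 3 := fun h =>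
        hup t i0 3 htT (by omega) (by omega) hR0 h
      have r2 : Ok (t + 1) 2 → R (t + 1) 2 := fun h =>
        hup t i0 2 htT (by omega) (by omega) hR0 h
      by_cases hlast : t + 2 < T
      · have r1 : Ok (t + 1) 1 → R (t + 1) 1 := by
          intro h
          by_cases h0 : S t 0
          · have n1 : ∀ j, ¬ S (t + 1) j := fun j hj => by
              have := (hS1 t 0 (t + 1) j h0 hj (by omega) (by omega)).1; omega
            have n2 : ∀ j, ¬ S (t + 2) j := fun j hj => by
              have := (hS1 t 0 (t + 2) j h0 hj (by omega) (by omega)).1; omega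
            have a := r2 (ok4 _ _ (by omega) (n1 2))
            have b := hup (t + 1) 2 3 hlast (by omega) (by omega) a
              (ok4 _ _ (by omega) (n2 3))
            exact hdn (t + 1) 1 3 hlast (by omega) (by omega) b h
          · exact hup t 0 1 htT (by omega) (by omega) (H 0 (by omega) h0) h
        have r0 : Ok (t + 1) 0 → R (t + 1) 0 := by
          intro h
          by_cases h3 : S (t + 2) 3
          · have n1 : ∀ j, ¬ S (t + 1) j := fun j hj => by
              have := (hS1 (t + 1) j (t + 2) 3 hj h3 (by omega) (by omega)).1; omega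
            have n2 : ¬ S (t + 2) 2 := fun hj => by
              have := (hS1 (t + 2) 2 (t + 2) 3 hj h3 (by omega) (by omega)).2; omega
            have a := r1 (ok4 _ _ (by omega) (n1 1))
            have b := hup (t + 1) 1 2 hlast (by omega) (by omega) a (ok4 _ _ (by omega) n2)
            exact hdn (t + 1) 0 2 hlast (by omega) (by omega) b h
          · have hex : ∃ i, 1 ≤ i ∧ i < 3 ∧ R (t + 1) i := by
              by_cases h1 : S (t + 1) 1
              · refine ⟨2, by omega, by omega, r2 (ok4 _ _ (by omega) ?_)⟩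
                intro h2
                have := (hS1 (t + 1) 1 (t + 1) 2 h1 h2 le_rfl (by omega)).2
                omega
              · exact ⟨1, by omega, by omega, r1 (ok4 _ _ (by omega) h1)⟩
            obtain ⟨i1, hi1, hi1', hR1⟩ := hex
            have b := hup (t + 1) i1 3 hlast (by omega) (by omega) hR1
              (ok4 _ _ (by omega) h3)
            exact hdn (t + 1) 0 3 hlast (by omega) (by omega) b h
        intro i hi h
        interval_cases i
        · exact r0 h
        · exact r1 h
        · exact r2 h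
        · exact r3 h
      · have hTt : T - 1 = t + 1 := by omega
        have n0 : ∀ j, ¬ S t j := fun j => hShigh t j (by omega)
        have n1 : ∀ j, ¬ S (t + 1) j := fun j => hShigh (t + 1) j (by omega)
        have r1 : R (t + 1) 1 := hup t 0 1 htT (by omega) (by omega) (H 0 (by omega) (n0 0))
          (ok4 _ _ (by omega) (n1 1))
        have b : R 0 3 := hup' 1 3 (by omega) (by omega) (by omega) (by rw [hTt]; exact r1)
          (okl 0 3 (by omega))
        have r0 : R (t + 1) 0 := by
          have := hdn' 0 3 (by omega) (by omega) (by omega) b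
            (by rw [hTt]; exact ok4 _ _ (by omega) (n1 0))
          rwa [hTt] at this
        intro i hi h
        interval_cases i
        · exact r0
        · exact r1
        · exact r2 h
        · exact r3 h
  have hl : ∀ i < 4, R (T - 1) i := fun i hi =>
    sweep (T - 1) (by omega) (by omega) i hi (ok4 _ _ (by omega) (hShigh _ _ (by omega)))
  have r03 : R 0 3 := hup' 1 3 (by omega) (by omega) (by omega) (hl 1 (by omega))
    (okl _ _ (by omega))
  have r02 : R 0 2 := hup' 1 2 (by omega) (by omega) (by omega) (hl 1 (by omega))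
    (okl _ _ (by omega))
  have r01 : R 0 1 := hup' 0 1 (by omega) (by omega) (by omega) (hl 0 (by omega))
    (okl _ _ (by omega))
  have r13 : R 1 3 := hup 0 1 3 (by omega) (by omega) (by omega) r01 (okl _ _ (by omega))
  have r00 : R 0 0 := hdn 0 0 3 (by omega) (by omega) (by omega) r13 (okl _ _ (by omega))
  have r11 : R 1 1 := hup 0 0 1 (by omega) (by omega) (by omega) r00 (okl _ _ (by omega))
  have r12 : R 1 2 := hup 0 0 2 (by omega) (by omega) (by omega) r00 (okl _ _ (by omega))
  have ok2 : ∀ i, 1 ≤ i → Ok 2 i := fun i hi =>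
    (hOk 2 i).2 ⟨hSlow 2 i (by omega), by omega, by omega⟩
  have r23 : R 2 3 := hup 1 1 3 (by omega) (by omega) (by omega) r11 (ok2 3 (by omega))
  have r10 : R 1 0 := hdn 1 0 3 (by omega) (by omega) (by omega) r23 (okl _ _ (by omega))
  intro t ht i hi h
  by_cases h4 : 4 ≤ t
  · exact sweep t h4 ht i hi h
  · have hh := (hOk t i).1 h
    have ht4 : t < 4 := by omega
    interval_cases t
    · interval_cases i
      · exact r00
      · exact r01
      · exact r02
      · exact r03
    · interval_cases i
      · exact r10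
      · exact r11
      · exact r12
      · exact r13
    · have hi0 : i ≠ 0 := fun h0 => hh.2.1 ⟨rfl, h0⟩
      exact hup 1 0 i (by omega) (by omega) hi r10 h
    · have hi0 : i = 0 := by
        by_contra h0
        exact hh.2.2 ⟨rfl, by omega⟩
      subst hi0
      exact h30

end Pool.Agent.NPC.Mix.T5b
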